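import Mathlib

/-!
# Primes lift from a dense open set (proof by helper88)
-/

set_option autoImplicit false

namespace MPadcGM

/-- Primes lift from a dense open set (Chevalley). -/
theorem exists_prime_lift {B A : Type*} [CommRing B] [IsDomain B] [IsNoetherianRing B]
    [CommRing A] [IsDomain A] (θ : B →+* A) (hθ : Function.Injective θ) (hft : θ.FiniteType)
    (c : A) (hc : c ≠ 0) :
    ∃ h : B, h ≠ 0 ∧ ∀ q : Ideal B, q.IsPrime → h ∉ q →
      ∃ Q : Ideal A, Q.IsPrime ∧ c ∉ Q ∧ Q.comap θ = q := by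
  classical
  let Ac := Localization.Away c
  let η : A →+* Ac := algebraMap A Ac
  have hηinj : Function.Injective η :=
    IsLocalization.injective Ac (powers_le_nonZeroDivisors_of_noZeroDivisors hc)
  have hdom : IsDomain Ac :=
    IsLocalization.isDomain_localization (powers_le_nonZeroDivisors_of_noZeroDivisors hc)
  have hη : η.FiniteType := by
    have h1 : Algebra.FinitePresentation A Ac := IsLocalization.Away.finitePresentation c
    exact RingHom.finiteType_algebraMap.2 inferInstance
  have hcomp : (η.comp θ).FiniteType := hη.comp hft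
  have hfp : (η.comp θ).FinitePresentation := RingHom.FinitePresentation.of_finiteType.1 hcomp
  obtain ⟨S, hS⟩ := PrimeSpectrum.exists_constructibleSetData_iff.2
    (PrimeSpectrum.isConstructible_range_comap hfp)
  have hbot : (⊥ : PrimeSpectrum B) ∈ S.toSet := by
    rw [hS]
    refine ⟨⊥, ?_⟩
    ext x
    simp only [PrimeSpectrum.comap_asIdeal, Ideal.mem_comap]
    change (η.comp θ) x ∈ (⊥ : Ideal Ac) ↔ x ∈ (⊥ : Ideal B)
    have h1 : Function.Injective (η.comp θ) := fun x y h => hθ (hηinj h)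
    rw [Ideal.mem_bot, Ideal.mem_bot, map_eq_zero_iff _ h1]
  rw [PrimeSpectrum.ConstructibleSetData.toSet, Set.mem_iUnion₂] at hbot
  obtain ⟨C, hC, hbotC⟩ := hbot
  have hf : C.f ≠ 0 := by
    intro h
    apply hbotC.2
    rw [PrimeSpectrum.mem_zeroLocus, Set.singleton_subset_iff, h]
    exact Ideal.zero_mem _
  have hg : ∀ i, C.g i = 0 := by
    intro i
    have h1 := hbotC.1
    rw [PrimeSpectrum.mem_zeroLocus] at h1
    have h2 := h1 ⟨i, rfl⟩
    exact (Ideal.mem_bot).1 h2
  refine ⟨C.f, hf, ?_⟩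
  intro q hq hfq
  have hmem : (⟨q, hq⟩ : PrimeSpectrum B) ∈ S.toSet := by
    rw [PrimeSpectrum.ConstructibleSetData.toSet, Set.mem_iUnion₂]
    refine ⟨C, hC, ?_, ?_⟩
    · rw [PrimeSpectrum.mem_zeroLocus]
      rintro _ ⟨i, rfl⟩
      rw [hg i]
      exact Ideal.zero_mem _
    · rw [PrimeSpectrum.mem_zeroLocus, Set.singleton_subset_iff]
      exact hfq
  rw [hS] at hmem
  obtain ⟨P, hP⟩ := hmem
  refine ⟨P.asIdeal.comap η, inferInstance, ?_, ?_⟩
  · rw [Ideal.mem_comap]
    intro h
    apply P.isPrime.ne_top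
    apply Ideal.eq_top_of_isUnit_mem _ h
    exact IsLocalization.Away.algebraMap_isUnit c
  · rw [Ideal.comap_comap]
    exact congrArg PrimeSpectrum.asIdeal hP

theorem charP_of_cast_eq_zero {k : Type*} [Field k] {p : ℕ} (hp : p.Prime) (h : (p : k) = 0) :
    CharP k p := by
  obtain ⟨r, hr⟩ := CharP.exists k
  have h2 := (CharP.cast_eq_zero_iff k r p).1 h
  rcases (Nat.dvd_prime hp).1 h2 with h | h
  · subst h
    exact absurd rfl (CharP.char_ne_one k 1)
  · subst h
    exact hr

end MPadcGM
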