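import Mathlib
import Pool.Agent.Lib.MP_adc574_ag_GM.Lift

/-!
# Residue fields of a finitely generated domain with all its derivations

`exists_fields`: a finitely generated domain `A` of characteristic zero has, for all large primes `p`,
a homomorphism to a field of characteristic `p` to which all derivations of `A` extend, and whose
kernel avoids a given nonzero element as soon as `p` is large.
The kernel is a prime `Q` with `Q ∩ ℤ[x] = (p)`, `x` a transcendence basis, at which `A` is unramified
over `ℤ[x]`, so that `Q A_Q = p A_Q` and derivations preserve `Q`.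
-/

set_option autoImplicit false

universe u

namespace MPadcGM

open Algebra

section derivation

/-- Derivations extend to localizations. -/
theorem exists_extend_derivation {S T : Type u} [CommRing S] [CommRing T] [Algebra S T]
    (M : Submonoid S) [IsLocalization M T] (d : Derivation ℤ S T) :
    ∃ d' : Derivation ℤ T T, ∀ s, d' (algebraMap S T s) = d s := by
  have het : Algebra.FormallyEtale S T := Algebra.FormallyEtale.of_isLocalization (Rₘ := T) M
  have hbc : IsBaseChange T (KaehlerDifferential.map ℤ ℤ S T) :=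
    KaehlerDifferential.isBaseChange_of_formallyEtale ℤ S T
  refine ⟨(hbc.lift d.liftKaehlerDifferential).compDer (KaehlerDifferential.D ℤ T), ?_⟩
  intro s
  have h1 : KaehlerDifferential.D ℤ T (algebraMap S T s) =
      KaehlerDifferential.map ℤ ℤ S T (KaehlerDifferential.D ℤ S s) := by
    rw [KaehlerDifferential.map_D]
  change hbc.lift d.liftKaehlerDifferential (KaehlerDifferential.D ℤ T (algebraMap S T s)) = d s
  rw [h1, hbc.lift_eq, Derivation.liftKaehlerDifferential_comp_D]

/-- A derivation preserving a prime ideal induces one on the residue field. -/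
theorem exists_residue_derivation {A : Type u} [CommRing A] (Q : Ideal A) [Q.IsPrime]
    {T : Type u} [Field T] [Algebra (A ⧸ Q) T] [IsFractionRing (A ⧸ Q) T]
    (D : Derivation ℤ A A) (hD : ∀ q ∈ Q, D q ∈ Q) :
    ∃ d : Derivation ℤ T T, ∀ a, d (algebraMap (A ⧸ Q) T (Ideal.Quotient.mk Q a)) =
        algebraMap (A ⧸ Q) T (Ideal.Quotient.mk Q (D a)) := by
  have hsurj : Function.Surjective (Ideal.Quotient.mkₐ ℤ Q) := Ideal.Quotient.mkₐ_surjective ℤ Q
  have hd : ∀ x, (Ideal.Quotient.mkₐ ℤ Q) x = 0 → (Ideal.Quotient.mkₐ ℤ Q) (D x) = 0 := by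
    intro x hx
    exact Ideal.Quotient.eq_zero_iff_mem.2 (hD x (Ideal.Quotient.eq_zero_iff_mem.1 hx))
  let d0 : Derivation ℤ (A ⧸ Q) (A ⧸ Q) := Derivation.liftOfSurjective hsurj hd
  have hd0 : ∀ a, d0 (Ideal.Quotient.mk Q a) = Ideal.Quotient.mk Q (D a) :=
    fun a => Derivation.liftOfSurjective_apply hsurj hd a
  let d1 : Derivation ℤ (A ⧸ Q) T := (Algebra.linearMap (A ⧸ Q) T).compDer d0
  obtain ⟨d, hd'⟩ := exists_extend_derivation (nonZeroDivisors (A ⧸ Q)) d1
  refine ⟨d, fun a => ?_⟩
  rw [hd']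
  change algebraMap (A ⧸ Q) T (d0 (Ideal.Quotient.mk Q a)) = _
  rw [hd0]

end derivation

section unramified

/-- In characteristic zero the generic point is unramified. -/
theorem isUnramifiedAt_bot {R S : Type u} [CommRing R] [CommRing S] [Algebra R S] [IsDomain R]
    [IsDomain S] [FaithfulSMul R S] [CharZero R] [Algebra.IsAlgebraic R S] :
    IsUnramifiedAt R (⊥ : Ideal S) := by
  have : IsFractionRing S (Localization.AtPrime (⊥ : Ideal S)) := by
    simpa [Ideal.primeCompl_bot] using Localization.isLocalization (M := (⊥ : Ideal S).primeCompl)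
  let : Field (Localization.AtPrime (⊥ : Ideal S)) := IsFractionRing.toField S
  have : FaithfulSMul R (Localization.AtPrime (⊥ : Ideal S)) := by
    rw [faithfulSMul_iff_algebraMap_injective,
      IsScalarTower.algebraMap_eq R S (Localization.AtPrime ⊥)]
    exact (IsFractionRing.injective S _).comp (FaithfulSMul.algebraMap_injective R S)
  let := FractionRing.liftAlgebra R (Localization.AtPrime (⊥ : Ideal S))
  have h1 : Algebra.IsAlgebraic R (Localization.AtPrime (⊥ : Ideal S)) :=
    (IsFractionRing.isAlgebraic_iff' R S _).1 inferInstance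
  have : Algebra.IsAlgebraic (FractionRing R) (Localization.AtPrime (⊥ : Ideal S)) :=
    IsFractionRing.comap_isAlgebraic_iff.1 h1
  have : FormallyUnramified (FractionRing R) (Localization.AtPrime (⊥ : Ideal S)) :=
    FormallyUnramified.of_isSeparable _ _
  exact FormallyUnramified.comp R (FractionRing R) (Localization.AtPrime ⊥)

/-- An unramified prime over `(π)`: every element becomes a multiple of `π` outside of it. -/
theorem exists_mul_eq {R S : Type u} [CommRing R] [CommRing S] [Algebra R S]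
    [Algebra.EssFiniteType R S] (π : R) (p : Ideal R) [p.IsPrime] (hp : p = Ideal.span {π})
    (Q : Ideal S) [Q.IsPrime] (hQ : Q.comap (algebraMap R S) = p) (hun : IsUnramifiedAt R Q)
    (q : S) (hq : q ∈ Q) : ∃ s, s ∉ Q ∧ ∃ a, s * q = algebraMap R S π * a := by
  have hover : Q.LiesOver p := ⟨hQ.symm⟩
  let _ := Localization.AtPrime.algebraOfLiesOver p Q
  have h1 := ((isUnramifiedAt_iff_map_eq R p Q).1 hun).2
  have h2 : algebraMap S (Localization.AtPrime Q) q ∈
      IsLocalRing.maximalIdeal (Localization.AtPrime Q) := by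
    rw [← Localization.AtPrime.map_eq_maximalIdeal]
    exact Ideal.mem_map_of_mem _ hq
  rw [← h1, hp, Ideal.map_span, Set.image_singleton, Ideal.mem_span_singleton] at h2
  obtain ⟨z, hz⟩ := h2
  obtain ⟨a, s, rfl⟩ := IsLocalization.exists_mk'_eq Q.primeCompl z
  have h3 : algebraMap S (Localization.AtPrime Q) ((s : S) * q) =
      algebraMap S (Localization.AtPrime Q) (algebraMap R S π * a) := by
    rw [map_mul, hz, map_mul, ← IsScalarTower.algebraMap_apply R S (Localization.AtPrime Q),
      mul_left_comm, IsLocalization.mk'_spec' ]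
  obtain ⟨t, ht⟩ := (IsLocalization.eq_iff_exists Q.primeCompl (Localization.AtPrime Q)).1 h3
  refine ⟨(t : S) * s, ?_, (t : S) * a, ?_⟩
  · intro h
    rcases (inferInstance : Q.IsPrime).mem_or_mem h with h | h
    · exact t.2 h
    · exact s.2 h
  · rw [mul_assoc, ht]
    ring

end unramified

theorem exists_fields (A : Type u) [CommRing A] [IsDomain A] [CharZero A]
    [Algebra.FiniteType ℤ A] :
    ∃ B : A → ℕ, ∀ p : ℕ, p.Prime → B 0 < p →
      ∃ (kp : Type u) (_ : Field kp) (φ : A →+* kp), CharP kp p ∧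
        (∀ D : Derivation ℤ A A, ∃ dl : Derivation ℤ kp kp, ∀ a, dl (φ a) = φ (D a)) ∧
        ∀ b, b ≠ 0 → B b < p → φ b ≠ 0 := by
  classical
  have hfaith : FaithfulSMul ℤ A := inferInstance
  obtain ⟨X, hX⟩ := exists_isTranscendenceBasis ℤ A
  have hfin : Algebra.trdeg ℤ A < Cardinal.aleph0 := trdeg_lt_aleph0_of_finiteType
  have hXfin : Finite X := by
    rw [← Cardinal.lt_aleph0_iff_finite, hX.cardinalMk_eq_trdeg]
    exact hfin
  let R := MvPolynomial X ℤ
  let θ : R →ₐ[ℤ] A := MvPolynomial.aeval ((↑) : X → A)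
  have hθ : Function.Injective θ.toRingHom := hX.1
  let _ : Algebra R A := θ.toRingHom.toAlgebra
  have hmap : (algebraMap R A) = θ.toRingHom := rfl
  have hfaithR : FaithfulSMul R A := (faithfulSMul_iff_algebraMap_injective R A).2 hθ
  have htower : IsScalarTower ℤ R A := IsScalarTower.of_algebraMap_eq' (Subsingleton.elim _ _)
  have hftR : Algebra.FiniteType R A := Algebra.FiniteType.of_restrictScalars_finiteType ℤ R A
  have halg : Algebra.IsAlgebraic R A := by
    have h1 := hX.isAlgebraic
    have hran : adjoin ℤ (Set.range ((↑) : X → A)) = θ.range :=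
      Algebra.adjoin_range_eq_range_aeval ℤ ((↑) : X → A)
    constructor
    intro a
    obtain ⟨P, hP, hPa⟩ := h1.isAlgebraic a
    let f : R →+* adjoin ℤ (Set.range ((↑) : X → A)) :=
      RingHom.codRestrict θ.toRingHom (adjoin ℤ (Set.range ((↑) : X → A))) (fun x => by
        rw [hran]
        exact ⟨x, rfl⟩)
    have hsur : Function.Surjective f := by
      intro y
      have h2 : (y : A) ∈ θ.range := by
        rw [← hran]
        exact y.2
      obtain ⟨x, hx⟩ := h2
      exact ⟨x, Subtype.ext hx⟩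
    obtain ⟨P', rfl⟩ := Polynomial.map_surjective f hsur P
    refine ⟨P', fun h => hP (by rw [h, Polynomial.map_zero]), ?_⟩
    rw [← hPa, Polynomial.aeval_def, Polynomial.aeval_def, Polynomial.eval₂_map]
    rfl
  have hunr : IsUnramifiedAt R (⊥ : Ideal A) := isUnramifiedAt_bot
  obtain ⟨f, hf, hfun⟩ := exists_formallyUnramified_of_isUnramifiedAt (R := R) (⊥ : Ideal A)
  have hf0 : f ≠ 0 := fun h => hf (by rw [h]; exact Ideal.zero_mem _)
  have hft : θ.toRingHom.FiniteType := RingHom.finiteType_algebraMap.2 hftR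
  obtain ⟨h, hh, hlift⟩ := exists_prime_lift θ.toRingHom hθ hft f hf0
  obtain ⟨m, hm⟩ := MvPolynomial.ne_zero_iff.1 hh
  -- multiples in `R`
  have hdvd : ∀ b : A, ∃ N : ℕ, b ≠ 0 → ∃ g : R, b ∣ algebraMap R A g ∧ ∃ m, g.coeff m ≠ 0 ∧
      (g.coeff m).natAbs ≤ N := by
    intro b
    by_cases hb : b = 0
    · exact ⟨0, fun h => absurd hb h⟩
    · obtain ⟨g, hg, hbg⟩ := (halg.isAlgebraic b).exists_nonzero_dvd
        (mem_nonZeroDivisors_of_ne_zero hb)
      obtain ⟨m', hm'⟩ := MvPolynomial.ne_zero_iff.1 hg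
      exact ⟨(g.coeff m').natAbs, fun _ => ⟨g, hbg, m', hm', le_rfl⟩⟩
  choose N hN using hdvd
  have hndvd : ∀ (g : R) (m : X →₀ ℕ) (p : ℕ), g.coeff m ≠ 0 → (g.coeff m).natAbs < p →
      g ∉ Ideal.span {((p : ℕ) : R)} := by
    intro g m p hgm hlt hmem
    rw [Ideal.mem_span_singleton] at hmem
    obtain ⟨r, hr⟩ := hmem
    have h1 : g.coeff m = (p : ℤ) * MvPolynomial.coeff m r := by
      rw [hr]
      have h2 : ((p : ℕ) : R) = MvPolynomial.C ((p : ℕ) : ℤ) := by simp [R]
      rw [h2, MvPolynomial.coeff_C_mul]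
    have h3 : (p : ℤ) ∣ g.coeff m := ⟨_, h1⟩
    have h4 := Int.natAbs_dvd_natAbs.2 h3
    rw [Int.natAbs_natCast] at h4
    have := Nat.le_of_dvd (Int.natAbs_pos.2 hgm) h4
    omega
  refine ⟨fun b => if b = 0 then (h.coeff m).natAbs else N b, ?_⟩
  intro p hp hB
  replace hB : (h.coeff m).natAbs < p := by simpa using hB
  have hprime : (Ideal.span {((p : ℕ) : R)}).IsPrime := by
    have h1 : Prime ((MvPolynomial.C ((p : ℕ) : ℤ)) : MvPolynomial X ℤ) :=
      (MvPolynomial.prime_C_iff X).2 (Nat.prime_iff_prime_int.1 hp)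
    have h2 : ((p : ℕ) : R) = MvPolynomial.C ((p : ℕ) : ℤ) := by simp [R]
    rw [h2]
    exact (Ideal.span_singleton_prime h1.ne_zero).2 h1
  obtain ⟨Q, hQ, hfQ, hcomap⟩ := hlift (Ideal.span {((p : ℕ) : R)}) hprime
    (hndvd h m p hm hB)
  have hpQ : (p : A) ∈ Q := by
    have h1 : ((p : ℕ) : R) ∈ Q.comap θ.toRingHom := by
      rw [hcomap]
      exact Ideal.mem_span_singleton_self _
    rw [Ideal.mem_comap, map_natCast] at h1
    exact h1
  have hunQ : IsUnramifiedAt R Q := by
    have h1 := basicOpen_subset_unramifiedLocus_iff.2 hfun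
    exact h1 (show (⟨Q, hQ⟩ : PrimeSpectrum A) ∈ PrimeSpectrum.basicOpen f from hfQ)
  -- derivations preserve `Q`
  have hstab : ∀ (D : Derivation ℤ A A), ∀ q ∈ Q, D q ∈ Q := by
    intro D q hq
    obtain ⟨s, hs, a, ha⟩ := exists_mul_eq ((p : ℕ) : R) (Ideal.span {((p : ℕ) : R)}) rfl Q hcomap
      hunQ q hq
    rw [map_natCast] at ha
    have h1 := congrArg D ha
    rw [Derivation.leibniz, Derivation.leibniz, Derivation.map_natCast, smul_zero, add_zero,
      smul_eq_mul, smul_eq_mul, smul_eq_mul] at h1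
    have h2 : s * D q ∈ Q := by
      have h3 : s * D q = (p : A) * D a - q * D s := by
        rw [← h1]
        ring
      rw [h3]
      exact Q.sub_mem (Q.mul_mem_right _ hpQ) (Q.mul_mem_right _ hq)
    exact (hQ.mem_or_mem h2).resolve_left hs
  refine ⟨FractionRing (A ⧸ Q), inferInstance,
    (algebraMap (A ⧸ Q) (FractionRing (A ⧸ Q))).comp (Ideal.Quotient.mk Q), ?_, ?_, ?_⟩
  · apply charP_of_cast_eq_zero hp
    have h1 : ((p : ℕ) : A ⧸ Q) = 0 := by
      rw [← map_natCast (Ideal.Quotient.mk Q)]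
      exact Ideal.Quotient.eq_zero_iff_mem.2 hpQ
    rw [← map_natCast (algebraMap (A ⧸ Q) (FractionRing (A ⧸ Q))), h1, map_zero]
  · intro D
    exact exists_residue_derivation Q D (hstab D)
  · intro b hb hBb
    replace hBb : N b < p := by simpa [hb] using hBb
    obtain ⟨g, hbg, m', hm', hle⟩ := hN b hb
    have h1 : g ∉ Ideal.span {((p : ℕ) : R)} := hndvd g m' p hm' (lt_of_le_of_lt hle hBb)
    intro h2
    rw [RingHom.comp_apply, map_eq_zero_iff _ (IsFractionRing.injective (A ⧸ Q) _),
      Ideal.Quotient.eq_zero_iff_mem] at h2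
    apply h1
    rw [← hcomap, Ideal.mem_comap]
    exact Q.mem_of_dvd hbg h2

end MPadcGM
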