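import Pool.Agent.Lib.MP_adc574_ag_GM.Cart

/-!
# JOB CARTC: `cart_weight`, `cart_grade`

* `cart_weight`: `F ^ j` is weighted homogeneous of degree `j d`
  (`MvPolynomial.IsWeightedHomogeneous.pow`), `x ^ e F ^ j` of degree `wt e + j d`; if its
  coefficient at `p v + (p - 1)` is nonzero then the degrees agree:
  `wt e + (p - 1 - k) d = p (∑ w i v i) + (p - 1) ∑ w i`, and `∑ w i (v i + 1) = d`
  (`Finsupp.weight_apply`, `Finsupp.sum_fintype`).
* `cart_grade`: the same for the grading `s`: `∑ (e i) • s i + (p - 1 - k) • t =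
  ∑ (p v i + (p - 1)) • s i`; `p • g = g` for all `g : G` because `p = 1 mod N` and `N • g = 0`; add
  `∑ s i` on both sides.
-/

set_option autoImplicit false

namespace MPadcGM

open MvPolynomial

section

variable {κ : Type*} [Field κ] {m : ℕ}

private theorem CartC_wt {M : Type*} [AddCommMonoid M] (W : Fin m → M) (e : Fin m →₀ ℕ) :
    Finsupp.weight W e = ∑ i, e i • W i := by
  rw [Finsupp.weight_apply, Finsupp.sum_fintype]
  intro i
  exact zero_smul _ _

private theorem CartC_key {M : Type*} [AddCommMonoid M] (p : ℕ) (W : Fin m → M) (t : M)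
    (F : MvPolynomial (Fin m) κ) (hF : F.IsWeightedHomogeneous W t) (v : Fin m →₀ ℕ) (k : ℕ)
    (e : Fin m →₀ ℕ) (h : cart p F v k (monomial e 1) ≠ 0) :
    p • (∑ i, v i • W i) + (p - 1) • ∑ i, W i = (∑ i, e i • W i) + (p - 1 - k) • t := by
  rw [cart_apply] at h
  have h1 : (monomial e (1 : κ)).IsWeightedHomogeneous W (Finsupp.weight W e) :=
    isWeightedHomogeneous_monomial W e 1 rfl
  have h2 := (h1.mul (hF.pow (p - 1 - k))) h
  rw [map_add, map_nsmul, CartC_wt, CartC_wt, CartC_wt] at h2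
  rw [← h2]
  congr 1
  rw [Finset.smul_sum]
  rfl

theorem cart_weight (p : ℕ) (hp : 0 < p) (w : Fin m → ℕ) (d : ℕ) (F : MvPolynomial (Fin m) κ)
    (hF : F.IsWeightedHomogeneous w d) (v : Fin m →₀ ℕ) (hv : ∑ i, w i * (v i + 1) = d) (k : ℕ)
    (hk : k ≤ p - 1) (e : Fin m →₀ ℕ) (h : cart p F v k (monomial e 1) ≠ 0) :
    ∑ i, w i * (e i + 1) = (k + 1) * d := by
  have h1 := CartC_key p w d F hF v k e h
  simp only [smul_eq_mul] at h1
  have h2 : ∀ u : Fin m →₀ ℕ, ∑ i, w i * (u i + 1) = (∑ i, u i * w i) + ∑ i, w i := by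
    intro u
    rw [← Finset.sum_add_distrib]
    exact Finset.sum_congr rfl fun i _ => by ring
  rw [h2] at hv ⊢
  obtain ⟨j, rfl⟩ : ∃ j, p = k + 1 + j := ⟨p - 1 - k, by omega⟩
  have h3 : k + 1 + j - 1 = k + j := by omega
  have h4 : k + j - k = j := by omega
  rw [h3, h4] at h1
  rw [← hv] at h1 ⊢
  nlinarith [h1]

theorem cart_grade {G : Type*} [AddCommGroup G] (p N : ℕ) (hN : ∀ g : G, N • g = 0)
    (hpN : p ≡ 1 [MOD N]) (hp : 0 < p) (s : Fin m → G) (t : G) (F : MvPolynomial (Fin m) κ)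
    (hF : F.IsWeightedHomogeneous s t) (v : Fin m →₀ ℕ) (k : ℕ) (hk : k ≤ p - 1)
    (e : Fin m →₀ ℕ) (h : cart p F v k (monomial e 1) ≠ 0) :
    ∑ i, (e i + 1) • s i = k • t + ∑ i, (v i + 1) • s i := by
  have h1 := CartC_key p s t F hF v k e h
  have hp1 : ∀ g : G, p • g = g := by
    intro g
    obtain ⟨c, hc⟩ := (Nat.modEq_iff_dvd' (by omega : 1 ≤ p)).mp hpN.symm
    have h2 : p = 1 + N * c := by omega
    rw [h2, add_smul, one_smul, mul_comm N c, mul_smul, hN, smul_zero, add_zero]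
  have h2 : ∀ u : Fin m →₀ ℕ, ∑ i, (u i + 1) • s i = (∑ i, u i • s i) + ∑ i, s i := by
    intro u
    rw [← Finset.sum_add_distrib]
    exact Finset.sum_congr rfl fun i _ => by rw [add_smul, one_smul]
  rw [h2, h2]
  obtain ⟨j, rfl⟩ : ∃ j, p = k + 1 + j := ⟨p - 1 - k, by omega⟩
  have h3 : k + 1 + j - 1 = k + j := by omega
  have h4 : k + j - k = j := by omega
  rw [hp1, h3, h4] at h1
  have h5 := hp1 (∑ i, s i)
  have h6 := hp1 t
  have h7 : (k + j) • (∑ i, s i) + ∑ i, s i = (k + 1 + j) • ∑ i, s i := by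
    rw [← succ_nsmul]
    congr 1
    omega
  have h8 : (k + 1 + j) • t = k • t + t + j • t := by
    rw [add_smul, add_smul, one_smul]
  rw [h8] at h6
  have h9 : k • t + j • t = 0 := by
    have : k • t + j • t + t = 0 + t := by
      rw [zero_add]
      calc k • t + j • t + t = k • t + t + j • t := by abel
        _ = t := h6
    exact add_right_cancel this
  have h10 : (k + j) • (∑ i, s i) = 0 := by
    have : (k + j) • (∑ i, s i) + ∑ i, s i = 0 + ∑ i, s i := by
      rw [h7, h5, zero_add]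
    exact add_right_cancel this
  rw [h10, add_zero] at h1
  have h11 : j • t = - (k • t) := by
    rw [eq_neg_iff_add_eq_zero, add_comm]
    exact h9
  rw [h1, h11]
  abel

end

end MPadcGM
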