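import Pool.Agent.Lib.MP_adc574_ag_GM.CartA
import Pool.Agent.Lib.MP_adc574_ag_GM.CartC

/-!
# JOB GD: Griffiths-Dwork reduction: the Cartier functionals are independent at bounded pole order

Put `ψ k := ∑ v, lam v • cart p F v k`. By `hlam` and `cart_weight`, `ψ k₀` vanishes on all
monomials, hence `ψ k₀ = 0`. Claim: `ψ k = 0` for all `k₀ ≤ k ≤ p - 1` (induction). Step from `k` to
`k + 1 ≤ p - 1`: let `e` be an exponent; if `∑ w i (e i + 1) ≠ (k + 2) d` then
`ψ (k + 1) (x ^ e) = 0` by `cart_weight`. Otherwise `∑ w i e i = (k + 2) d - ∑ w i ≥ M` and so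
`x ^ e = ∑ j, Q j * pderiv j F` (`hJ`, `Ideal.mem_span_range_iff_exists_fun` or
`Submodule.mem_span_range_iff_exists_fun`). By `cart_exact`
`(k + 1) ψ (k + 1) (Q j * pderiv j F) = ψ (k + 1) (F * pderiv j (Q j))`, which is
`ψ k (pderiv j (Q j)) = 0` by `cart_mul` and induction, and `(k + 1 : κ) ≠ 0` since `k + 1 < p`.
Finally `ψ (p - 1) (x ^ (p v + (p - 1))) = lam v` (`F ^ 0 = 1`; for `v ≠ v'` the exponents
`p v + (p - 1)` and `p v' + (p - 1)` are different).
-/

set_option autoImplicit false

namespace MPadcGM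

open MvPolynomial

theorem cart_indep {κ : Type*} [Field κ] {m : ℕ} (p : ℕ) [hp : Fact p.Prime] [CharP κ p]
    (w : Fin m → ℕ) (hw : ∀ i, 0 < w i) (d : ℕ) (F : MvPolynomial (Fin m) κ)
    (hF : F.IsWeightedHomogeneous w d) (M k₀ : ℕ) (hk₀ : M + ∑ i, w i ≤ (k₀ + 2) * d)
    (hk₀p : k₀ ≤ p - 1)
    (hJ : ∀ e : Fin m →₀ ℕ, M ≤ ∑ i, w i * e i →
      monomial e (1 : κ) ∈ Ideal.span (Set.range fun j => pderiv j F))
    (lam : expo w d → κ)
    (hlam : ∀ e ∈ expo w ((k₀ + 1) * d), ∑ v, lam v * cart p F v.1 k₀ (monomial e 1) = 0) :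
    lam = 0 := by
  classical
  have hp0 : 0 < p := hp.out.pos
  have hψa : ∀ (k : ℕ) (P : MvPolynomial (Fin m) κ),
      (∑ v, lam v • cart p F v.1 k) P = ∑ v, lam v * cart p F v.1 k P := by
    intro k P
    rw [LinearMap.sum_apply]
    refine Finset.sum_congr rfl fun v _ => ?_
    rw [LinearMap.smul_apply, smul_eq_mul]
  have hext : ∀ k : ℕ, (∀ e : Fin m →₀ ℕ, (∑ v, lam v • cart p F v.1 k) (monomial e 1) = 0) →
      (∑ v, lam v • cart p F v.1 k) = 0 := by
    intro k h
    refine MvPolynomial.linearMap_ext fun e => ?_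
    refine LinearMap.ext_ring ?_
    rw [LinearMap.comp_apply, LinearMap.comp_apply, LinearMap.zero_apply]
    exact h e
  have hwt : ∀ (k : ℕ) (e : Fin m →₀ ℕ), k ≤ p - 1 → ∑ i, w i * (e i + 1) ≠ (k + 1) * d →
      (∑ v, lam v • cart p F v.1 k) (monomial e 1) = 0 := by
    intro k e hk he
    rw [hψa]
    refine Finset.sum_eq_zero fun v _ => ?_
    have h1 : cart p F v.1 k (monomial e 1) = 0 := by
      by_contra hne
      exact he (cart_weight p hp0 w d F hF v.1 ((mem_expo hw).1 v.2) k hk e hne)
    rw [h1, mul_zero]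
  have hmain : ∀ k : ℕ, k₀ ≤ k → k ≤ p - 1 → (∑ v, lam v • cart p F v.1 k) = 0 := by
    intro k hk
    induction k, hk using Nat.le_induction with
    | base =>
      intro hk1
      refine hext k₀ fun e => ?_
      by_cases he : ∑ i, w i * (e i + 1) = (k₀ + 1) * d
      · rw [hψa]
        exact hlam e ((mem_expo hw).2 he)
      · exact hwt k₀ e hk1 he
    | succ k hk ih =>
      intro hk1
      have ih' := ih (by omega)
      refine hext (k + 1) fun e => ?_
      by_cases he : ∑ i, w i * (e i + 1) = (k + 1 + 1) * d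
      · have hM : M ≤ ∑ i, w i * e i := by
          have h1 : ∑ i, w i * (e i + 1) = ∑ i, w i * e i + ∑ i, w i := by
            rw [← Finset.sum_add_distrib]
            refine Finset.sum_congr rfl fun i _ => ?_
            ring
          have h2 : (k₀ + 2) * d ≤ (k + 1 + 1) * d := Nat.mul_le_mul_right _ (by omega)
          omega
        obtain ⟨Q, hQ⟩ := Ideal.mem_span_range_iff_exists_fun.1 (hJ e hM)
        rw [← hQ, map_sum]
        refine Finset.sum_eq_zero fun j _ => ?_
        have hk2 : ((k : κ) + 1) ≠ 0 := by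
          have h3 : ((k + 1 : ℕ) : κ) ≠ 0 := by
            intro h0
            rw [CharP.cast_eq_zero_iff κ p] at h0
            have h4 := Nat.le_of_dvd (Nat.succ_pos k) h0
            omega
          rw [Nat.cast_add, Nat.cast_one] at h3
          exact h3
        have hexact : ∀ v : expo w d, ((k : κ) + 1) * cart p F v.1 (k + 1) (Q j * pderiv j F) =
            cart p F v.1 k (pderiv j (Q j)) := by
          intro v
          have h5 := cart_exact p F v.1 k hk1 j (Q j)
          rw [map_sub, map_smul, smul_eq_mul, sub_eq_zero, mul_comm F, cart_mul p F v.1 k hk1] at h5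
          exact h5.symm
        have h6 : ((k : κ) + 1) * (∑ v, lam v • cart p F v.1 (k + 1)) (Q j * pderiv j F) = 0 := by
          rw [hψa, Finset.mul_sum]
          have h7 : ∑ v : expo w d, ((k : κ) + 1) * (lam v * cart p F v.1 (k + 1) (Q j * pderiv j F))
              = ∑ v : expo w d, lam v * cart p F v.1 k (pderiv j (Q j)) := by
            refine Finset.sum_congr rfl fun v _ => ?_
            rw [← hexact v]
            ring
          rw [h7, ← hψa, ih', LinearMap.zero_apply]
        exact (mul_eq_zero.1 h6).resolve_left hk2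
      · exact hwt (k + 1) e hk1 he
  have hlast := hmain (p - 1) hk₀p le_rfl
  funext v
  have h8 : (∑ v, lam v • cart p F v.1 (p - 1)) (monomial (p • v.1 + pm1 m p) 1) = 0 := by
    rw [hlast, LinearMap.zero_apply]
  rw [hψa, Finset.sum_eq_single v] at h8
  · rw [cart_apply, Nat.sub_self, pow_zero, mul_one, coeff_monomial, if_pos rfl, mul_one] at h8
    rw [Pi.zero_apply]
    exact h8
  · intro v' _ hv'
    rw [cart_apply, Nat.sub_self, pow_zero, mul_one, coeff_monomial, if_neg, mul_zero]
    intro heq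
    apply hv'
    have h9 : p • v.1 = p • v'.1 := add_right_cancel heq
    apply Subtype.ext
    ext i
    have h10 := DFunLike.congr_fun h9 i
    rw [Finsupp.smul_apply, Finsupp.smul_apply, smul_eq_mul, smul_eq_mul] at h10
    exact (Nat.eq_of_mul_eq_mul_left hp0 h10).symm
  · intro h
    exact absurd (Finset.mem_univ v) h

end MPadcGM
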