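import Pool.Agent.Lib.MP_adc574_ag_GM.JacA

/-!
# JOB JACB: all monomials of large degree lie in the Jacobian ideal

From `jac_descend`: take the product `a` of the `a i` and the maximum `M₀ ≥ 1` of the exponents (multiply by
powers of `X i`), `M = M₀ * ∑ w i` (or `M = 1` if `m = 0`). If `M ≤ ∑ w i e i` and `m > 0` then some
`e i ≥ M₀` (otherwise `∑ w i e i < M₀ * ∑ w i`), so the monomial is a multiple of `X i ^ M₀`, which lies in the
ideal because `φ a ≠ 0` is a unit (apply `Ideal.mem_map_of_mem (MvPolynomial.map φ)`, `Ideal.map_span`,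
`pderiv_map`). For `m = 0` the sum is `0` and `M = 1 ≤ 0` is false.
-/

set_option autoImplicit false

namespace MPadcGM

open MvPolynomial

/-- Transport of the descended membership along `φ`, when `φ a` is nonzero. -/
private lemma pow_mem_of_descend {A : Type*} [CommRing A] {m : ℕ} (f : MvPolynomial (Fin m) A)
    (i : Fin m) {a : A} {M : ℕ}
    (h : C a * (X i) ^ M ∈ Ideal.span (Set.range fun j : Fin m => pderiv j f))
    {κ : Type*} [Field κ] (φ : A →+* κ) (hφ : φ a ≠ 0) :
    (X i : MvPolynomial (Fin m) κ) ^ M ∈ Ideal.span (Set.range fun j => pderiv j (f.map φ)) := by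
  have h1 := Ideal.mem_map_of_mem (MvPolynomial.map φ) h
  rw [Ideal.map_span, ← Set.range_comp] at h1
  have h2 : ((MvPolynomial.map φ) ∘ fun j : Fin m => pderiv j f) =
      fun j => pderiv j (f.map φ) := by
    funext j
    simp only [Function.comp_apply, pderiv_map]
  rw [h2] at h1
  have h3 : (X i : MvPolynomial (Fin m) κ) ^ M =
      C (φ a)⁻¹ * (MvPolynomial.map φ) (C a * (X i) ^ M) := by
    rw [map_mul, map_pow, map_C, map_X, ← mul_assoc, ← C_mul, inv_mul_cancel₀ hφ, C_1, one_mul]
  rw [h3]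
  exact Ideal.mul_mem_left _ _ h1

theorem exists_jac {k : Type*} [Field k] {A : Type*} [CommRing A] [IsDomain A] [Algebra A k]
    (hinj : Function.Injective (algebraMap A k)) {m : ℕ} (w : Fin m → ℕ) (hw : ∀ i, 0 < w i)
    (f : MvPolynomial (Fin m) A)
    (hs : ∀ i, (X i : MvPolynomial (Fin m) k) ∈
      (Ideal.span (Set.range fun j => pderiv j (f.map (algebraMap A k)))).radical) :
    ∃ (a : A) (M : ℕ), a ≠ 0 ∧ ∀ {κ : Type*} [Field κ] (φ : A →+* κ), φ a ≠ 0 →
      ∀ e : Fin m →₀ ℕ, M ≤ ∑ i, w i * e i →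
        monomial e (1 : κ) ∈ Ideal.span (Set.range fun j => pderiv j (f.map φ)) := by
  choose a M ha hM using fun i => jac_descend hinj f i (hs i)
  refine ⟨∏ i, a i, (∑ i, M i + 1) * ∑ i, w i + 1, Finset.prod_ne_zero_iff.2 fun i _ => ha i, ?_⟩
  intro κ _ φ hφ e he
  have hφi : ∀ i, φ (a i) ≠ 0 := by
    intro i hi
    apply hφ
    rw [map_prod]
    exact Finset.prod_eq_zero (Finset.mem_univ i) hi
  -- some exponent is large
  have hex : ∃ i, M i ≤ e i := by
    by_contra hcon
    push Not at hcon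
    have h1 : ∑ i, w i * e i ≤ ∑ i, w i * (∑ j, M j + 1) := by
      apply Finset.sum_le_sum
      intro i _
      apply Nat.mul_le_mul_left
      have h2 : M i ≤ ∑ j, M j := Finset.single_le_sum (fun j _ => Nat.zero_le _) (Finset.mem_univ i)
      have h3 := hcon i
      omega
    rw [← Finset.sum_mul, mul_comm] at h1
    omega
  obtain ⟨i, hi⟩ := hex
  have h4 := pow_mem_of_descend f i (hM i) φ (hφi i)
  have h5 : (monomial e (1 : κ)) =
      monomial (e - Finsupp.single i (M i)) 1 * (X i) ^ (M i) := by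
    rw [X_pow_eq_monomial, monomial_mul, one_mul]
    congr 1
    rw [tsub_add_cancel_of_le]
    rw [Finsupp.single_le_iff]
    exact hi
  rw [h5]
  exact Ideal.mul_mem_left _ _ h4

end MPadcGM
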