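import Pool.Agent.Lib.MP_adc574_ag_GM.UPer

/-!
# JOB UIND: the ultraproduct of the Cartier functionals is a linearly independent family

`Fintype.linearIndependent_iff`. Suppose `∑ v, g v • uper v = 0` with `g v : Ult U κ`; lift
`g v = ultMk U κ (lam v)` (`ultMk_surjective`, `choose`). For `e ∈ expo w ((k₀ + 1) * d)` evaluate at `k₀` and
`monomial e 1` (`uper_monomial`, `Finset.sum_apply`, `LinearMap.sum_apply`):
`ultMk (fun i => ∑ v, lam v i * cart (p i) (f.map (φ i)) v k₀ (monomial e 1)) = 0`, so it vanishes for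
`U`-almost all `i` (`ultMk_eq_zero`); the set of `e` is finite (`Filter.eventually_all_finset`), so for
almost all `i` the hypothesis `h` gives `lam v i = 0` for all `v`, hence `g v = 0`.
-/

set_option autoImplicit false

namespace MPadcGM

open MvPolynomial

universe u

/-- The ultraproduct of the Cartier functionals is a linearly independent family. -/
theorem uper_indep {ι : Type} (U : Ultrafilter ι) (κ : ι → Type u) [∀ i, Field (κ i)]
    {A : Type u} [CommRing A] {m : ℕ} (f : MvPolynomial (Fin m) A) (p : ι → ℕ)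
    (φ : ∀ i, A →+* κ i) (w : Fin m → ℕ) (d k₀ : ℕ)
    (h : ∀ᶠ i in (U : Filter ι), ∀ lam : expo w d → κ i,
      (∀ e ∈ expo w ((k₀ + 1) * d),
        ∑ v, lam v * cart (p i) (f.map (φ i)) v.1 k₀ (monomial e 1) = 0) → lam = 0) :
    LinearIndependent (Ult U κ) fun v : expo w d => uper U κ f p φ v.1 := by
  rw [Fintype.linearIndependent_iff]
  intro g hg
  choose lam hlam using fun v => ultMk_surjective U κ (g v)
  have h1 : ∀ e ∈ expo w ((k₀ + 1) * d), ∀ᶠ i in (U : Filter ι),
      ∑ v : expo w d, lam v i * cart (p i) (f.map (φ i)) v.1 k₀ (monomial e 1) = 0 := by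
    intro e _
    have h2 := congrArg (fun F => F k₀ (monomial e 1)) hg
    simp only [Finset.sum_apply, LinearMap.sum_apply, Pi.smul_apply, LinearMap.smul_apply,
      smul_eq_mul, Pi.zero_apply, LinearMap.zero_apply, uper_monomial] at h2
    have h3 : ultMk U κ (fun i => ∑ v : expo w d,
        lam v i * cart (p i) (f.map (φ i)) v.1 k₀ (monomial e 1)) = 0 := by
      rw [← h2]
      have h4 : (fun i => ∑ v : expo w d,
          lam v i * cart (p i) (f.map (φ i)) v.1 k₀ (monomial e 1)) =
          ∑ v : expo w d, lam v *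
            (fun i => cart (p i) (f.map (φ i)) v.1 k₀ (monomial e 1)) := by
        funext i
        rw [Finset.sum_apply]
        rfl
      rw [h4, map_sum]
      refine Finset.sum_congr rfl fun v _ => ?_
      rw [map_mul, hlam v]
    exact (ultMk_eq_zero U κ _).1 h3
  have h5 : ∀ᶠ i in (U : Filter ι), ∀ e ∈ expo w ((k₀ + 1) * d),
      ∑ v : expo w d, lam v i * cart (p i) (f.map (φ i)) v.1 k₀ (monomial e 1) = 0 :=
    (Filter.eventually_all_finset _).2 h1
  intro v
  rw [← hlam v, ultMk_eq_zero]
  filter_upwards [h, h5] with i hi1 hi2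
  have h6 := hi1 (fun v => lam v i) hi2
  exact congrFun h6 v

end MPadcGM
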