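import Mathlib

/-!
# Definitions: forms on weighted hypersurfaces, Hasse-Witt matrix, formal periods

`f` is a polynomial in `m` variables, weighted homogeneous of degree `d` for the weights `w i > 0`.
The exponents `u` with `∑ w i (u i + 1) = d` index the residues of `x ^ u Ω / f`, a basis of the
regular differential forms of top degree on the hypersurface `f = 0` of weighted projective space.
-/

set_option autoImplicit false

namespace MPadcGM

open MvPolynomial

universe u

/-- The exponents `u` with `∑ w i (u i + 1) = d` (for positive weights all of them are found among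
those with `∑ u i ≤ d`). -/
noncomputable def expo {m : ℕ} (w : Fin m → ℕ) (d : ℕ) : Finset (Fin m →₀ ℕ) :=
  ((Finset.range (d + 1)).biUnion fun e => Finset.finsuppAntidiag Finset.univ e).filter
    fun u => ∑ i, w i * (u i + 1) = d

/-- The exponent `(p - 1, …, p - 1)`. -/
noncomputable def pm1 (m p : ℕ) : Fin m →₀ ℕ := Finsupp.equivFunOnFinite.symm fun _ => p - 1

/-- The Hasse-Witt matrix of the weighted hypersurface `f = 0` in characteristic `p`: the entry
`(u, v)` is the coefficient of `x ^ (p v + (p - 1, …, p - 1))` in `x ^ u f ^ (p - 1)`. -/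
noncomputable def hasseWitt (p : ℕ) {m : ℕ} (w : Fin m → ℕ) (d : ℕ) {R : Type*} [CommRing R]
    (f : MvPolynomial (Fin m) R) : Matrix (expo w d) (expo w d) R :=
  fun u v => coeff (p • v.1 + pm1 m p) (monomial u.1 1 * f ^ (p - 1))

/-- The polynomial `f` with the derivation `D` applied to all coefficients. -/
noncomputable def coeffD {A : Type*} [CommRing A] {m : ℕ} (D : Derivation ℤ A A)
    (f : MvPolynomial (Fin m) A) : MvPolynomial (Fin m) A :=
  ∑ e ∈ f.support, monomial e (D (coeff e f))

/-- `c` is a formal period of the hypersurface `f = 0` with values in the field `L`: `c k P` is the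
period of the form `P Ω / f ^ (k + 1)`. The rules say that this depends only on the form
(`mul`), that exact forms have period zero (`exact`: the form in question is
`∂ᵢ (Q / f ^ (k + 1)) Ω`), and that periods are differentiated under the integral sign
(`deriv`, for the derivations of `A`, which act on `L` by `δ`). -/
structure IsPeriod {A : Type u} [CommRing A] {m : ℕ} (f : MvPolynomial (Fin m) A) {L : Type u}
    [Field L] (φ : A →+* L) (δ : Derivation ℤ A A → Derivation ℤ L L)
    (c : ℕ → MvPolynomial (Fin m) L →ₗ[L] L) : Prop where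
  mul : ∀ (k : ℕ) (P : MvPolynomial (Fin m) L), c (k + 1) (P * f.map φ) = c k P
  exact : ∀ (k : ℕ) (i : Fin m) (Q : MvPolynomial (Fin m) L),
    c (k + 1) (f.map φ * pderiv i Q - ((k : L) + 1) • (Q * pderiv i (f.map φ))) = 0
  deriv : ∀ (D : Derivation ℤ A A) (k : ℕ) (e : Fin m →₀ ℕ),
    δ D (c k (monomial e 1)) = -((k : L) + 1) * c (k + 1) (monomial e 1 * (coeffD D f).map φ)

/-- The period condition: over every differential extension `L` of `A`, any family of linearly
independent formal periods `c v`, indexed by the exponents `v` of the regular forms, with `c v` of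
the same degree as `x ^ v Ω / f` for the grading `s` (for which `f` has degree `t`), has a nonzero
period determinant on the regular forms. -/
def PeriodCondition {A : Type u} [CommRing A] {m : ℕ} (w : Fin m → ℕ) (d : ℕ)
    (f : MvPolynomial (Fin m) A) {G : Type*} [AddCommGroup G] (s : Fin m → G) (t : G) : Prop :=
  ∀ (L : Type u) [Field L] (φ : A →+* L) (δ : Derivation ℤ A A → Derivation ℤ L L)
    (c : expo w d → ℕ → MvPolynomial (Fin m) L →ₗ[L] L),
    Function.Injective φ → (∀ (D : Derivation ℤ A A) (a : A), δ D (φ a) = φ (D a)) →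
    (∀ v, IsPeriod f φ δ (c v)) →
    (∀ (v : expo w d) (k : ℕ) (e : Fin m →₀ ℕ), c v k (monomial e 1) ≠ 0 →
      ∑ i, (e i + 1) • s i = k • t + ∑ i, (v.1 i + 1) • s i) →
    LinearIndependent L c →
    (Matrix.of fun u v : expo w d => c v 0 (monomial u.1 1)).det ≠ 0

theorem mem_expo {m : ℕ} {w : Fin m → ℕ} (hw : ∀ i, 0 < w i) {d : ℕ} {u : Fin m →₀ ℕ} :
    u ∈ expo w d ↔ ∑ i, w i * (u i + 1) = d := by
  unfold expo
  rw [Finset.mem_filter, Finset.mem_biUnion]
  constructor
  · exact fun h => h.2
  · intro h
    refine ⟨⟨∑ i, u i, ?_, ?_⟩, h⟩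
    · rw [Finset.mem_range]
      have h1 : ∑ i, u i ≤ ∑ i, w i * (u i + 1) := by
        refine Finset.sum_le_sum fun i _ => ?_
        calc u i ≤ 1 * (u i + 1) := by omega
          _ ≤ w i * (u i + 1) := Nat.mul_le_mul_right _ (hw i)
      omega
    · rw [Finset.mem_finsuppAntidiag]
      exact ⟨rfl, Finset.subset_univ _⟩

end MPadcGM
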