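import Pool.Agent.Lib.MP_adc574_ag_GM.Main

/-!
# All but finitely many characteristics
-/

set_option autoImplicit false

namespace MPadcGM

open MvPolynomial

universe u

theorem main_all {k : Type u} [Field k] [CharZero k] (A : Subalgebra ℤ k) (hA : A.FG) {m : ℕ}
    (w : Fin m → ℕ) (hw : ∀ i, 0 < w i) (d : ℕ) (hd : 0 < d) (f : MvPolynomial (Fin m) A)
    (hf : f.IsWeightedHomogeneous w d)
    (hs : ∀ i, (X i : MvPolynomial (Fin m) k) ∈
      (Ideal.span (Set.range fun j => pderiv j (f.map (algebraMap A k)))).radical)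
    {G : Type*} [AddCommGroup G] (N : ℕ) (hN : 0 < N) (hNG : ∀ g : G, N • g = 0)
    (s : Fin m → G) (t : G) (hst : f.IsWeightedHomogeneous s t)
    (hper : PeriodCondition w d f s t) (b : A) (hb : b ≠ 0) :
    ∃ p₀ : ℕ, ∀ p : ℕ, p.Prime → p₀ < p → p ≡ 1 [MOD N] →
      ∃ (κ : Type u) (_ : Field κ) (_ : CharP κ p)
      (φ : A →+* κ), φ b ≠ 0 ∧ φ (hasseWitt p w d f).det ≠ 0 := by
  classical
  by_contra hcon
  push Not at hcon
  have hft : Algebra.FiniteType ℤ A := A.fg_iff_finiteType.1 hA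
  obtain ⟨B, hB⟩ := exists_fields A
  obtain ⟨a, M, ha, hJ⟩ := exists_jac (A := A) (k := k) (FaithfulSMul.algebraMap_injective A k) w hw f hs
  -- the index set
  set P0 : ℕ := max (B 0) (B b) with hP0
  let ι : Type := {p : ℕ // p.Prime ∧ (p ≡ 1 [MOD N] ∧ ∀ (κ : Type u) (_ : Field κ)
    (_ : CharP κ p) (φ : A →+* κ), φ b ≠ 0 → φ (hasseWitt p w d f).det = 0) ∧ P0 < p}
  have hinf : Infinite ι := by
    have h1 : Set.Infinite {p : ℕ | p.Prime ∧ (p ≡ 1 [MOD N] ∧ ∀ (κ : Type u) (_ : Field κ)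
        (_ : CharP κ p) (φ : A →+* κ), φ b ≠ 0 → φ (hasseWitt p w d f).det = 0) ∧ P0 < p} := by
      apply Set.infinite_of_forall_exists_gt
      intro n
      obtain ⟨p, hp1, hp2, hp3, hp4⟩ := hcon (max n P0)
      exact ⟨p, ⟨hp1, ⟨hp3, hp4⟩, lt_of_le_of_lt (le_max_right _ _) hp2⟩,
        lt_of_le_of_lt (le_max_left _ _) hp2⟩
    exact h1.to_subtype
  have hBi : ∀ i : ι, B 0 < i.1 := fun i => lt_of_le_of_lt (le_max_left _ _) i.2.2.2
  have hbi : ∀ i : ι, B b < i.1 := fun i => lt_of_le_of_lt (le_max_right _ _) i.2.2.2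
  choose κ hκ φ hchar hder hne using fun i : ι => hB i.1 i.2.1 (hBi i)
  let U : Ultrafilter ι := Filter.hyperfilter ι
  have hlarge : ∀ n : ℕ, ∀ᶠ i in (U : Filter ι), n < i.1 := by
    intro n
    apply Filter.hyperfilter_le_cofinite
    rw [Filter.mem_cofinite]
    have h1 : Set.Finite {x : ℕ | x ≤ n} := Set.finite_le_nat n
    refine (Set.Finite.preimage (f := fun i : ι => i.1) Subtype.val_injective.injOn h1).subset ?_
    intro i hi
    simp only [Set.mem_compl_iff, Set.mem_setOf_eq, not_lt] at hi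
    exact hi
  choose δ hδ using hder
  choose Δ hΔ using fun D : Derivation ℤ A A => exists_ultD U κ (fun i => δ i D)
  have hdet := hper (Ult U κ) (uphi U κ φ) Δ
    (fun v k => uper U κ f (fun i => i.1) φ v.1 k) ?_ ?_ ?_ ?_ ?_
  · apply hdet
    have h1 : (Matrix.of fun u v : expo w d =>
        uper U κ f (fun i => i.1) φ v.1 0 (monomial u.1 1)) =
        (ultMk U κ).mapMatrix (Matrix.of fun (u v : expo w d) (i : ι) =>
          hasseWitt i.1 w d (f.map (φ i)) u v) := by
      ext u v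
      rw [Matrix.of_apply, uper_monomial]
      simp only [RingHom.mapMatrix_apply, Matrix.map_apply, Matrix.of_apply]
      rfl
    rw [h1, ← RingHom.map_det]
    have h2 : (Matrix.of fun (u v : expo w d) (i : ι) =>
          hasseWitt i.1 w d (f.map (φ i)) u v).det = 0 := by
      ext i
      have h3 := (Pi.evalRingHom κ i).map_det (Matrix.of fun (u v : expo w d) (i : ι) =>
          hasseWitt i.1 w d (f.map (φ i)) u v)
      rw [Pi.evalRingHom_apply] at h3
      rw [h3]
      have h4 : (Pi.evalRingHom κ i).mapMatrix (Matrix.of fun (u v : expo w d) (i : ι) =>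
          hasseWitt i.1 w d (f.map (φ i)) u v) = hasseWitt i.1 w d (f.map (φ i)) := by
        ext u v
        rfl
      rw [h4, ← hasseWitt_map, ← RingHom.map_det]
      exact i.2.2.1.2 (κ i) (hκ i) (hchar i) (φ i) (hne i b hb (hbi i))
    rw [h2, map_zero]
  · rw [injective_iff_map_eq_zero]
    intro x hx
    by_contra hx0
    rw [uphi_apply, ultMk_eq_zero] at hx
    have h1 := hx.and (hlarge (B x))
    obtain ⟨i, hi1, hi2⟩ := h1.exists
    exact hne i x hx0 hi2 hi1
  · intro D x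
    refine (hΔ D fun i => φ i x).trans ?_
    rw [uphi_apply]
    exact congrArg _ (funext fun i => hδ i D x)
  · intro v
    exact uper_isPeriod U κ f (fun i => i.1) φ (fun i => i.2.1) hchar hlarge δ hδ Δ hΔ v.1
  · intro v k e hne0
    rw [uper_monomial, Ne, ultMk_eq_zero, ← Ultrafilter.eventually_not] at hne0
    obtain ⟨i, hi1, hi2⟩ := (hne0.and (hlarge (k + 1))).exists
    exact cart_grade i.1 N hNG i.2.2.1.1 i.2.1.pos s t (f.map (φ i)) (isWeightedHomogeneous_map (φ i) hst) v.1 k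
      (by omega) e hi1
  · have hk₀ : M + ∑ i, w i ≤ ((M + ∑ i, w i) + 2) * d :=
      le_trans (by omega) (Nat.le_mul_of_pos_right _ hd)
    refine uper_indep U κ f (fun i => i.1) φ w d (M + ∑ i, w i) ?_
    filter_upwards [hlarge (M + ∑ i, w i + 1), hlarge (B a)] with i hi1 hi2 lam hlam
    have := hchar i
    have : Fact (i.1).Prime := ⟨i.2.1⟩
    exact cart_indep i.1 w hw d (f.map (φ i)) (isWeightedHomogeneous_map (φ i) hf) M (M + ∑ i, w i) hk₀ (by omega)
      (hJ (φ i) (hne i a ha hi2)) lam hlam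

end MPadcGM
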