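import Pool.Agent.Lib.MP_adc574_ag_GM.Defs
import Pool.Agent.Lib.MP_adc574_ag_GM.Lift

/-!
# No exact regular forms at ordinary points
-/

set_option autoImplicit false

namespace MPadcGM

open MvPolynomial

theorem coeff_pderiv_pm1 {κ : Type*} [Field κ] {m : ℕ} (p : ℕ) [hp : Fact p.Prime] [CharP κ p]
    (v : Fin m →₀ ℕ) (i : Fin m) (R : MvPolynomial (Fin m) κ) :
    coeff (p • v + pm1 m p) (pderiv i R) = 0 := by
  induction R using MvPolynomial.induction_on' with
  | monomial e a =>
    rw [pderiv_monomial, coeff_monomial]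
    split_ifs with h
    · have h1 := DFunLike.congr_fun h i
      have h2 : e i = 0 ∨ e i = p * v i + p := by
        simp only [Finsupp.coe_tsub, Pi.sub_apply, Finsupp.single_eq_same, Finsupp.coe_add,
          Finsupp.coe_smul, Pi.add_apply, Pi.smul_apply, smul_eq_mul, pm1,
          Finsupp.equivFunOnFinite_symm_apply_apply] at h1
        have := hp.out.two_le
        right
        omega
      rcases h2 with h2 | h2
      · rw [h2, Nat.cast_zero, mul_zero]
      · rw [h2]
        push_cast
        rw [CharP.cast_eq_zero κ p]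
        ring
    · rfl
  | add P Q hP hQ => rw [map_add, coeff_add, hP, hQ, add_zero]

theorem noex_of_det {κ : Type*} [Field κ] {m : ℕ} (p : ℕ) [hp : Fact p.Prime] [CharP κ p]
    (w : Fin m → ℕ) (d : ℕ) (F : MvPolynomial (Fin m) κ) (h : (hasseWitt p w d F).det ≠ 0)
    (g : MvPolynomial (Fin m) κ) (H : Fin m → MvPolynomial (Fin m) κ)
    (hg : ∀ u ∈ g.support, u ∈ expo w d) (hex : g * F ^ (p - 1) = ∑ i, pderiv i (H i)) :
    g = 0 := by
  classical
  have h1 : Matrix.vecMul (fun u : expo w d => coeff u.1 g) (hasseWitt p w d F) = 0 := by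
    ext v
    have h2 : coeff (p • v.1 + pm1 m p) (g * F ^ (p - 1)) = 0 := by
      rw [hex, coeff_sum]
      exact Finset.sum_eq_zero fun i _ => coeff_pderiv_pm1 p v.1 i (H i)
    have h3 : g = ∑ u ∈ expo w d, monomial u (coeff u g) := by
      ext e
      rw [coeff_sum]
      by_cases he : e ∈ expo w d
      · rw [Finset.sum_eq_single e]
        · rw [coeff_monomial, if_pos rfl]
        · intro u _ hu
          rw [coeff_monomial, if_neg hu]
        · intro h
          exact absurd he h
      · have h4 : coeff e g = 0 := by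
          by_contra hne
          exact he (hg e (mem_support_iff.2 hne))
        rw [h4]
        symm
        apply Finset.sum_eq_zero
        intro u hu
        rw [coeff_monomial, if_neg]
        rintro rfl
        exact he hu
    rw [Matrix.vecMul, dotProduct, Pi.zero_apply, ← h2]
    conv_rhs => rw [h3]
    rw [Finset.sum_mul, coeff_sum, ← Finset.sum_coe_sort (expo w d)]
    apply Finset.sum_congr rfl
    intro u _
    have h5 : (monomial u.1 (coeff u.1 g) : MvPolynomial (Fin m) κ) =
        C (coeff u.1 g) * monomial u.1 1 := by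
      rw [C_mul_monomial, mul_one]
    rw [h5, mul_assoc, coeff_C_mul, hasseWitt]
  have h2 := Matrix.eq_zero_of_vecMul_eq_zero h h1
  ext e
  rw [coeff_zero]
  by_cases he : e ∈ expo w d
  · exact congrFun h2 ⟨e, he⟩
  · by_contra hne
    exact he (hg e (mem_support_iff.2 hne))

theorem isJacobsonRing_int : IsJacobsonRing ℤ := by
  rw [isJacobsonRing_iff_prime_eq]
  intro P hP
  by_cases h : P = ⊥
  · subst h
    rw [eq_bot_iff]
    intro x hx
    rw [Ideal.mem_bot]
    by_contra hx0
    obtain ⟨p, hpx, hp⟩ := Nat.exists_infinite_primes (x.natAbs + 1)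
    have hmax : (Ideal.span {(p : ℤ)}).IsMaximal := by
      apply PrincipalIdealRing.isMaximal_of_irreducible
      exact (Nat.prime_iff_prime_int.1 hp).irreducible
    rw [Ideal.jacobson, Ideal.mem_sInf] at hx
    have h1 := hx ⟨bot_le, hmax⟩
    rw [Ideal.mem_span_singleton] at h1
    have h2 := Nat.le_of_dvd (Int.natAbs_pos.2 hx0) (Int.natCast_dvd.1 h1)
    omega
  · have hmax : P.IsMaximal := hP.isMaximal h
    exact Ideal.jacobson_eq_self_of_isMaximal

end MPadcGM
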