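import Mathlib
import Pool.Agent.Lib.MP_adc574_ag_GM.Main2
import Pool.Agent.Lib.MP_adc574_ag_GM.Ord

/-!
# Closed points with ordinary reduction for all large primes
-/

set_option autoImplicit false

namespace MPadcGM

open MvPolynomial

universe u v

/-- The weighted hypersurface `f = 0` of degree `d` is ordinary in the following sense: its
Hasse-Witt matrix is invertible (Frobenius is bijective on `H ^ (m - 2) (X, O)`) and no nonzero
regular form of top degree, i.e. residue of `g Ω / f`, is exact: `g f ^ (p - 1)` is not a sum of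
partial derivatives unless `g = 0`. -/
structure IsOrdinary (p : ℕ) {m : ℕ} (w : Fin m → ℕ) (d : ℕ) {R : Type*} [CommRing R]
    (f : MvPolynomial (Fin m) R) : Prop where
  det_ne_zero : (hasseWitt p w d f).det ≠ 0
  exact_eq_zero : ∀ (g : MvPolynomial (Fin m) R) (h : Fin m → MvPolynomial (Fin m) R),
    (∀ u ∈ g.support, ∑ i, w i * (u i + 1) = d) → g * f ^ (p - 1) = ∑ i, pderiv i (h i) → g = 0

/-- The partial derivatives of `f` have no common zero except the origin (over an algebraic
closure): every variable is in the radical of the ideal which they generate. -/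
def IsQuasiSmooth {m : ℕ} {R : Type*} [CommRing R] (f : MvPolynomial (Fin m) R) : Prop :=
  ∀ i, (X i : MvPolynomial (Fin m) R) ∈ (Ideal.span (Set.range fun j => pderiv j f)).radical

/-- For all large primes `p` congruent to `1` modulo `N`, every nonempty open subset of `Spec A` (it
contains the complement of the zeros of some `b ≠ 0`; how large `p` must be depends on `b`) has a
closed point of residue characteristic `p` with quasi-smooth and ordinary reduction. -/
def OrdinaryReduction {A : Type*} [CommRing A] {m : ℕ} (w : Fin m → ℕ) (d : ℕ)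
    (f : MvPolynomial (Fin m) A) (N : ℕ) : Prop :=
  ∀ b : A, b ≠ 0 → ∃ p₀ : ℕ, ∀ p : ℕ, p.Prime → p₀ < p → p ≡ 1 [MOD N] →
    ∃ s : PrimeSpectrum A, s.asIdeal.IsMaximal ∧ b ∉ s.asIdeal ∧ CharP (A ⧸ s.asIdeal) p ∧
      IsQuasiSmooth (f.map (Ideal.Quotient.mk s.asIdeal)) ∧
      IsOrdinary p w d (f.map (Ideal.Quotient.mk s.asIdeal))

theorem ordinaryReduction_of_periods {k : Type u} [Field k] [CharZero k] (A : Subalgebra ℤ k) (hA : A.FG) {m : ℕ}
    (w : Fin m → ℕ) (hw : ∀ i, 0 < w i) (d : ℕ) (hd : 0 < d) (f : MvPolynomial (Fin m) A)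
    (hf : f.IsWeightedHomogeneous w d) (hs : IsQuasiSmooth (f.map (algebraMap A k)))
    {G : Type v} [AddCommGroup G] (N : ℕ) (hN : 0 < N) (hNG : ∀ g : G, N • g = 0)
    (s : Fin m → G) (t : G) (hst : f.IsWeightedHomogeneous s t)
    (hper : PeriodCondition w d f s t) : OrdinaryReduction w d f N := by
  classical
  intro b hb
  have hft : Algebra.FiniteType ℤ A := A.fg_iff_finiteType.1 hA
  have := isJacobsonRing_int
  have hjac : IsJacobsonRing A := isJacobsonRing_of_finiteType (A := ℤ)
  obtain ⟨a, M, ha, hJ⟩ := exists_jac.{u, u, u} (A := A) (k := k)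
    (FaithfulSMul.algebraMap_injective A k) w hw f hs
  obtain ⟨p₀, hp₀⟩ := main_all A hA w hw d hd f hf hs N hN hNG s t hst
    hper (b * a) (mul_ne_zero hb ha)
  refine ⟨max p₀ d, fun p hp hpp hpN => ?_⟩
  have hdp : d < p := lt_of_le_of_lt (le_max_right _ _) hpp
  obtain ⟨κ, _, _, φ, hφb, hφ⟩ := hp₀ p hp (lt_of_le_of_lt (le_max_left _ _) hpp) hpN
  have hpf : Fact p.Prime := ⟨hp⟩
  -- a maximal ideal above the kernel
  have hker : (RingHom.ker φ).IsPrime := RingHom.ker_isPrime φ
  have hcd : b * a * (hasseWitt p w d f).det ∉ RingHom.ker φ := by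
    rw [RingHom.mem_ker, map_mul]
    exact mul_ne_zero hφb hφ
  have hjac2 : (RingHom.ker φ).jacobson = RingHom.ker φ := hjac.out hker.isRadical
  rw [← hjac2, Ideal.jacobson, Ideal.mem_sInf] at hcd
  push Not at hcd
  obtain ⟨Q, ⟨hkQ, hQ⟩, hQcd⟩ := hcd
  let : Field (A ⧸ Q) := Ideal.Quotient.field Q
  have hcharQ : CharP (A ⧸ Q) p := by
    apply charP_of_cast_eq_zero hp
    rw [← map_natCast (Ideal.Quotient.mk Q), Ideal.Quotient.eq_zero_iff_mem]
    apply hkQ
    rw [RingHom.mem_ker, map_natCast]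
    exact CharP.cast_eq_zero κ p
  have hdet : (hasseWitt p w d (f.map (Ideal.Quotient.mk Q))).det ≠ 0 := by
    rw [← hasseWitt_map, ← RingHom.map_det]
    intro h
    rw [Ideal.Quotient.eq_zero_iff_mem] at h
    exact hQcd (Q.mul_mem_left _ h)
  have haQ : Ideal.Quotient.mk Q a ≠ 0 := by
    intro h
    rw [Ideal.Quotient.eq_zero_iff_mem] at h
    exact hQcd (Q.mul_mem_right _ (Q.mul_mem_left _ h))
  refine ⟨⟨Q, hQ.isPrime⟩, hQ, ?_, hcharQ, ?_, ?_, ?_⟩
  · intro h
    exact hQcd (Q.mul_mem_right _ (Q.mul_mem_right _ h))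
  · intro i
    have h1 := hJ (Ideal.Quotient.mk Q) haQ (Finsupp.single i M) (by
      rw [Finset.sum_eq_single i]
      · rw [Finsupp.single_eq_same]
        exact Nat.le_mul_of_pos_left M (hw i)
      · intro j _ hj
        rw [Finsupp.single_eq_of_ne hj, mul_zero]
      · intro h
        exact absurd (Finset.mem_univ i) h)
    refine ⟨M, ?_⟩
    rw [X_pow_eq_monomial]
    exact h1
  · exact hdet
  · intro g h hg hex
    exact noex_of_det p w d _ hdet g h (fun u hu => (mem_expo hw).2 (hg u hu)) hex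

end MPadcGM
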