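import Mathlib

/-!
# JOB ULT: ultraproducts of fields with derivations

`I U κ` is the ideal of the families `x` in the product with `x i = 0` for `U`-almost all `i`.
`isMaximal`: `I ≠ ⊤` since `1 i ≠ 0`; if `x ∉ I` then `{i | x i ≠ 0} ∈ U` (ultrafilter,
`Ultrafilter.compl_mem_iff_notMem`/`Filter.not_eventually`, `Ultrafilter.eventually_not`), and
`y i = (x i)⁻¹` satisfies `x * y - 1 ∈ I` (`Ideal.isMaximal_iff` or
`Ideal.Quotient.maximal_of_isField`/`Ideal.isMaximal_def`).
`ultD`: the derivation `x ↦ (δ i (x i))` of the product (over `ℤ`) maps `I` to `I` (`δ i 0 = 0`), so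
it descends to the quotient: define the additive map with `QuotientAddGroup.map` /
`Submodule.mapQ`/`Ideal.Quotient.lift`-style, Leibniz on representatives
(`Ideal.Quotient.mk_surjective`). `Derivation.mk'` needs a `ℤ`-linear map and the Leibniz rule.
-/

set_option autoImplicit false

namespace MPadcGM

universe u

section

variable {ι : Type} (U : Ultrafilter ι) (κ : ι → Type u) [∀ i, Field (κ i)]

/-- The ideal of the families which vanish almost everywhere. -/
def ultI : Ideal (∀ i, κ i) where
  carrier := {x | ∀ᶠ i in (U : Filter ι), x i = 0}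
  add_mem' := by
    intro x y hx hy
    filter_upwards [hx, hy] with i h1 h2
    simp [h1, h2]
  zero_mem' := by simp
  smul_mem' := by
    intro c x hx
    filter_upwards [hx] with i h1
    simp [h1]

instance ultI_isMaximal : (ultI U κ).IsMaximal := by
  rw [Ideal.isMaximal_iff]
  constructor
  · intro h
    have h1 : ∀ᶠ i in (U : Filter ι), (1 : ∀ i, κ i) i = 0 := h
    obtain ⟨i, hi⟩ := h1.exists
    exact one_ne_zero hi
  · intro J x hIJ hx hxJ
    have h1 : ∀ᶠ i in (U : Filter ι), ¬ x i = 0 := Ultrafilter.eventually_not.mpr hx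
    have h2 : (1 : ∀ i, κ i) - x * (fun i => (x i)⁻¹) ∈ ultI U κ := by
      change ∀ᶠ i in (U : Filter ι), ((1 : ∀ i, κ i) - x * (fun i => (x i)⁻¹)) i = 0
      filter_upwards [h1] with i hi
      simp only [Pi.sub_apply, Pi.one_apply, Pi.mul_apply]
      rw [mul_inv_cancel₀ hi, sub_self]
    have h3 : x * (fun i => (x i)⁻¹) ∈ J := J.mul_mem_right _ hxJ
    have h4 := J.add_mem (hIJ h2) h3
    rwa [sub_add_cancel] at h4

/-- The ultraproduct. -/
abbrev Ult : Type u := (∀ i, κ i) ⧸ ultI U κ

noncomputable instance ultField : Field (Ult U κ) := Ideal.Quotient.field _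

/-- The class of a family. -/
def ultMk : (∀ i, κ i) →+* Ult U κ := Ideal.Quotient.mk _

theorem ultMk_surjective : Function.Surjective (ultMk U κ) := Ideal.Quotient.mk_surjective

theorem ultMk_eq_zero (x : ∀ i, κ i) : ultMk U κ x = 0 ↔ ∀ᶠ i in (U : Filter ι), x i = 0 :=
  Ideal.Quotient.eq_zero_iff_mem

theorem ultMk_eq {x y : ∀ i, κ i} : ultMk U κ x = ultMk U κ y ↔
    ∀ᶠ i in (U : Filter ι), x i = y i := by
  rw [← sub_eq_zero, ← map_sub, ultMk_eq_zero]
  simp only [Pi.sub_apply, sub_eq_zero]

/-- The derivation of the ultraproduct. -/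
theorem exists_ultD (δ : ∀ i, Derivation ℤ (κ i) (κ i)) :
    ∃ Δ : Derivation ℤ (Ult U κ) (Ult U κ), ∀ x : ∀ i, κ i,
      Δ (ultMk U κ x) = ultMk U κ fun i => δ i (x i) := by
  let s : Ult U κ → ∀ i, κ i := Function.surjInv (ultMk_surjective U κ)
  have hs : ∀ z, ultMk U κ (s z) = z := Function.surjInv_eq _
  let f : Ult U κ → Ult U κ := fun z => ultMk U κ fun i => δ i (s z i)
  have hf : ∀ x : ∀ i, κ i, f (ultMk U κ x) = ultMk U κ fun i => δ i (x i) := by
    intro x
    have h := (ultMk_eq U κ).1 (hs (ultMk U κ x))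
    apply (ultMk_eq U κ).2
    filter_upwards [h] with i hi
    rw [hi]
  let g : Ult U κ →+ Ult U κ :=
    { toFun := f
      map_zero' := by
        rw [← map_zero (ultMk U κ), hf]
        apply (ultMk_eq U κ).2
        filter_upwards with i
        rw [Pi.zero_apply, map_zero]
      map_add' := by
        intro a b
        obtain ⟨x, rfl⟩ := ultMk_surjective U κ a
        obtain ⟨y, rfl⟩ := ultMk_surjective U κ b
        rw [← map_add, hf, hf, hf, ← map_add]
        apply (ultMk_eq U κ).2
        filter_upwards with i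
        rw [Pi.add_apply, Pi.add_apply, map_add] }
  have hg : ∀ x : ∀ i, κ i, g (ultMk U κ x) = ultMk U κ fun i => δ i (x i) := hf
  refine ⟨Derivation.mk' g.toIntLinearMap ?_, hg⟩
  intro a b
  obtain ⟨x, rfl⟩ := ultMk_surjective U κ a
  obtain ⟨y, rfl⟩ := ultMk_surjective U κ b
  change g (ultMk U κ x * ultMk U κ y) =
    ultMk U κ x * g (ultMk U κ y) + ultMk U κ y * g (ultMk U κ x)
  rw [← map_mul, hg, hg, hg, ← map_mul, ← map_mul, ← map_add]
  apply (ultMk_eq U κ).2
  filter_upwards with i
  rw [Pi.mul_apply, Derivation.leibniz, Pi.add_apply, Pi.mul_apply, Pi.mul_apply, smul_eq_mul,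
    smul_eq_mul]

end

end MPadcGM
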