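import Pool.Agent.Lib.MP_adc574_ag_GM.Cart

/-!
# JOB CARTB: `cart_deriv`

For a derivation `δ` of `κ` let `dc δ P` be the polynomial with the coefficients `δ (coeff e P)`
(define it as a `Derivation ℤ` of `MvPolynomial (Fin m) κ`, or prove
`dc δ (P * Q) = dc δ P * Q + P * dc δ Q` from `coeff_mul`, and then the formula for powers
`dc δ (F ^ j) = j F ^ (j - 1) dc δ F` by induction; for a `Derivation` this is `Derivation.leibniz_pow`).
With `p - 1 - k = j + 1`: `δ (coeff g (x ^ e F ^ (j + 1))) = coeff g (x ^ e (j + 1) F ^ j dc δ F)`, and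
`(j + 1 : κ) = -(k + 1)` because `j + 1 = p - (k + 1)`. Also `dc δ (f.map φ) = (coeffD D f).map φ` by
`hδ`.
-/

set_option autoImplicit false

namespace MPadcGM

open MvPolynomial

section

variable {κ : Type*} [Field κ] {m : ℕ}

/-- the derivation of the coefficients -/
private noncomputable def cb_dc (δ : Derivation ℤ κ κ) (P : MvPolynomial (Fin m) κ) :
    MvPolynomial (Fin m) κ := ∑ e ∈ P.support, monomial e (δ (coeff e P))

private theorem cb_coeff (δ : Derivation ℤ κ κ) (P : MvPolynomial (Fin m) κ) (e : Fin m →₀ ℕ) :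
    coeff e (cb_dc δ P) = δ (coeff e P) := by
  classical
  unfold cb_dc
  rw [coeff_sum]
  simp only [coeff_monomial]
  rw [Finset.sum_ite_eq']
  split_ifs with h
  · rfl
  · rw [notMem_support_iff.1 h, map_zero]

private theorem cb_mul (δ : Derivation ℤ κ κ) (P Q : MvPolynomial (Fin m) κ) :
    cb_dc δ (P * Q) = cb_dc δ P * Q + P * cb_dc δ Q := by
  classical
  ext e
  rw [cb_coeff, coeff_add, coeff_mul, coeff_mul, coeff_mul, map_sum, ← Finset.sum_add_distrib]
  refine Finset.sum_congr rfl fun x _ => ?_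
  rw [cb_coeff, cb_coeff, Derivation.leibniz]
  simp only [smul_eq_mul]
  ring

private theorem cb_pow (δ : Derivation ℤ κ κ) (F : MvPolynomial (Fin m) κ) (j : ℕ) :
    cb_dc δ (F ^ (j + 1)) = ((j : MvPolynomial (Fin m) κ) + 1) * (F ^ j * cb_dc δ F) := by
  induction j with
  | zero => simp
  | succ j ih =>
    rw [pow_succ, cb_mul, ih]
    push_cast
    ring

private theorem cb_monomial (δ : Derivation ℤ κ κ) (e : Fin m →₀ ℕ) :
    cb_dc δ (monomial e (1 : κ)) = 0 := by
  classical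
  ext u
  rw [cb_coeff, coeff_monomial, coeff_zero]
  split_ifs
  · exact Derivation.map_one_eq_zero δ
  · exact map_zero δ

private theorem cb_map {A : Type*} [CommRing A] (f : MvPolynomial (Fin m) A) (φ : A →+* κ)
    (D : Derivation ℤ A A) (δ : Derivation ℤ κ κ) (hδ : ∀ a, δ (φ a) = φ (D a)) :
    cb_dc δ (f.map φ) = (coeffD D f).map φ := by
  classical
  ext u
  rw [cb_coeff, coeff_map, coeff_map, hδ]
  congr 1
  unfold coeffD
  rw [coeff_sum]
  simp only [coeff_monomial]
  rw [Finset.sum_ite_eq']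
  split_ifs with h
  · rfl
  · rw [notMem_support_iff.1 h, map_zero]

theorem cart_deriv {A : Type*} [CommRing A] (p : ℕ) [hp : Fact p.Prime] [CharP κ p]
    (f : MvPolynomial (Fin m) A) (φ : A →+* κ) (D : Derivation ℤ A A) (δ : Derivation ℤ κ κ)
    (hδ : ∀ a, δ (φ a) = φ (D a)) (v : Fin m →₀ ℕ) (k : ℕ) (hk : k + 1 ≤ p - 1)
    (e : Fin m →₀ ℕ) :
    δ (cart p (f.map φ) v k (monomial e 1)) =
      -((k : κ) + 1) * cart p (f.map φ) v (k + 1) (monomial e 1 * (coeffD D f).map φ) := by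
  rw [cart_apply, cart_apply, ← cb_map f φ D δ hδ]
  obtain ⟨j, hj⟩ : ∃ j, p - 1 - (k + 1) = j := ⟨_, rfl⟩
  have hj1 : p - 1 - k = j + 1 := by omega
  have hp1 := hp.out.one_lt
  have hj2 : j + 1 + (k + 1) = p := by omega
  rw [hj1, hj, ← cb_coeff, cb_mul, cb_monomial, zero_mul, zero_add, cb_pow]
  have h1 : ((j : κ) + 1) = -((k : κ) + 1) := by
    have h2 : ((j + 1 + (k + 1) : ℕ) : κ) = 0 := by
      rw [hj2]
      exact CharP.cast_eq_zero κ p
    push_cast at h2
    linear_combination h2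
  have h3 : monomial e (1 : κ) * (((j : MvPolynomial (Fin m) κ) + 1) *
      ((f.map φ) ^ j * cb_dc δ (f.map φ))) =
      C ((j : κ) + 1) * (monomial e (1 : κ) * cb_dc δ (f.map φ) * (f.map φ) ^ j) := by
    have hC : (C ((j : κ) + 1) : MvPolynomial (Fin m) κ) = (j : MvPolynomial (Fin m) κ) + 1 := by
      rw [C_add, C_1]
      congr 1
    rw [hC]
    ring
  rw [h3, coeff_C_mul, h1]

end

end MPadcGM
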