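import Pool.Agent.Lib.MP_adc574_ag_GM.CartA
import Pool.Agent.Lib.MP_adc574_ag_GM.CartB
import Pool.Agent.Lib.MP_adc574_ag_GM.CartC
import Pool.Agent.Lib.MP_adc574_ag_GM.Ultra

/-!
# JOB UPER: the ultraproduct of the Cartier functionals is a formal period

`c v k` is the linear functional on `L[x]` whose value at `x ^ e` is the class of the family
`i ↦ cart (p i) (f.map (φ i)) v k (x ^ e)`.

* `uper_poly` (key lemma): for a polynomial `P` over `A`, the value of `c v k` at the image of `P` in
  `L[x]` is the class of the family `i ↦ cart (p i) (f.map (φ i)) v k (P.map (φ i))`. By linearity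
  from monomials (`MvPolynomial.induction_on'` or `P = ∑ e ∈ support, monomial e (coeff e P)`,
  `monomial e a = a • monomial e 1`, `map_monomial`).
* `uper_isPeriod`: `mul` and `exact` are linear in `P`, `Q`, so it is enough to prove them for
  `P = monomial e 1`, `Q = monomial e 1` (`MvPolynomial.induction_on'`, or: two linear maps agree
  if they agree on monomials, `MvPolynomial.lhom_ext'`). Then the polynomial to which `c v (k + 1)`
  is applied is the image of a polynomial over `A` (`monomial e 1 * f`,
  `f * pderiv i (monomial e 1) - (k + 1) • (monomial e 1 * pderiv i f)`,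
  `monomial e 1 * coeffD D f`; `map_mul`, `pderiv_map`), and `uper_poly`, `cart_mul`, `cart_exact`,
  `cart_deriv` apply for all `i` with `k + 1 ≤ p i - 1`, that is `U`-almost all `i` (`hlarge`).
-/

set_option autoImplicit false

namespace MPadcGM

open MvPolynomial

universe u

section

variable {ι : Type} (U : Ultrafilter ι) (κ : ι → Type u) [∀ i, Field (κ i)]
  {A : Type u} [CommRing A] {m : ℕ} (f : MvPolynomial (Fin m) A) (p : ι → ℕ)
  (φ : ∀ i, A →+* κ i)

private theorem monomial_one_map {B : Type*} [CommRing B] (ψ : A →+* B) (e : Fin m →₀ ℕ) :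
    (monomial e (1 : A)).map ψ = monomial e (1 : B) := by
  rw [map_monomial, ψ.map_one]

private theorem period_map {B : Type*} [CommRing B] (ψ : A →+* B) (g : MvPolynomial (Fin m) A)
    (e : Fin m →₀ ℕ) (k : ℕ) (j : Fin m) :
    (g * pderiv j (monomial e (1 : A)) - C ((k : A) + 1) * (monomial e (1 : A) * pderiv j g)).map ψ =
      g.map ψ * pderiv j (monomial e (1 : B)) -
        ((k : B) + 1) • (monomial e (1 : B) * pderiv j (g.map ψ)) := by
  rw [map_sub, map_mul, map_mul, map_mul, map_C, ← pderiv_map, ← pderiv_map, monomial_one_map,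
    ψ.map_add, map_natCast, ψ.map_one, ← MvPolynomial.smul_eq_C_mul]

/-- The homomorphism from `A` to the ultraproduct. -/
def uphi : A →+* Ult U κ := (ultMk U κ).comp (RingHom.pi φ)

theorem uphi_apply (a : A) : uphi U κ φ a = ultMk U κ fun i => φ i a := rfl

/-- The ultraproduct of the Cartier functionals. -/
noncomputable def uper (v : Fin m →₀ ℕ) (k : ℕ) : MvPolynomial (Fin m) (Ult U κ) →ₗ[Ult U κ] Ult U κ :=
  (MvPolynomial.basisMonomials (Fin m) (Ult U κ)).constr (Ult U κ)
    fun e => ultMk U κ fun i => cart (p i) (f.map (φ i)) v k (monomial e 1)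

theorem uper_monomial (v : Fin m →₀ ℕ) (k : ℕ) (e : Fin m →₀ ℕ) :
    uper U κ f p φ v k (monomial e 1) =
      ultMk U κ fun i => cart (p i) (f.map (φ i)) v k (monomial e 1) := by
  have h := (MvPolynomial.basisMonomials (Fin m) (Ult U κ)).constr_basis (Ult U κ)
    (fun e => ultMk U κ fun i => cart (p i) (f.map (φ i)) v k (monomial e 1)) e
  rw [coe_basisMonomials] at h
  exact h

theorem uper_poly (v : Fin m →₀ ℕ) (k : ℕ) (P : MvPolynomial (Fin m) A) :
    uper U κ f p φ v k (P.map (uphi U κ φ)) =
      ultMk U κ fun i => cart (p i) (f.map (φ i)) v k (P.map (φ i)) := by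
  induction P using MvPolynomial.induction_on' with
  | monomial e a =>
    have h1 : (monomial e a).map (uphi U κ φ) = (uphi U κ φ a) • monomial e (1 : Ult U κ) := by
      rw [map_monomial, smul_monomial, smul_eq_mul, mul_one]
    have h2 : ∀ i, cart (p i) (f.map (φ i)) v k ((monomial e a).map (φ i)) =
        φ i a * cart (p i) (f.map (φ i)) v k (monomial e 1) := by
      intro i
      have h3 : (monomial e a).map (φ i) = (φ i a) • monomial e (1 : κ i) := by
        rw [map_monomial, smul_monomial, smul_eq_mul, mul_one]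
      rw [h3, map_smul, smul_eq_mul]
    rw [h1, map_smul, smul_eq_mul, uper_monomial, uphi_apply, ← map_mul]
    refine congrArg (ultMk U κ) ?_
    funext i
    rw [Pi.mul_apply]
    exact (h2 i).symm
  | add P Q hP hQ =>
    rw [map_add, map_add, hP, hQ, ← map_add]
    refine congrArg (ultMk U κ) ?_
    funext i
    rw [Pi.add_apply, ← map_add, ← map_add]

theorem uper_isPeriod (hp : ∀ i, (p i).Prime) (hchar : ∀ i, CharP (κ i) (p i))
    (hlarge : ∀ n : ℕ, ∀ᶠ i in (U : Filter ι), n < p i)
    (δ : ∀ i, Derivation ℤ A A → Derivation ℤ (κ i) (κ i))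
    (hδ : ∀ i D a, δ i D (φ i a) = φ i (D a))
    (Δ : Derivation ℤ A A → Derivation ℤ (Ult U κ) (Ult U κ))
    (hΔ : ∀ (D : Derivation ℤ A A) (x : ∀ i, κ i),
      Δ D (ultMk U κ x) = ultMk U κ fun i => δ i D (x i)) (v : Fin m →₀ ℕ) :
    IsPeriod f (uphi U κ φ) Δ (uper U κ f p φ v) := by
  have hsm : ∀ (e : Fin m →₀ ℕ) (a : Ult U κ), monomial e a = a • monomial e (1 : Ult U κ) := by
    intro e a
    rw [smul_monomial, smul_eq_mul, mul_one]
  refine ⟨?_, ?_, ?_⟩
  · intro k P
    induction P using MvPolynomial.induction_on' with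
    | monomial e a =>
      rw [hsm e a, smul_mul_assoc, map_smul, map_smul]
      refine congrArg (fun z => a • z) ?_
      have h1 : monomial e (1 : Ult U κ) * f.map (uphi U κ φ) =
          (monomial e (1 : A) * f).map (uphi U κ φ) := by
        rw [map_mul, monomial_one_map]
      rw [h1, uper_poly, uper_monomial, ultMk_eq]
      filter_upwards [hlarge (k + 1)] with i hi
      rw [map_mul, monomial_one_map]
      exact cart_mul (p i) (f.map (φ i)) v k (by omega) (monomial e 1)
    | add P Q hP hQ =>
      rw [add_mul, map_add, map_add, hP, hQ]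
  · intro k j Q
    induction Q using MvPolynomial.induction_on' with
    | monomial e a =>
      have h1 : f.map (uphi U κ φ) * pderiv j (monomial e a) -
          ((k : Ult U κ) + 1) • (monomial e a * pderiv j (f.map (uphi U κ φ))) =
          a • ((f * pderiv j (monomial e (1 : A)) -
            C ((k : A) + 1) * (monomial e (1 : A) * pderiv j f)).map (uphi U κ φ)) := by
        rw [period_map, hsm e a, Derivation.map_smul, smul_mul_assoc, mul_smul_comm,
          smul_sub, smul_comm a ((k : Ult U κ) + 1)]
      rw [h1, map_smul, uper_poly]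
      refine smul_eq_zero_of_right a ?_
      rw [ultMk_eq_zero]
      filter_upwards [hlarge (k + 1)] with i hi
      have hpi : Fact (p i).Prime := ⟨hp i⟩
      have hci := hchar i
      have h2 := cart_exact (p i) (f.map (φ i)) v k (by omega) j (monomial e 1)
      rw [period_map]
      exact h2
    | add P Q hP hQ =>
      have h1 : f.map (uphi U κ φ) * pderiv j (P + Q) -
          ((k : Ult U κ) + 1) • ((P + Q) * pderiv j (f.map (uphi U κ φ))) =
          (f.map (uphi U κ φ) * pderiv j P -
            ((k : Ult U κ) + 1) • (P * pderiv j (f.map (uphi U κ φ)))) +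
          (f.map (uphi U κ φ) * pderiv j Q -
            ((k : Ult U κ) + 1) • (Q * pderiv j (f.map (uphi U κ φ)))) := by
        rw [map_add, mul_add, add_mul, smul_add]
        ring
      rw [h1, map_add, hP, hQ, add_zero]
  · intro D k e
    have h1 : monomial e (1 : Ult U κ) * (coeffD D f).map (uphi U κ φ) =
        (monomial e (1 : A) * coeffD D f).map (uphi U κ φ) := by
      rw [map_mul, monomial_one_map]
    have h2 : -((k : Ult U κ) + 1) = ultMk U κ (fun i => -((k : κ i) + 1)) := by
      have h3 : (fun i => -((k : κ i) + 1)) = -((k : ∀ i, κ i) + 1) := by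
        funext i
        rw [Pi.neg_apply, Pi.add_apply, Pi.natCast_apply, Pi.one_apply]
      rw [h3, map_neg, map_add, map_natCast, map_one]
    have h4 : -((k : Ult U κ) + 1) *
        uper U κ f p φ v (k + 1) (monomial e 1 * (coeffD D f).map (uphi U κ φ)) =
        ultMk U κ fun i => δ i D (cart (p i) (f.map (φ i)) v k (monomial e 1)) := by
      rw [h1, uper_poly, h2, ← map_mul, ultMk_eq]
      filter_upwards [hlarge (k + 1)] with i hi
      have hpi : Fact (p i).Prime := ⟨hp i⟩
      have hci := hchar i
      rw [Pi.mul_apply, map_mul, monomial_one_map]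
      exact (cart_deriv (p i) f (φ i) D (δ i D) (hδ i D) v k (by omega) e).symm
    rw [h4, uper_monomial]
    exact hΔ D _

end

end MPadcGM
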