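import Pool.Agent.Lib.MP_adc574_ag_GM.Defs

/-!
# The Cartier functionals

`cart p F v k P` is the coefficient of `x ^ (p v + (p - 1, …, p - 1))` in `P F ^ (p - 1 - k)`.
-/


set_option autoImplicit false

namespace MPadcGM

open MvPolynomial

section

variable {κ : Type*} [Field κ] {m : ℕ}

/-- The Cartier functional. -/
noncomputable def cart (p : ℕ) (F : MvPolynomial (Fin m) κ) (v : Fin m →₀ ℕ) (k : ℕ) :
    MvPolynomial (Fin m) κ →ₗ[κ] κ where
  toFun P := coeff (p • v + pm1 m p) (P * F ^ (p - 1 - k))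
  map_add' P Q := by rw [add_mul, coeff_add]
  map_smul' a P := by rw [smul_mul_assoc, coeff_smul, RingHom.id_apply]

theorem cart_apply (p : ℕ) (F : MvPolynomial (Fin m) κ) (v : Fin m →₀ ℕ) (k : ℕ)
    (P : MvPolynomial (Fin m) κ) :
    cart p F v k P = coeff (p • v + pm1 m p) (P * F ^ (p - 1 - k)) := rfl

end

end MPadcGM
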