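import Pool.Agent.Lib.MP_adc574_ag_GM.Cart

/-!
# JOB CARTA: `cart_mul`, `cart_exact`

* `cart_mul`: `P * F * F ^ (p - 1 - (k + 1)) = P * F ^ (p - 1 - k)` because `k + 1 ≤ p - 1`.
* `cart_exact`: put `j = p - 1 - (k + 1)`, so `p - 1 - k = j + 1`. Then
  `(F ∂ᵢQ - (k + 1) Q ∂ᵢF) F ^ j = ∂ᵢ (Q F ^ (j + 1))` because `j + 1 = p - (k + 1)`, that is
  `(j + 1 : κ) = -(k + 1)` in characteristic `p`. And the coefficient of `x ^ (p v + (p - 1))` in
  `∂ᵢ R` is `(p v i + (p - 1) + 1)` times a coefficient of `R` (`MvPolynomial.coeff_pderiv`, if it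
  exists in Mathlib; otherwise by linearity from `pderiv_monomial`), and `p v i + p = 0` in `κ`.
-/

set_option autoImplicit false

namespace MPadcGM

open MvPolynomial

section

variable {κ : Type*} [Field κ] {m : ℕ}

theorem cart_mul (p : ℕ) (F : MvPolynomial (Fin m) κ) (v : Fin m →₀ ℕ) (k : ℕ)
    (hk : k + 1 ≤ p - 1) (P : MvPolynomial (Fin m) κ) :
    cart p F v (k + 1) (P * F) = cart p F v k P := by
  rw [cart_apply, cart_apply]
  have h : p - 1 - k = (p - 1 - (k + 1)) + 1 := by omega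
  rw [h, pow_succ']
  ring_nf

theorem cart_exact (p : ℕ) [hp : Fact p.Prime] [CharP κ p] (F : MvPolynomial (Fin m) κ)
    (v : Fin m →₀ ℕ) (k : ℕ) (hk : k + 1 ≤ p - 1) (i : Fin m) (Q : MvPolynomial (Fin m) κ) :
    cart p F v (k + 1) (F * pderiv i Q - ((k : κ) + 1) • (Q * pderiv i F)) = 0 := by
  rw [cart_apply]
  have hp2 : 2 ≤ p := hp.out.two_le
  obtain ⟨j, hj⟩ : ∃ j, j = p - 1 - (k + 1) := ⟨_, rfl⟩
  rw [← hj]
  have hcast : ((j + 1 : ℕ) : κ) = -((k : κ) + 1) := by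
    have h1 : (((j + 1) + (k + 1) : ℕ) : κ) = 0 := by
      have h2 : (j + 1) + (k + 1) = p := by omega
      rw [h2]
      exact CharP.cast_eq_zero κ p
    push_cast at h1 ⊢
    linear_combination h1
  have key : (F * pderiv i Q - ((k : κ) + 1) • (Q * pderiv i F)) * F ^ j =
      pderiv i (Q * F ^ (j + 1)) := by
    rw [Derivation.leibniz, Derivation.leibniz_pow]
    simp only [smul_eq_mul, Nat.add_sub_cancel]
    rw [← Nat.cast_smul_eq_nsmul κ, hcast, smul_eq_C_mul, smul_eq_C_mul, map_neg]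
    ring
  rw [key, coeff_pderiv]
  have h3 : ((p • v + pm1 m p) i : ℕ) + 1 = p * (v i + 1) := by
    have h4 : (p • v + pm1 m p) i = p * v i + (p - 1) := by
      simp [pm1]
    rw [h4, mul_add, mul_one]
    omega
  have h5 : (((p • v + pm1 m p) i : ℕ) : κ) + 1 = 0 := by
    have h6 : ((((p • v + pm1 m p) i : ℕ) + 1 : ℕ) : κ) = 0 := by
      rw [h3]
      push_cast
      rw [CharP.cast_eq_zero κ p, zero_mul]
    exact_mod_cast h6
  rw [h5, mul_zero]

end

end MPadcGM
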