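import Pool.Agent.Lib.MP_adc574_ag_GM.JUni

/-!
# Homogenisation, and periods of `G(x₀, x₁) + Y(y)`
-/

set_option autoImplicit false

namespace MPadcGM

open MvPolynomial

variable {L : Type*} [Field L]

/-- The homogenisation of degree `N` of a polynomial in one variable. -/
noncomputable def hom2 (r : ℕ) (q : Polynomial L) (N : ℕ) : MvPolynomial (Fin (r + 2)) L :=
  ∑ i ∈ Finset.range (N + 1), C (q.coeff i) * (X 0 ^ i * X 1 ^ (N - i))

/-- Homogenisation as a linear map. -/
noncomputable def hom2L (L : Type*) [Field L] (r N : ℕ) :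
    Polynomial L →ₗ[L] MvPolynomial (Fin (r + 2)) L where
  toFun q := hom2 r q N
  map_add' p q := by
    unfold hom2
    rw [← Finset.sum_add_distrib]
    apply Finset.sum_congr rfl
    intro i _
    rw [Polynomial.coeff_add, C_add, add_mul]
  map_smul' c q := by
    unfold hom2
    rw [Finset.smul_sum]
    apply Finset.sum_congr rfl
    intro i _
    rw [Polynomial.coeff_smul, RingHom.id_apply, smul_eq_mul, C_mul, mul_assoc, smul_eq_C_mul]

theorem hom2L_apply (r N : ℕ) (q : Polynomial L) : hom2L L r N q = hom2 r q N := rfl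

theorem hom2_X_pow (r N i : ℕ) (hi : i ≤ N) :
    hom2 r (Polynomial.X ^ i : Polynomial L) N = X 0 ^ i * X 1 ^ (N - i) := by
  unfold hom2
  rw [Finset.sum_eq_single i]
  · rw [Polynomial.coeff_X_pow, if_pos rfl, C_1, one_mul]
  · intro j _ hj
    rw [Polynomial.coeff_X_pow, if_neg hj, C_0, zero_mul]
  · intro h
    exact absurd (Finset.mem_range.2 (by omega)) h

/-- Linear maps which agree on the monomials of degree `≤ M`. -/
theorem lin_ext {V : Type*} [AddCommGroup V] [Module L V] (T T' : Polynomial L →ₗ[L] V) (M : ℕ)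
    (h : ∀ i ≤ M, T (Polynomial.X ^ i) = T' (Polynomial.X ^ i)) (q : Polynomial L)
    (hq : q.natDegree ≤ M) : T q = T' q := by
  rw [q.as_sum_range' (M + 1) (by omega), map_sum, map_sum]
  apply Finset.sum_congr rfl
  intro i hi
  have h1 := h i (by
    have := Finset.mem_range.1 hi
    omega)
  rw [← Polynomial.C_mul_X_pow_eq_monomial, ← Polynomial.smul_eq_C_mul, map_smul, map_smul, h1]

theorem hom2_mul (r : ℕ) {a b : ℕ} (p q : Polynomial L) (hp : p.natDegree ≤ a)
    (hq : q.natDegree ≤ b) : hom2 r (p * q) (a + b) = hom2 r p a * hom2 r q b := by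
  have h1 : ∀ i ≤ a, hom2 r (Polynomial.X ^ i * q) (a + b) =
      hom2 r (Polynomial.X ^ i : Polynomial L) a * hom2 r q b := by
    intro i hi
    refine lin_ext ((hom2L L r (a + b)).comp (LinearMap.mulLeft L (Polynomial.X ^ i)))
      ((LinearMap.mulLeft L (hom2 r (Polynomial.X ^ i : Polynomial L) a)).comp (hom2L L r b)) b
      ?_ q hq
    intro j hj
    rw [LinearMap.comp_apply, LinearMap.comp_apply, LinearMap.mulLeft_apply,
      LinearMap.mulLeft_apply, hom2L_apply, hom2L_apply, ← pow_add, hom2_X_pow _ _ _ (by omega),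
      hom2_X_pow _ _ _ hi, hom2_X_pow _ _ _ hj]
    have h2 : a + b - (i + j) = (a - i) + (b - j) := by omega
    rw [h2, pow_add, pow_add]
    ring
  refine lin_ext ((hom2L L r (a + b)).comp (LinearMap.mulRight L q))
    ((LinearMap.mulRight L (hom2 r q b)).comp (hom2L L r a)) a ?_ p hp
  intro i hi
  exact h1 i hi

theorem pderiv0_hom2 (r N : ℕ) (q : Polynomial L) (hq : q.natDegree ≤ N + 1) :
    pderiv 0 (hom2 r q (N + 1)) = hom2 r (Polynomial.derivative q) N := by
  refine lin_ext ((pderiv 0).toLinearMap.comp (hom2L L r (N + 1)))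
    ((hom2L L r N).comp Polynomial.derivative) (N + 1) ?_ q hq
  intro i hi
  rw [LinearMap.comp_apply, LinearMap.comp_apply, hom2L_apply, hom2_X_pow _ _ _ hi]
  change pderiv 0 _ = hom2L L r N _
  rw [Derivation.leibniz, Derivation.leibniz_pow, Derivation.leibniz_pow, pderiv_X_self,
    pderiv_X_of_ne (by simp : (1 : Fin (r + 2)) ≠ 0), Polynomial.derivative_X_pow]
  rcases Nat.eq_zero_or_pos i with h0 | h0
  · subst h0
    simp
  · obtain ⟨j, rfl⟩ := Nat.exists_eq_succ_of_ne_zero h0.ne'
    rw [Nat.succ_eq_add_one, Nat.add_sub_cancel, ← Polynomial.smul_eq_C_mul, map_smul, hom2L_apply,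
      hom2_X_pow _ _ _ (by omega)]
    have h2 : N + 1 - (j + 1) = N - j := by omega
    rw [h2]
    simp only [smul_eq_mul, nsmul_eq_mul, mul_one, smul_zero, mul_zero, zero_add]
    rw [smul_eq_C_mul, map_natCast]
    ring

theorem pderiv1_hom2 (r N : ℕ) (q : Polynomial L) (hq : q.natDegree ≤ N + 1) :
    pderiv 1 (hom2 r q (N + 1)) =
      hom2 r (((N + 1 : ℕ) : Polynomial L) * q - Polynomial.X * Polynomial.derivative q) N := by
  refine lin_ext ((pderiv 1).toLinearMap.comp (hom2L L r (N + 1)))
    ((hom2L L r N).comp (LinearMap.mulLeft L (((N + 1 : ℕ) : Polynomial L)) -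
      (LinearMap.mulLeft L Polynomial.X).comp Polynomial.derivative)) (N + 1) ?_ q hq
  intro i hi
  rw [LinearMap.comp_apply, LinearMap.comp_apply, hom2L_apply, hom2_X_pow _ _ _ hi]
  change pderiv 1 _ = hom2L L r N _
  rw [LinearMap.sub_apply, LinearMap.comp_apply, LinearMap.mulLeft_apply, LinearMap.mulLeft_apply]
  change _ = hom2L L r N (((N + 1 : ℕ) : Polynomial L) * Polynomial.X ^ i -
    Polynomial.X * Polynomial.derivative (Polynomial.X ^ i))
  have h1 : ((N + 1 : ℕ) : Polynomial L) * Polynomial.X ^ i -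
      Polynomial.X * Polynomial.derivative (Polynomial.X ^ i) =
      ((N + 1 : ℕ) - (i : L)) • (Polynomial.X ^ i : Polynomial L) := by
    rw [Polynomial.derivative_X_pow, Polynomial.smul_eq_C_mul, Polynomial.C_sub]
    rcases Nat.eq_zero_or_pos i with h0 | h0
    · subst h0
      simp
    · obtain ⟨j, rfl⟩ := Nat.exists_eq_succ_of_ne_zero h0.ne'
      rw [Nat.succ_eq_add_one, Nat.add_sub_cancel, ← map_natCast (Polynomial.C : L →+* _)]
      ring
  rw [h1, map_smul, Derivation.leibniz, Derivation.leibniz_pow, Derivation.leibniz_pow,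
    pderiv_X_self, pderiv_X_of_ne (by simp : (0 : Fin (r + 2)) ≠ 1)]
  simp only [smul_eq_mul, nsmul_eq_mul, mul_one, smul_zero, mul_zero, add_zero]
  by_cases h0 : i = N + 1
  · subst h0
    simp
  · rw [hom2L_apply, hom2_X_pow _ _ _ (by omega), smul_eq_C_mul]
    have h2 : N + 1 - i - 1 = N - i := by omega
    rw [h2]
    have h3 : ((N + 1 - i : ℕ) : MvPolynomial (Fin (r + 2)) L) =
        C (((N + 1 : ℕ) : L) - (i : L)) := by
      rw [Nat.cast_sub hi, C_sub, map_natCast, map_natCast]
    rw [h3]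
    ring

theorem hom2_linear (r : ℕ) (b : L) :
    hom2 r (Polynomial.X - Polynomial.C b) 1 = X 0 - C b * X 1 := by
  unfold hom2
  rw [Finset.sum_range_succ, Finset.sum_range_one]
  simp [Polynomial.coeff_X, Polynomial.coeff_C]
  ring

theorem hom2_prod (r : ℕ) {ι : Type*} (s : Finset ι) (b : ι → L) :
    hom2 r (∏ i ∈ s, (Polynomial.X - Polynomial.C (b i))) s.card =
      ∏ i ∈ s, (X 0 - C (b i) * X 1) := by
  classical
  induction s using Finset.induction_on with
  | empty =>
    unfold hom2
    simp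
  | insert j s hj ih =>
    rw [Finset.prod_insert hj, Finset.prod_insert hj, Finset.card_insert_of_notMem hj,
      add_comm s.card 1, hom2_mul r _ _ (by rw [Polynomial.natDegree_X_sub_C]) (by
        rw [Polynomial.natDegree_prod_of_monic _ _ fun i _ => Polynomial.monic_X_sub_C _]
        simp), ih, hom2_linear]

end MPadcGM
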