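import Pool.Agent.Lib.MP_adc574_ag_GM.Defs
import Pool.Agent.Lib.MP_adc574_ag_GM.JHom

/-!
# The polynomials `∏ (x₀ - a_i x₁) + ∑ y_j ^ N_j`
-/

set_option autoImplicit false

namespace MPadcGM

open MvPolynomial

/-- The weighted homogeneous polynomial `∏ i, (x₀ - a_i x₁) + ∑ j, y_j ^ N_j`, where
`y_0, …, y_(r-1)` are the variables number `2, …, r + 1`. -/
noncomputable def joinPoly {A : Type*} [CommRing A] {n r : ℕ} (a : Fin n → A) (N : Fin r → ℕ) :
    MvPolynomial (Fin (r + 2)) A :=
  ∏ i, (X 0 - C (a i) * X 1) + ∑ j : Fin r, X j.succ.succ ^ N j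

theorem joinPoly_map {A B : Type*} [CommRing A] [CommRing B] {n r : ℕ} (φ : A →+* B)
    (a : Fin n → A) (N : Fin r → ℕ) :
    (joinPoly a N).map φ = joinPoly (fun i => φ (a i)) N := by
  unfold joinPoly
  simp only [map_add, map_prod, map_sum, map_sub, map_mul, map_pow, map_X, map_C]

section coeffD

variable {A : Type*} [CommRing A] {m : ℕ} (D : Derivation ℤ A A)

theorem coeff_coeffD (P : MvPolynomial (Fin m) A) (e : Fin m →₀ ℕ) :
    coeff e (coeffD D P) = D (coeff e P) := by
  classical
  unfold coeffD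
  rw [coeff_sum]
  simp only [coeff_monomial]
  rw [Finset.sum_ite_eq']
  split_ifs with h
  · rfl
  · rw [notMem_support_iff.1 h, map_zero]

theorem coeffD_mul (P Q : MvPolynomial (Fin m) A) :
    coeffD D (P * Q) = coeffD D P * Q + P * coeffD D Q := by
  classical
  ext e
  rw [coeff_coeffD, coeff_add, coeff_mul, coeff_mul, coeff_mul, map_sum, ← Finset.sum_add_distrib]
  refine Finset.sum_congr rfl fun x _ => ?_
  rw [coeff_coeffD, coeff_coeffD, Derivation.leibniz]
  simp only [smul_eq_mul]
  ring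

theorem coeffD_add (P Q : MvPolynomial (Fin m) A) :
    coeffD D (P + Q) = coeffD D P + coeffD D Q := by
  ext e
  rw [coeff_coeffD, coeff_add, coeff_add, coeff_coeffD, coeff_coeffD, map_add]

theorem coeffD_sub (P Q : MvPolynomial (Fin m) A) :
    coeffD D (P - Q) = coeffD D P - coeffD D Q := by
  ext e
  rw [coeff_coeffD, coeff_sub, coeff_sub, coeff_coeffD, coeff_coeffD, map_sub]

theorem coeffD_sum {ι : Type*} (s : Finset ι) (P : ι → MvPolynomial (Fin m) A) :
    coeffD D (∑ i ∈ s, P i) = ∑ i ∈ s, coeffD D (P i) := by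
  ext e
  rw [coeff_coeffD, coeff_sum, coeff_sum, map_sum]
  exact Finset.sum_congr rfl fun i _ => (coeff_coeffD D _ _).symm

theorem coeffD_C_mul (a : A) (P : MvPolynomial (Fin m) A) :
    coeffD D (C a * P) = C (D a) * P + C a * coeffD D P := by
  ext e
  rw [coeff_coeffD, coeff_C_mul, coeff_add, coeff_C_mul, coeff_C_mul, coeff_coeffD,
    Derivation.leibniz, smul_eq_mul, smul_eq_mul]
  ring

theorem coeffD_monomial (e : Fin m →₀ ℕ) : coeffD D (monomial e (1 : A)) = 0 := by
  classical
  ext u
  rw [coeff_coeffD, coeff_monomial, coeff_zero]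
  split_ifs
  · exact Derivation.map_one_eq_zero D
  · exact map_zero D

theorem coeffD_X_pow (i : Fin m) (k : ℕ) : coeffD D (X i ^ k : MvPolynomial (Fin m) A) = 0 := by
  rw [X_pow_eq_monomial]
  exact coeffD_monomial D _

theorem coeffD_X (i : Fin m) : coeffD D (X i : MvPolynomial (Fin m) A) = 0 := by
  have := coeffD_X_pow D i 1
  rwa [pow_one] at this

theorem coeffD_one : coeffD D (1 : MvPolynomial (Fin m) A) = 0 := by
  have := coeffD_monomial D (0 : Fin m →₀ ℕ)
  rwa [← C_apply, C_1] at this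

theorem coeffD_joinPoly {n r : ℕ} (a : Fin n → A) (N : Fin r → ℕ) (i₀ : Fin n)
    (hD : ∀ i, i ≠ i₀ → D (a i) = 0) :
    coeffD D (joinPoly a N) =
      -(C (D (a i₀)) * (X 1 * ∏ i ∈ Finset.univ.erase i₀, (X 0 - C (a i) * X 1))) := by
  classical
  unfold joinPoly
  have h1 : coeffD D (∑ j : Fin r, (X j.succ.succ : MvPolynomial (Fin (r + 2)) A) ^ N j) = 0 := by
    rw [coeffD_sum]
    exact Finset.sum_eq_zero fun j _ => coeffD_X_pow D _ _
  have h2 : ∀ s : Finset (Fin n), i₀ ∉ s →
      coeffD D (∏ i ∈ s, (X 0 - C (a i) * X 1 : MvPolynomial (Fin (r + 2)) A)) = 0 := by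
    intro s
    induction s using Finset.induction_on with
    | empty =>
      intro _
      rw [Finset.prod_empty]
      exact coeffD_one D
    | insert j s hj ih =>
      intro hi
      rw [Finset.mem_insert, not_or] at hi
      rw [Finset.prod_insert hj, coeffD_mul, ih hi.2, mul_zero, add_zero, coeffD_sub, coeffD_C_mul,
        coeffD_X, coeffD_X, hD j (fun h => hi.1 h.symm), C_0, zero_mul, mul_zero, add_zero,
        sub_zero, zero_mul]
  rw [coeffD_add, h1, add_zero, ← Finset.mul_prod_erase Finset.univ _ (Finset.mem_univ i₀),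
    coeffD_mul, h2 _ (Finset.notMem_erase _ _), mul_zero, add_zero, coeffD_sub, coeffD_C_mul,
    coeffD_X, coeffD_X, mul_zero, add_zero, zero_sub]
  ring

end coeffD

section field

variable {L : Type*} [Field L]

theorem joinPoly_eq {n r : ℕ} (b : Fin n → L) (N : Fin r → ℕ) (i₀ : Fin n) :
    joinPoly b N = hom2 r ((Polynomial.X - Polynomial.C (b i₀)) *
      ∏ i ∈ Finset.univ.erase i₀, (Polynomial.X - Polynomial.C (b i))) n +
      ∑ j : Fin r, X j.succ.succ ^ N j := by
  classical
  unfold joinPoly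
  rw [Finset.mul_prod_erase Finset.univ (fun i => Polynomial.X - Polynomial.C (b i))
    (Finset.mem_univ i₀)]
  have h1 := hom2_prod r (Finset.univ : Finset (Fin n)) b
  rw [Finset.card_univ, Fintype.card_fin] at h1
  rw [h1]

theorem pderiv_joinPoly {n r : ℕ} (b : Fin n → L) (N : Fin r → ℕ) (j : Fin r) :
    pderiv j.succ.succ (joinPoly b N) = (N j : L) • X j.succ.succ ^ (N j - 1) := by
  classical
  unfold joinPoly
  have hX : ∀ i : Fin (r + 2), i ≠ j.succ.succ → pderiv j.succ.succ (X i : MvPolynomial _ L) = 0 :=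
    fun i hi => pderiv_X_of_ne hi
  have h01 : (1 : Fin (r + 2)) ≠ j.succ.succ := by
    have h9 : (Fin.succ 0 : Fin (r + 2)) = 1 := rfl
    rw [← h9]
    intro h
    exact Fin.succ_ne_zero j (Fin.succ_injective _ h.symm)
  have h00 : (0 : Fin (r + 2)) ≠ j.succ.succ := fun h => Fin.succ_ne_zero _ h.symm
  have h1 : ∀ s : Finset (Fin n), pderiv j.succ.succ
      (∏ i ∈ s, (X 0 - C (b i) * X 1 : MvPolynomial (Fin (r + 2)) L)) = 0 := by
    intro s
    induction s using Finset.induction_on with
    | empty =>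
      rw [Finset.prod_empty]
      exact Derivation.map_one_eq_zero _
    | insert i s hi ih =>
      rw [Finset.prod_insert hi, Derivation.leibniz, ih, smul_zero, zero_add, map_sub,
        Derivation.leibniz, hX 0 h00, hX 1 h01, pderiv_C, smul_zero, smul_zero, add_zero, sub_zero,
        smul_zero]
  rw [map_add, h1, zero_add, map_sum, Finset.sum_eq_single j]
  · rw [Derivation.leibniz_pow, pderiv_X_self, smul_eq_mul, mul_one, Nat.cast_smul_eq_nsmul]
  · intro i _ hi
    rw [Derivation.leibniz_pow, hX _ (fun h => hi (Fin.succ_injective _ (Fin.succ_injective _ h))),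
      smul_zero, smul_zero]
  · intro h
    exact absurd (Finset.mem_univ j) h

theorem pderiv_sumY {r : ℕ} (N : Fin r → ℕ) (i : Fin (r + 2)) (hi : i = 0 ∨ i = 1) :
    pderiv i (∑ j : Fin r, (X j.succ.succ : MvPolynomial (Fin (r + 2)) L) ^ N j) = 0 := by
  rw [map_sum]
  apply Finset.sum_eq_zero
  intro j _
  have h1 : (j.succ.succ : Fin (r + 2)) ≠ i := by
    rcases hi with rfl | rfl
    · exact Fin.succ_ne_zero _
    · have h9 : (Fin.succ 0 : Fin (r + 2)) = 1 := rfl
      rw [← h9]
      intro h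
      exact Fin.succ_ne_zero j (Fin.succ_injective _ h)
  rw [Derivation.leibniz_pow, pderiv_X_of_ne h1, smul_zero, smul_zero]

end field

/-- Homogeneity for any grading. -/
theorem joinPoly_homogeneous {A : Type*} [CommRing A] {M : Type*} [AddCommMonoid M] {n r : ℕ}
    (a : Fin n → A) (N : Fin r → ℕ) (w : Fin (r + 2) → M) (wx t : M) (h0 : w 0 = wx)
    (h1 : w 1 = wx) (hn : n • wx = t) (hN : ∀ j : Fin r, N j • w j.succ.succ = t) :
    (joinPoly a N).IsWeightedHomogeneous w t := by
  classical
  unfold joinPoly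
  apply IsWeightedHomogeneous.add
  · have h2 : ∀ i, (X 0 - C (a i) * X 1 : MvPolynomial (Fin (r + 2)) A).IsWeightedHomogeneous w
        wx := by
      intro i
      rw [sub_eq_add_neg, ← neg_mul, ← C_neg]
      apply IsWeightedHomogeneous.add
      · rw [← h0]
        exact isWeightedHomogeneous_X A w 0
      · rw [← h1]
        have := (isWeightedHomogeneous_C w (-a i)).mul (isWeightedHomogeneous_X A w 1)
        rwa [zero_add] at this
    have h3 := IsWeightedHomogeneous.prod (Finset.univ : Finset (Fin n))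
      (fun i => (X 0 - C (a i) * X 1 : MvPolynomial (Fin (r + 2)) A)) (fun _ => wx)
      (fun i _ => h2 i)
    rw [Finset.sum_const, Finset.card_univ, Fintype.card_fin, hn] at h3
    exact h3
  · rw [← mem_weightedHomogeneousSubmodule]
    apply Submodule.sum_mem
    intro j _
    rw [mem_weightedHomogeneousSubmodule, ← hN j]
    exact (isWeightedHomogeneous_X A w _).pow _

end MPadcGM
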