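import Pool.Agent.Lib.MP_adc574_ag_GM.Fields

/-!
# A derivation of `A` which moves a transcendental element and kills a given subfield
-/

set_option autoImplicit false

universe u

namespace MPadcGM

open MvPolynomial

/-- Derivations extend to formally etale algebras. -/
theorem exists_extend_etale {S T : Type u} [CommRing S] [CommRing T] [Algebra S T]
    [Algebra.FormallyEtale S T] (d : Derivation ℤ S T) :
    ∃ d' : Derivation ℤ T T, ∀ s, d' (algebraMap S T s) = d s := by
  have hbc : IsBaseChange T (KaehlerDifferential.map ℤ ℤ S T) :=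
    KaehlerDifferential.isBaseChange_of_formallyEtale ℤ S T
  refine ⟨(hbc.lift d.liftKaehlerDifferential).compDer (KaehlerDifferential.D ℤ T), ?_⟩
  intro s
  have h1 : KaehlerDifferential.D ℤ T (algebraMap S T s) =
      KaehlerDifferential.map ℤ ℤ S T (KaehlerDifferential.D ℤ S s) := by
    rw [KaehlerDifferential.map_D]
  change hbc.lift d.liftKaehlerDifferential (KaehlerDifferential.D ℤ T (algebraMap S T s)) = d s
  rw [h1, hbc.lift_eq, Derivation.liftKaehlerDifferential_comp_D]

/-- The derivation of a field with respect to a transcendental element. -/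
theorem exists_derivation_field {k : Type u} [Field k] [CharZero k] (k₀ : Subfield k) (t : k)
    (ht : Transcendental k₀ t) :
    ∃ d : Derivation ℤ k k, d t = 1 ∧ ∀ x ∈ k₀, d x = 0 := by
  classical
  have hind : AlgebraicIndependent k₀ (fun x : ({t} : Set k) => (x : k)) := by
    have := (algebraicIndependent_unique_type_iff (ι := ({t} : Set k)) (R := k₀)
      (x := fun x : ({t} : Set k) => (x : k))).2 (by
        have : (default : ({t} : Set k)) = ⟨t, rfl⟩ := Subsingleton.elim _ _
        rw [this]
        exact ht)
    exact this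
  obtain ⟨X, hX, hXb⟩ := exists_isTranscendenceBasis_superset (R := k₀) hind
  let R := MvPolynomial X k₀
  let θ : R →ₐ[k₀] k := MvPolynomial.aeval ((↑) : X → k)
  have hθ : Function.Injective θ.toRingHom := hXb.1
  let _ : Algebra R k := θ.toRingHom.toAlgebra
  have hmap : (algebraMap R k) = θ.toRingHom := rfl
  have hfaithR : FaithfulSMul R k := (faithfulSMul_iff_algebraMap_injective R k).2 hθ
  have hfrac : IsFractionRing R (FractionRing R) := inferInstance
  let _ : Algebra (FractionRing R) k := FractionRing.liftAlgebra R k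
  have halg : Algebra.IsAlgebraic R k := by
    have h1 := hXb.isAlgebraic
    have hran : Algebra.adjoin k₀ (Set.range ((↑) : X → k)) = θ.range :=
      Algebra.adjoin_range_eq_range_aeval k₀ ((↑) : X → k)
    constructor
    intro a
    obtain ⟨P, hP, hPa⟩ := h1.isAlgebraic a
    let f : R →+* Algebra.adjoin k₀ (Set.range ((↑) : X → k)) :=
      RingHom.codRestrict θ.toRingHom (Algebra.adjoin k₀ (Set.range ((↑) : X → k))) (fun x => by
        rw [hran]
        exact ⟨x, rfl⟩)
    have hsur : Function.Surjective f := by
      intro y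
      have h2 : (y : k) ∈ θ.range := by
        rw [← hran]
        exact y.2
      obtain ⟨x, hx⟩ := h2
      exact ⟨x, Subtype.ext hx⟩
    obtain ⟨P', rfl⟩ := Polynomial.map_surjective f hsur P
    refine ⟨P', fun h => hP (by rw [h, Polynomial.map_zero]), ?_⟩
    rw [← hPa, Polynomial.aeval_def, Polynomial.aeval_def, Polynomial.eval₂_map]
    rfl
  have halg2 : Algebra.IsAlgebraic (FractionRing R) k := by
    have : IsFractionRing R (FractionRing R) := inferInstance
    exact (IsFractionRing.comap_isAlgebraic_iff (A := R) (K := FractionRing R) (C := k)).1 halg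
  have hchar : CharZero (FractionRing R) := inferInstance
  have het1 : Algebra.FormallyEtale (FractionRing R) k := Algebra.FormallyEtale.of_isSeparable _ _
  have het2 : Algebra.FormallyEtale R (FractionRing R) :=
    Algebra.FormallyEtale.of_isLocalization (nonZeroDivisors R)
  have het : Algebra.FormallyEtale R k := Algebra.FormallyEtale.comp R (FractionRing R) k
  have htX : t ∈ X := hX rfl
  let d0 : Derivation ℤ R R := Derivation.restrictScalars ℤ (pderiv (⟨t, htX⟩ : X))
  let d1 : Derivation ℤ R k := (Algebra.linearMap R k).compDer d0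
  obtain ⟨d, hd⟩ := exists_extend_etale d1
  have hd' : ∀ s : R, d (θ s) = θ (pderiv (⟨t, htX⟩ : X) s) := hd
  refine ⟨d, ?_, ?_⟩
  · have h1 := hd' (MvPolynomial.X ⟨t, htX⟩)
    rw [pderiv_X_self, map_one] at h1
    have h2 : θ (MvPolynomial.X ⟨t, htX⟩) = t := MvPolynomial.aeval_X _ _
    rw [h2] at h1
    exact h1
  · intro x hx
    have h1 := hd' (MvPolynomial.C ⟨x, hx⟩)
    rw [pderiv_C, map_zero] at h1
    have h2 : θ (MvPolynomial.C ⟨x, hx⟩) = x := MvPolynomial.aeval_C _ _
    rw [h2] at h1
    exact h1

/-- Clearing denominators of a derivation with values in the field of fractions. -/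
theorem exists_derivation_clear {A K : Type u} [CommRing A] [IsDomain A] [Field K] [Algebra A K]
    [IsFractionRing A K] [hft : Algebra.FiniteType ℤ A] (D1 : Derivation ℤ A K) :
    ∃ (b : A) (D : Derivation ℤ A A), b ≠ 0 ∧ ∀ a, algebraMap A K (D a) = b • D1 a := by
  classical
  obtain ⟨S, hS⟩ := hft.out
  obtain ⟨b, hb⟩ := IsLocalization.exist_integer_multiples_of_finset (nonZeroDivisors A)
    (S.image fun s => D1 s)
  have hint : ∀ a : A, ∃ c : A, algebraMap A K c = (b : A) • D1 a := by
    intro a
    have ha : a ∈ Algebra.adjoin ℤ (S : Set A) := by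
      rw [hS]
      exact Algebra.mem_top
    induction ha using Algebra.adjoin_induction with
    | mem x hx => exact hb (D1 x) (Finset.mem_image_of_mem _ hx)
    | algebraMap n =>
      refine ⟨0, ?_⟩
      rw [Derivation.map_algebraMap, smul_zero, map_zero]
    | add x y _ _ hx hy =>
      obtain ⟨c, hc⟩ := hx
      obtain ⟨c', hc'⟩ := hy
      exact ⟨c + c', by rw [map_add, map_add, smul_add, hc, hc']⟩
    | mul x y _ _ hx hy =>
      obtain ⟨c, hc⟩ := hx
      obtain ⟨c', hc'⟩ := hy
      refine ⟨x * c' + y * c, ?_⟩
      rw [Derivation.leibniz, map_add, map_mul, map_mul, hc, hc', smul_add, smul_comm (b : A) x,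
        smul_comm (b : A) y, ← Algebra.smul_def, ← Algebra.smul_def]
  choose g hg using hint
  have hinj := IsFractionRing.injective A K
  have hadd : ∀ x y, g (x + y) = g x + g y := by
    intro x y
    apply hinj
    rw [hg, map_add, map_add, smul_add, hg, hg]
  have hmul : ∀ x y, g (x * y) = x * g y + y * g x := by
    intro x y
    apply hinj
    rw [hg, Derivation.leibniz, map_add, map_mul, map_mul, hg, hg, smul_add,
      smul_comm (b : A) x, smul_comm (b : A) y, ← Algebra.smul_def, ← Algebra.smul_def]
  exact ⟨b, Derivation.mk' (AddMonoidHom.toIntLinearMap (AddMonoidHom.mk' g hadd)) hmul,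
    nonZeroDivisors.ne_zero b.2, hg⟩

/-- The derivation of `A` with values in its field of fractions. -/
theorem exists_derivation_frac {k A : Type u} [Field k] [CharZero k] [CommRing A] [IsDomain A]
    [Algebra A k] [FaithfulSMul A k] (k₀ : Subfield k) (t : A)
    (ht : Transcendental k₀ (algebraMap A k t)) :
    ∃ D1 : Derivation ℤ A (FractionRing A), D1 t = 1 ∧ ∀ a : A, algebraMap A k a ∈ k₀ → D1 a = 0 := by
  obtain ⟨d, hdt, hd0⟩ := exists_derivation_field k₀ _ ht
  let _ : Algebra (FractionRing A) k := FractionRing.liftAlgebra A k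
  obtain ⟨π, hπ⟩ := LinearMap.exists_leftInverse_of_injective
    (Algebra.linearMap (FractionRing A) k) (by
      rw [LinearMap.ker_eq_bot]
      exact FaithfulSMul.algebraMap_injective (FractionRing A) k)
  have hπ1 : π 1 = 1 := by
    have h1 := LinearMap.congr_fun hπ 1
    rw [LinearMap.comp_apply, Algebra.linearMap_apply, map_one, LinearMap.id_apply] at h1
    exact h1
  refine ⟨(π.restrictScalars A).compDer (Derivation.compAlgebraMap A d), ?_, ?_⟩
  · change π (d (algebraMap A k t)) = 1
    rw [hdt, hπ1]
  · intro a ha
    change π (d (algebraMap A k a)) = 0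
    rw [hd0 _ ha, map_zero]

/-- A finitely generated domain in `k` has a derivation which moves `t` and kills `A ∩ k₀`. -/
theorem exists_derivation {k A : Type u} [Field k] [CharZero k] [CommRing A] [IsDomain A]
    [Algebra A k] [FaithfulSMul A k] [Algebra.FiniteType ℤ A] (k₀ : Subfield k) (t : A)
    (ht : Transcendental k₀ (algebraMap A k t)) :
    ∃ D : Derivation ℤ A A, D t ≠ 0 ∧ ∀ a : A, algebraMap A k a ∈ k₀ → D a = 0 := by
  obtain ⟨D1, h1, h0⟩ := exists_derivation_frac k₀ t ht
  obtain ⟨b, D, hb, hD⟩ := exists_derivation_clear D1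
  have hinj := IsFractionRing.injective A (FractionRing A)
  refine ⟨D, ?_, ?_⟩
  · intro h
    have h2 := hD t
    rw [h, map_zero, h1, Algebra.smul_def, mul_one] at h2
    exact hb (hinj (by rw [← h2, map_zero]))
  · intro a ha
    apply hinj
    rw [hD, h0 _ ha, smul_zero, map_zero]

end MPadcGM
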