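import Pool.Agent.Lib.MP_adc574_ag_GM.JUni

/-!
# A period which vanishes on the form with the highest zero at the moving point vanishes
-/

set_option autoImplicit false

namespace MPadcGM

open Polynomial

theorem natDegree_euler_le {L : Type*} [Field L] (Q : L[X]) (m : ℕ) (hQ : Q.natDegree ≤ m + 1) :
    (((m + 1 : ℕ) : L[X]) * Q - X * derivative Q).natDegree ≤ m := by
  rw [natDegree_le_iff_coeff_eq_zero]
  intro i hi
  obtain ⟨j, rfl⟩ := Nat.exists_eq_succ_of_ne_zero (show i ≠ 0 by omega)
  rw [Nat.succ_eq_add_one] at *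
  rw [coeff_sub, coeff_X_mul, coeff_derivative, ← map_natCast (C : L →+* L[X]), coeff_C_mul]
  by_cases h : j = m
  · subst h
    push_cast
    ring
  · rw [coeff_eq_zero_of_natDegree_lt (show Q.natDegree < j + 1 by omega), mul_zero, zero_mul,
      sub_zero]

theorem coprime_euler {L : Type*} [Field L] {g : L[X]} {m : ℕ} (hm : (m : L) ≠ 0)
    (hg : g.Separable) :
    IsCoprime (derivative g) ((m : L[X]) * g - X * derivative g) := by
  obtain ⟨u, v, huv⟩ := hg
  refine ⟨v + C ((m : L)⁻¹) * u * X, C ((m : L)⁻¹) * u, ?_⟩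
  have h1 : C ((m : L)⁻¹) * (m : L[X]) = 1 := by
    rw [← map_natCast (C : L →+* L[X]), ← C_mul, inv_mul_cancel₀ hm, C_1]
  linear_combination huv + u * g * h1

namespace UniPer

variable {L : Type*} [Field L] [CharZero L] {δ : Derivation ℤ L L} {n n' : ℕ} {a : L} {F : L[X]}
  {C' : ℕ → L[X] →ₗ[L] L}

theorem zero_pow (h : UniPer δ n n' a F C') (ha : δ a = 1) (hn : n' + 2 < n)
    (h0 : C' 0 ((X - C a) ^ n') = 0) (j : ℕ) (hj : j ≤ n') :
    C' 0 ((X - C a) ^ (n' - j)) = 0 := by
  induction j with
  | zero => exact h0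
  | succ j ih =>
    have h1 := ih (by omega)
    have h2 := h.chain ha (n' - (j + 1)) (by omega)
    have h3 : n' - (j + 1) + 1 = n' - j := by omega
    rw [h3, h1, map_zero, mul_zero] at h2
    rcases mul_eq_zero.1 h2.symm with h4 | h4
    · exfalso
      have h5 : ((n' + 2 : ℕ) : L) = (((n' - (j + 1) + 1) * n : ℕ) : L) := by
        push_cast
        linear_combination h4
      have h6 := Nat.cast_injective h5
      have h7 : 1 * n ≤ (n' - (j + 1) + 1) * n := Nat.mul_le_mul_right _ (by omega)
      omega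
    · exact h4

theorem zero_level (h : UniPer δ n n' a F C') (ha : δ a = 1) (hn : n' + 2 < n)
    (h0 : C' 0 ((X - C a) ^ n') = 0) (q : L[X]) (hq : q.natDegree ≤ n') : C' 0 q = 0 := by
  rw [← sum_taylor_eq q a, Polynomial.sum_def, map_sum]
  apply Finset.sum_eq_zero
  intro i hi
  rw [map_C_mul]
  have h1 : i ≤ (taylor a q).natDegree := le_natDegree_of_mem_supp i hi
  rw [natDegree_taylor] at h1
  have h2 := h.zero_pow ha hn h0 (n' - i) (by omega)
  have h3 : n' - (n' - i) = i := by omega
  rw [h3] at h2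
  rw [h2, mul_zero]

theorem of_mul (h : UniPer δ n n' a F C') (hn : n' + 2 < n) (k : ℕ) (q : L[X])
    (hq : q.natDegree ≤ n' + k * n) (h0 : C' (k + 1) (q * ((X - C a) * F)) = 0) :
    C' k q = 0 := by
  have h1 := h.mul k q hq
  rw [h0, mul_zero, mul_zero] at h1
  rcases mul_eq_zero.1 h1.symm with h2 | h2
  · exfalso
    have := Nat.cast_eq_zero.1 h2
    omega
  · exact h2

theorem mul_zero' (h : UniPer δ n n' a F C') (hn : n' + 2 < n) (k : ℕ) (q : L[X])
    (hq : q.natDegree ≤ n' + k * n) (h0 : C' k q = 0) :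
    C' (k + 1) (q * ((X - C a) * F)) = 0 := by
  have h1 := h.mul k q hq
  rw [h0, mul_zero] at h1
  have hn0 : (n : L) ≠ 0 := Nat.cast_ne_zero.2 (by omega)
  have hk0 : (k : L) + 1 ≠ 0 := by exact_mod_cast Nat.succ_ne_zero k
  rcases mul_eq_zero.1 h1 with h2 | h2
  · exact absurd h2 hn0
  · exact (mul_eq_zero.1 h2).resolve_left hk0

variable (hF : F.natDegree + 1 = n) (hδ : dcoL δ F = 0)

include hF hδ

theorem psi (h : UniPer δ n n' a F C') (ha : δ a = 1) (hn : n' + 2 < n)
    (h0 : C' 0 ((X - C a) ^ n') = 0) (k : ℕ) :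
    ∀ q : L[X], q.natDegree ≤ n' + k → C' k (q * F ^ k) = 0 := by
  induction k with
  | zero =>
    intro q hq
    rw [pow_zero, mul_one]
    exact h.zero_level ha hn h0 q hq
  | succ k ih =>
    have hFk : (F ^ k).natDegree ≤ k * (n - 1) := by
      refine natDegree_pow_le.trans ?_
      exact Nat.mul_le_mul_left _ (by omega)
    have hkn : k * (n - 1) + k = k * n := by
      obtain ⟨e, rfl⟩ : ∃ e, n = e + 1 := ⟨n - 1, by omega⟩
      rw [Nat.add_sub_cancel]
      ring
    have h1 : C' (k + 1) (F ^ (k + 1)) = 0 := by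
      have h2 := h.der k (F ^ k) (by omega)
      have h3 := ih 1 (by rw [natDegree_one]; omega)
      rw [one_mul] at h3
      have h4 : dcoL δ (F ^ k) = 0 := by
        rw [Derivation.leibniz_pow, hδ, smul_zero, smul_zero]
      rw [h3, map_zero, h4, map_zero, zero_add, ← pow_succ] at h2
      have hk0 : (k : L) + 1 ≠ 0 := by exact_mod_cast Nat.succ_ne_zero k
      exact (mul_eq_zero.1 h2.symm).resolve_left hk0
    intro q hq
    obtain ⟨q', hq'⟩ : ∃ q', q = C (q.eval a) + q' * (X - C a) := by
      refine ⟨q /ₘ (X - C a), ?_⟩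
      have h2 := modByMonic_add_div q (X - C a)
      rw [modByMonic_X_sub_C_eq_C_eval] at h2
      linear_combination (-1 : L[X]) * h2
    have hq'd : q'.natDegree ≤ n' + k := by
      by_cases h0 : q' = 0
      · rw [h0, natDegree_zero]
        exact Nat.zero_le _
      have h2 : (q' * (X - C a)).natDegree = q'.natDegree + 1 := by
        rw [natDegree_mul h0 (X_sub_C_ne_zero a), natDegree_X_sub_C]
      have h3 : q' * (X - C a) = q - C (q.eval a) := by
        linear_combination (-1 : L[X]) * hq'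
      have h4 : (q - C (q.eval a)).natDegree ≤ n' + (k + 1) := by
        refine (natDegree_sub_le _ _).trans (max_le hq ?_)
        rw [natDegree_C]
        exact Nat.zero_le _
      rw [← h3, h2] at h4
      omega
    have h5 : q * F ^ (k + 1) = C (q.eval a) * F ^ (k + 1) + (q' * F ^ k) * ((X - C a) * F) := by
      linear_combination F ^ (k + 1) * hq'
    rw [h5, map_add, map_C_mul, h1, mul_zero, zero_add]
    refine h.mul_zero' hn k _ ?_ (ih q' hq'd)
    refine natDegree_mul_le.trans ?_
    omega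

theorem stepB0 (h : UniPer δ n n' a F C') (ha : δ a = 1) (hn : n' + 2 < n)
    (h0 : C' 0 ((X - C a) ^ n') = 0) (k : ℕ) (Q : L[X]) (hQ : Q.natDegree ≤ n' + k + 2) :
    C' (k + 1) (Q * F ^ k * derivative F) = 0 := by
  have hFk : ∀ k, (F ^ k).natDegree ≤ k * (n - 1) := by
    intro k
    refine natDegree_pow_le.trans ?_
    exact Nat.mul_le_mul_left _ (by omega)
  have hkn : ∀ k, k * (n - 1) + k = k * n := by
    intro k
    obtain ⟨e, rfl⟩ : ∃ e, n = e + 1 := ⟨n - 1, by omega⟩
    rw [Nat.add_sub_cancel]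
    ring
  have hF' : (derivative F).natDegree ≤ n - 2 := (natDegree_derivative_le F).trans (by omega)
  have hq : (Q * F ^ k * derivative F).natDegree ≤ n' + (k + 1) * n := by
    refine natDegree_mul_le.trans ?_
    have h1 := natDegree_mul_le (p := Q) (q := F ^ k)
    have h2 := hFk k
    have h3 := hkn k
    have h4 : (k + 1) * n = k * n + n := by ring
    omega
  have h1 := h.ex0 (k + 1) (Q * F ^ (k + 1)) (by
    refine natDegree_mul_le.trans ?_
    have h2 := hFk (k + 1)
    have h3 := hkn (k + 1)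
    omega)
  have h2 := h.mul (k + 1) (Q * F ^ k * derivative F) hq
  have h3 : Q * F ^ (k + 1) * derivative ((X - C a) * F) =
      Q * F ^ (k + 2) + Q * F ^ k * derivative F * ((X - C a) * F) := by
    rw [derivative_mul, derivative_sub, derivative_X, derivative_C]
    ring
  have h4 : derivative (Q * F ^ (k + 1)) = derivative Q * F ^ (k + 1) +
      ((k + 1 : ℕ) : L[X]) * (Q * F ^ k * derivative F) := by
    rw [derivative_mul, derivative_pow]
    simp only [Nat.add_sub_cancel, map_natCast]
    ring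
  have h5 := psi hF hδ h ha hn h0 (k + 2) Q (by omega)
  have h6 := psi hF hδ h ha hn h0 (k + 1) (derivative Q)
    ((natDegree_derivative_le Q).trans (by omega))
  rw [h3, h4, map_add, h5, zero_add, map_add, h6, zero_add, map_natCast_mul] at h1
  push_cast at h1 h2
  have h7 : ((n' + 2 : ℕ) : L) * C' (k + 1) (Q * F ^ k * derivative F) = 0 := by
    push_cast
    linear_combination (n : L) * h1 - h2
  rcases mul_eq_zero.1 h7 with h8 | h8
  · exfalso
    have := Nat.cast_eq_zero.1 h8
    omega
  · exact h8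

theorem stepB1 (h : UniPer δ n n' a F C') (ha : δ a = 1) (hn : n' + 2 < n)
    (h0 : C' 0 ((X - C a) ^ n') = 0) (k : ℕ) (Q : L[X]) (hQ : Q.natDegree ≤ n' + k + 2) :
    C' (k + 1) (Q * F ^ k * (((n - 1 : ℕ) : L[X]) * F - X * derivative F)) = 0 := by
  obtain ⟨e, rfl⟩ : ∃ e, n = e + 1 := ⟨n - 1, by omega⟩
  rw [Nat.add_sub_cancel]
  set hf : L[X] := ((e : ℕ) : L[X]) * F - X * derivative F with hhf
  have hFk : ∀ k, (F ^ k).natDegree ≤ k * e := by
    intro k
    refine natDegree_pow_le.trans ?_
    exact Nat.mul_le_mul_left _ (by omega)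
  have hhfd : hf.natDegree ≤ e - 1 := by
    obtain ⟨e', rfl⟩ : ∃ e', e = e' + 1 := ⟨e - 1, by omega⟩
    rw [hhf]
    exact natDegree_euler_le F e' (by omega)
  have hq : (Q * F ^ k * hf).natDegree ≤ n' + (k + 1) * (e + 1) := by
    refine natDegree_mul_le.trans ?_
    have h1 := natDegree_mul_le (p := Q) (q := F ^ k)
    have h2 := hFk k
    have h4 : (k + 1) * (e + 1) = k * e + k + e + 1 := by ring
    omega
  have h1 := h.ex1 (k + 1) (Q * F ^ (k + 1)) (by
    refine natDegree_mul_le.trans ?_
    have h2 := hFk (k + 1)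
    have h4 : (k + 1) * (e + 1) = (k + 1) * e + k + 1 := by ring
    omega)
  have h2 := h.mul (k + 1) (Q * F ^ k * hf) hq
  have h3 : Q * F ^ (k + 1) * (((e + 1 : ℕ) : L[X]) * ((X - C a) * F) -
      X * derivative ((X - C a) * F)) =
      Q * F ^ k * hf * ((X - C a) * F) - C a * (Q * F ^ (k + 2)) := by
    rw [hhf, derivative_mul, derivative_sub, derivative_X, derivative_C]
    push_cast
    ring
  have h4 : ((n' + (k + 1) * (e + 1) + 1 : ℕ) : L[X]) * (Q * F ^ (k + 1)) -
      X * derivative (Q * F ^ (k + 1)) =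
      (((n' + k + 1 + 1 : ℕ) : L[X]) * Q - X * derivative Q) * F ^ (k + 1) +
      ((k + 1 : ℕ) : L[X]) * (Q * F ^ k * hf) := by
    rw [hhf, derivative_mul, derivative_pow]
    simp only [Nat.add_sub_cancel, map_natCast]
    push_cast
    ring
  have h5 := psi hF hδ h ha hn h0 (k + 2) Q (by omega)
  have h6 := psi hF hδ h ha hn h0 (k + 1) (((n' + k + 1 + 1 : ℕ) : L[X]) * Q - X * derivative Q)
    (natDegree_euler_le Q (n' + k + 1) (by omega))
  rw [h3, h4, map_sub, map_C_mul, h5, mul_zero, sub_zero, map_add, h6, zero_add,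
    map_natCast_mul] at h1
  push_cast at h1 h2
  have h7 : ((n' + 2 : ℕ) : L) * C' (k + 1) (Q * F ^ k * hf) = 0 := by
    push_cast
    linear_combination ((e : L) + 1) * h1 - h2
  rcases mul_eq_zero.1 h7 with h8 | h8
  · exfalso
    have := Nat.cast_eq_zero.1 h8
    omega
  · exact h8

theorem stepC (h : UniPer δ n n' a F C') (ha : δ a = 1) (hn : n' + 2 < n)
    (h0 : C' 0 ((X - C a) ^ n') = 0) (hsep : F.Separable) (k : ℕ) (hk : n ≤ k) (R : L[X])
    (hR : R.natDegree ≤ n' + k + n) :
    C' (k + 1) (R * F ^ k) = 0 := by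
  have hn1 : ((n - 1 : ℕ) : L) ≠ 0 := Nat.cast_ne_zero.2 (by omega)
  have hd : (derivative F).natDegree = n - 2 := by
    rw [natDegree_derivative]
    omega
  have hd0 : derivative F ≠ 0 := by
    intro h1
    rw [h1, natDegree_zero] at hd
    have h2 : F.natDegree ≠ 0 := by omega
    exact h2 (derivative_eq_zero.1 h1)
  have hh : (((n - 1 : ℕ) : L[X]) * F - X * derivative F).natDegree ≤ n - 2 := by
    have h1 := natDegree_euler_le F (n - 2) (by omega)
    have h2 : n - 2 + 1 = n - 1 := by omega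
    rw [h2] at h1
    exact h1
  have hco : IsCoprime (derivative F) (((n - 1 : ℕ) : L[X]) * F - X * derivative F) :=
    coprime_euler hn1 hsep
  obtain ⟨Q₁, Q₂, hQ, hQ₁, hQ₂⟩ := poly_rep hd hd0 hh hco hR (by omega)
  have h1 := stepB0 hF hδ h ha hn h0 k Q₁ (by omega)
  have h2 := stepB1 hF hδ h ha hn h0 k Q₂ (by omega)
  have h3 : R * F ^ k = Q₁ * F ^ k * derivative F +
      Q₂ * F ^ k * (((n - 1 : ℕ) : L[X]) * F - X * derivative F) := by
    rw [hQ]
    ring
  rw [h3, map_add, h1, h2, add_zero]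

/-- A period which vanishes on `(x - a) ^ n'` vanishes. -/
theorem vanish (h : UniPer δ n n' a F C') (ha : δ a = 1) (hn : n' + 2 < n)
    (h0 : C' 0 ((X - C a) ^ n') = 0) (hsep : ((X - C a) * F).Separable) :
    ∀ (k : ℕ) (q : L[X]), q.natDegree ≤ n' + k * n → C' k q = 0 := by
  have hF0 : F ≠ 0 := by
    intro h1
    rw [h1, natDegree_zero] at hF
    omega
  have hg0 : (X - C a) * F ≠ 0 := mul_ne_zero (X_sub_C_ne_zero a) hF0
  have hgd : ((X - C a) * F).natDegree = n := by
    rw [natDegree_mul (X_sub_C_ne_zero a) hF0, natDegree_X_sub_C]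
    omega
  -- level one
  have hlev1 : ∀ P : L[X], P.natDegree ≤ n' + 1 * n → C' 1 P = 0 := by
    intro P hP
    have hup : ∀ j : ℕ, C' (1 + j) (P * ((X - C a) * F) ^ j) = 0 → C' 1 P = 0 := by
      intro j
      induction j with
      | zero =>
        intro h1
        rw [pow_zero, mul_one] at h1
        exact h1
      | succ j ih =>
        intro h1
        apply ih
        rw [pow_succ, ← mul_assoc, ← add_assoc] at h1
        refine h.of_mul hn (1 + j) _ ?_ h1
        refine natDegree_mul_le.trans ?_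
        have h2 := natDegree_pow_le (p := (X - C a) * F) (n := j)
        rw [hgd] at h2
        have h3 : (1 + j) * n = n + j * n := by ring
        omega
    apply hup n
    have h1 : P * ((X - C a) * F) ^ n = P * (X - C a) ^ n * F ^ n := by
      rw [mul_pow]
      ring
    rw [h1, add_comm 1 n]
    refine stepC hF hδ h ha hn h0 hsep.of_mul_right n le_rfl _ ?_
    refine natDegree_mul_le.trans ?_
    have h2 := natDegree_pow_le (p := (X - C a : L[X])) (n := n)
    rw [natDegree_X_sub_C] at h2
    omega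
  intro k
  induction k with
  | zero =>
    intro q hq
    exact h.zero_level ha hn h0 q (by omega)
  | succ k ih =>
    rcases Nat.eq_zero_or_pos k with hk | hk
    · subst hk
      exact hlev1
    intro q hq
    have hn0 : ((n : ℕ) : L) ≠ 0 := Nat.cast_ne_zero.2 (by omega)
    have hd : (derivative ((X - C a) * F)).natDegree = n - 1 := by
      rw [natDegree_derivative, hgd]
    have hd0 : derivative ((X - C a) * F) ≠ 0 := by
      intro h1
      have h2 := derivative_eq_zero.1 h1
      omega
    have hh : ((n : L[X]) * ((X - C a) * F) - X * derivative ((X - C a) * F)).natDegree ≤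
        n - 1 := by
      have h1 := natDegree_euler_le ((X - C a) * F) (n - 1) (by omega)
      have h2 : n - 1 + 1 = n := by omega
      rw [h2] at h1
      exact h1
    have hco : IsCoprime (derivative ((X - C a) * F))
        ((n : L[X]) * ((X - C a) * F) - X * derivative ((X - C a) * F)) :=
      coprime_euler hn0 hsep
    have hkn : n ≤ k * n := Nat.le_mul_of_pos_left n hk
    have hkn' : (k + 1) * n = k * n + n := by ring
    obtain ⟨Q₁, Q₂, hQ, hQ₁, hQ₂⟩ := poly_rep hd hd0 hh hco hq (by omega)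
    have hk0 : (k : L) + 1 ≠ 0 := by exact_mod_cast Nat.succ_ne_zero k
    have h1 := h.ex0 k Q₁ (by omega)
    have h2 := h.ex1 k Q₂ (by omega)
    rw [ih _ ((natDegree_derivative_le Q₁).trans (by omega))] at h1
    rw [ih _ (natDegree_euler_le Q₂ (n' + k * n) (by omega))] at h2
    rw [hQ, map_add, (mul_eq_zero.1 h1).resolve_left hk0, (mul_eq_zero.1 h2).resolve_left hk0,
      add_zero]

end UniPer

end MPadcGM
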