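import Pool.Agent.Lib.MP_adc574_ag_GM.JHom
import Pool.Agent.Lib.MP_adc574_ag_GM.JVan

/-!
# From periods of `G(x₀, x₁) + Y(y)` to periods in one variable
-/

set_option autoImplicit false

namespace MPadcGM

open MvPolynomial

variable {L : Type*} [Field L]

theorem uniPer_of_period {r n n' : ℕ} (hn : 0 < n) (δ : Derivation ℤ L L) (a : L)
    (F : Polynomial L) (hF : F.natDegree + 1 = n) (fL Y : MvPolynomial (Fin (r + 2)) L)
    (hf : fL = hom2 r ((Polynomial.X - Polynomial.C a) * F) n + Y)
    (hY0 : pderiv 0 Y = 0) (hY1 : pderiv 1 Y = 0) (eM : Fin (r + 2) →₀ ℕ) (h0 : eM 0 = 0)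
    (h1 : eM 1 = 0) (c : ℕ → MvPolynomial (Fin (r + 2)) L →ₗ[L] L)
    (hmul : ∀ k P, c (k + 1) (P * fL) = c k P)
    (hex : ∀ k i Q, c (k + 1) (fL * pderiv i Q - ((k : L) + 1) • (Q * pderiv i fL)) = 0)
    (hder : ∀ k e, δ (c k (monomial e 1)) =
      ((k : L) + 1) * c (k + 1) (monomial e 1 * (X 1 * hom2 r F (n - 1)))) :
    UniPer δ n n' a F fun k =>
      (c k).comp ((LinearMap.mulRight L (monomial eM (1 : L))).comp (hom2L L r (n' + k * n))) := by
  have hM0 : pderiv 0 (monomial eM (1 : L)) = 0 := by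
    rw [pderiv_monomial, h0, Nat.cast_zero, mul_zero, monomial_zero]
  have hM1 : pderiv 1 (monomial eM (1 : L)) = 0 := by
    rw [pderiv_monomial, h1, Nat.cast_zero, mul_zero, monomial_zero]
  have hgd : ((Polynomial.X - Polynomial.C a) * F).natDegree ≤ n := by
    refine Polynomial.natDegree_mul_le.trans ?_
    rw [Polynomial.natDegree_X_sub_C]
    omega
  obtain ⟨e, rfl⟩ : ∃ e, n = e + 1 := ⟨n - 1, by omega⟩
  rw [Nat.add_sub_cancel] at hder
  have hf0 : pderiv 0 fL = hom2 r (Polynomial.derivative ((Polynomial.X - Polynomial.C a) * F)) e := by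
    rw [hf, map_add, hY0, add_zero, pderiv0_hom2 _ _ _ hgd]
  have hf1 : pderiv 1 fL = hom2 r (((e + 1 : ℕ) : Polynomial L) * ((Polynomial.X - Polynomial.C a) * F) -
      Polynomial.X * Polynomial.derivative ((Polynomial.X - Polynomial.C a) * F)) e := by
    rw [hf, map_add, hY1, add_zero, pderiv1_hom2 _ _ _ hgd]
  have hd0 : (Polynomial.derivative ((Polynomial.X - Polynomial.C a) * F)).natDegree ≤ e :=
    (Polynomial.natDegree_derivative_le _).trans (by omega)
  have hd1 : (((e + 1 : ℕ) : Polynomial L) * ((Polynomial.X - Polynomial.C a) * F) -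
      Polynomial.X * Polynomial.derivative ((Polynomial.X - Polynomial.C a) * F)).natDegree ≤ e :=
    natDegree_euler_le _ e hgd
  constructor
  · intro k Q hQ
    generalize Polynomial.derivative ((Polynomial.X - Polynomial.C a) * F) = g' at hf0 hd0
    simp only [LinearMap.comp_apply, LinearMap.mulRight_apply, hom2L_apply]
    have h2 := hex k 0 (hom2 r Q (n' + k * (e + 1) + 1) * monomial eM 1)
    rw [Derivation.leibniz, hM0, smul_zero, zero_add, pderiv0_hom2 _ _ _ hQ, hf0, map_sub,
      map_smul, smul_eq_mul, sub_eq_zero, mul_comm fL, hmul] at h2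
    rw [smul_eq_mul, mul_comm (monomial eM 1)] at h2
    have h3 : n' + (k + 1) * (e + 1) = (n' + k * (e + 1) + 1) + e := by ring
    have h4 : hom2 r (Q * g') (n' + (k + 1) * (e + 1)) =
        hom2 r Q (n' + k * (e + 1) + 1) * hom2 r g' e := by
      rw [h3]
      exact hom2_mul r Q g' hQ hd0
    rw [h2, h4, mul_right_comm]
  · intro k Q hQ
    generalize ((e + 1 : ℕ) : Polynomial L) * ((Polynomial.X - Polynomial.C a) * F) -
      Polynomial.X * Polynomial.derivative ((Polynomial.X - Polynomial.C a) * F) = g' at hf1 hd1 ⊢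
    simp only [LinearMap.comp_apply, LinearMap.mulRight_apply, hom2L_apply]
    have h2 := hex k 1 (hom2 r Q (n' + k * (e + 1) + 1) * monomial eM 1)
    rw [Derivation.leibniz, hM1, smul_zero, zero_add, pderiv1_hom2 _ _ _ hQ, hf1, map_sub,
      map_smul, smul_eq_mul, sub_eq_zero, mul_comm fL, hmul] at h2
    rw [smul_eq_mul, mul_comm (monomial eM 1)] at h2
    have h3 : n' + (k + 1) * (e + 1) = (n' + k * (e + 1) + 1) + e := by ring
    have h4 : hom2 r (Q * g') (n' + (k + 1) * (e + 1)) =
        hom2 r Q (n' + k * (e + 1) + 1) * hom2 r g' e := by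
      rw [h3]
      exact hom2_mul r Q g' hQ hd1
    rw [h2, h4, mul_right_comm]
  · intro k q hq
    simp only [LinearMap.comp_apply, LinearMap.mulRight_apply, hom2L_apply]
    have hmon : ∀ (i k : ℕ), X 0 ^ i * X 1 ^ (n' + k * (e + 1) - i) * monomial eM (1 : L) =
        monomial (Finsupp.single 0 i + Finsupp.single 1 (n' + k * (e + 1) - i) + eM) 1 := by
      intro i k
      rw [X_pow_eq_monomial, X_pow_eq_monomial, monomial_mul, monomial_mul, one_mul, one_mul]
    have h2 : ∀ i ≤ n' + k * (e + 1),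
        δ (c k (X 0 ^ i * X 1 ^ (n' + k * (e + 1) - i) * monomial eM (1 : L))) =
        ((k : L) + 1) * c (k + 1) (hom2 r (Polynomial.X ^ i * F) (n' + (k + 1) * (e + 1)) *
          monomial eM 1) := by
      intro i hi
      rw [hmon, hder, ← hmon]
      congr 2
      have h3 : n' + (k + 1) * (e + 1) = (n' + k * (e + 1) + 1) + e := by ring
      rw [h3, hom2_mul r _ _ (by rw [Polynomial.natDegree_X_pow]; omega) (by omega),
        hom2_X_pow _ _ _ (by omega)]
      have h4 : n' + k * (e + 1) + 1 - i = (n' + k * (e + 1) - i) + 1 := by omega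
      rw [h4, pow_succ]
      ring
    have h5 : hom2 r q (n' + k * (e + 1)) * monomial eM 1 =
        ∑ i ∈ Finset.range (n' + k * (e + 1) + 1), (q.coeff i) •
          (X 0 ^ i * X 1 ^ (n' + k * (e + 1) - i) * monomial eM (1 : L)) := by
      unfold hom2
      rw [Finset.sum_mul]
      apply Finset.sum_congr rfl
      intro i _
      rw [smul_eq_C_mul, mul_assoc]
    have h6 : hom2 r (dcoL δ q) (n' + k * (e + 1)) * monomial eM 1 =
        ∑ i ∈ Finset.range (n' + k * (e + 1) + 1), (δ (q.coeff i)) •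
          (X 0 ^ i * X 1 ^ (n' + k * (e + 1) - i) * monomial eM (1 : L)) := by
      unfold hom2
      rw [Finset.sum_mul]
      apply Finset.sum_congr rfl
      intro i _
      rw [smul_eq_C_mul, mul_assoc, coeff_dcoL]
    have h7 : hom2 r (q * F) (n' + (k + 1) * (e + 1)) * monomial eM (1 : L) =
        ∑ i ∈ Finset.range (n' + k * (e + 1) + 1), (q.coeff i) •
          (hom2 r (Polynomial.X ^ i * F) (n' + (k + 1) * (e + 1)) * monomial eM 1) := by
      have h8 : q * F = ∑ i ∈ Finset.range (n' + k * (e + 1) + 1),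
          q.coeff i • (Polynomial.X ^ i * F) := by
        conv_lhs => rw [q.as_sum_range' (n' + k * (e + 1) + 1) (by omega), Finset.sum_mul]
        apply Finset.sum_congr rfl
        intro i _
        rw [← Polynomial.C_mul_X_pow_eq_monomial, Polynomial.smul_eq_C_mul, mul_assoc]
      rw [h8, ← hom2L_apply, map_sum, Finset.sum_mul]
      apply Finset.sum_congr rfl
      intro i _
      rw [map_smul, smul_mul_assoc, hom2L_apply]
    rw [h5, h6, h7, map_sum, map_sum, map_sum, map_sum, Finset.mul_sum, ← Finset.sum_add_distrib]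
    apply Finset.sum_congr rfl
    intro i hi
    rw [LinearMap.map_smul, LinearMap.map_smul, LinearMap.map_smul, smul_eq_mul, smul_eq_mul,
      smul_eq_mul, Derivation.leibniz, smul_eq_mul, smul_eq_mul, h2 i (by
        have := Finset.mem_range.1 hi
        omega)]
    ring

end MPadcGM
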