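import Mathlib

/-!
# Linear dependence over the constants (Wronskian)
-/

set_option autoImplicit false

namespace MPadcGM

/-- If `n` elements of a differential field have linearly dependent Wronskian rows, they are
linearly dependent over the constants. -/
theorem exists_const_of_wronskian {L : Type*} [Field L] (δ : Derivation ℤ L L) :
    ∀ (n : ℕ) (f b : Fin n → L), b ≠ 0 → (∀ j < n, ∑ i, b i * (δ^[j]) (f i) = 0) →
      ∃ b' : Fin n → L, b' ≠ 0 ∧ (∀ i, δ (b' i) = 0) ∧ ∑ i, b' i * f i = 0 := by
  intro n
  induction n with
  | zero =>
    intro f b hb
    exact absurd (Subsingleton.elim b 0) hb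
  | succ n ih =>
    intro f b hb h
    by_cases hcase : ∃ b₀ : Fin n → L, b₀ ≠ 0 ∧
        ∀ j < n, ∑ i, b₀ i * (δ^[j]) (f i.castSucc) = 0
    · obtain ⟨b₀, hb₀, h₀⟩ := hcase
      obtain ⟨b', hb', hc, hs⟩ := ih (fun i => f i.castSucc) b₀ hb₀ h₀
      refine ⟨Fin.snoc (α := fun _ => L) b' 0, ?_, ?_, ?_⟩
      · intro h1
        apply hb'
        funext i
        have := congrFun h1 i.castSucc
        rw [Fin.snoc_castSucc] at this
        exact this
      · intro i
        refine Fin.lastCases ?_ (fun i => ?_) i
        · rw [Fin.snoc_last, map_zero]
        · rw [Fin.snoc_castSucc]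
          exact hc i
      · rw [Fin.sum_univ_castSucc, Fin.snoc_last, zero_mul, add_zero]
        simp only [Fin.snoc_castSucc]
        exact hs
    · push Not at hcase
      have hlast : b (Fin.last n) ≠ 0 := by
        intro h0
        have hne : (fun i : Fin n => b i.castSucc) ≠ 0 := by
          intro h1
          apply hb
          funext i
          refine Fin.lastCases ?_ (fun i => ?_) i
          · exact h0
          · exact congrFun h1 i
        obtain ⟨j, hj, hj'⟩ := hcase _ hne
        apply hj'
        have := h j (by omega)
        rw [Fin.sum_univ_castSucc, h0, zero_mul, add_zero] at this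
        exact this
      set β : Fin (n + 1) → L := fun i => b i / b (Fin.last n) with hβ
      have hβlast : β (Fin.last n) = 1 := div_self hlast
      have hβs : ∀ j < n + 1, ∑ i, β i * (δ^[j]) (f i) = 0 := by
        intro j hj
        have h1 := h j hj
        have h2 : ∑ i, β i * (δ^[j]) (f i) = (∑ i, b i * (δ^[j]) (f i)) / b (Fin.last n) := by
          rw [Finset.sum_div]
          apply Finset.sum_congr rfl
          intro i _
          rw [hβ]
          ring
        rw [h2, h1, zero_div]
      have hconst : ∀ i : Fin n, δ (β i.castSucc) = 0 := by
        by_contra hne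
        have hne' : (fun i : Fin n => δ (β i.castSucc)) ≠ 0 := by
          intro h1
          exact hne fun i => congrFun h1 i
        obtain ⟨j, hj, hj'⟩ := hcase _ hne'
        apply hj'
        have h1 := congrArg δ (hβs j (by omega))
        rw [map_zero, map_sum] at h1
        simp only [Derivation.leibniz, smul_eq_mul] at h1
        rw [Finset.sum_add_distrib] at h1
        have h2 : ∑ i, β i * δ ((δ^[j]) (f i)) = 0 := by
          have := hβs (j + 1) (by omega)
          simp only [Function.iterate_succ_apply'] at this
          exact this
        rw [h2, zero_add, Fin.sum_univ_castSucc, hβlast, Derivation.map_one_eq_zero, mul_zero,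
          add_zero] at h1
        rw [← h1]
        apply Finset.sum_congr rfl
        intro i _
        rw [mul_comm]
      refine ⟨β, ?_, ?_, ?_⟩
      · intro h0
        have := congrFun h0 (Fin.last n)
        rw [hβlast] at this
        exact one_ne_zero this
      · intro i
        refine Fin.lastCases ?_ (fun i => ?_) i
        · rw [hβlast, Derivation.map_one_eq_zero]
        · exact hconst i
      · exact hβs 0 (by omega)

end MPadcGM
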