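import Pool.Agent.Lib.MP_adc574_ag_GM.JHom

/-!
# Periods vanish if they vanish on the forms `q(x₀, x₁) y ^ v`
-/

set_option autoImplicit false

namespace MPadcGM

open MvPolynomial

variable {L : Type*} [Field L] [CharZero L]

/-- Periods are homogeneous. -/
theorem period_weight {m : ℕ} (w : Fin m → ℕ) (d : ℕ) (fL : MvPolynomial (Fin m) L)
    (hf : fL.IsWeightedHomogeneous w d) (c : ℕ → MvPolynomial (Fin m) L →ₗ[L] L)
    (hmul : ∀ k P, c (k + 1) (P * fL) = c k P)
    (hex : ∀ k i Q, c (k + 1) (fL * pderiv i Q - ((k : L) + 1) • (Q * pderiv i fL)) = 0)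
    (k : ℕ) (e : Fin m →₀ ℕ) (hne : c k (monomial e 1) ≠ 0) :
    ∑ i, w i * (e i + 1) = (k + 1) * d := by
  have h2 : ∀ i, pderiv i (X i * monomial e (1 : L)) =
      (((e i + 1 : ℕ) : L)) • monomial e (1 : L) := by
    intro i
    rw [Derivation.leibniz, pderiv_X_self, smul_eq_mul, smul_eq_mul, mul_one,
      X_mul_pderiv_monomial, ← Nat.cast_smul_eq_nsmul L]
    push_cast
    rw [add_smul, one_smul]
  have h1 : ∀ i, ((e i + 1 : ℕ) : L) * c k (monomial e 1) =
      ((k : L) + 1) * c (k + 1) ((X i * monomial e 1) * pderiv i fL) := by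
    intro i
    have h3 := hex k i (X i * monomial e 1)
    rw [h2, map_sub, LinearMap.map_smul, smul_eq_mul, sub_eq_zero, mul_smul_comm,
      LinearMap.map_smul, smul_eq_mul, mul_comm fL, hmul] at h3
    exact h3
  have h4 : ∑ i, ((w i : ℕ) : L) * (((k : L) + 1) *
      c (k + 1) ((X i * monomial e 1) * pderiv i fL)) =
      ((k : L) + 1) * ((d : L) * c k (monomial e 1)) := by
    have h5 := hf.sum_weight_X_mul_pderiv
    have h7 : ∀ i, ((w i : ℕ) : L) * (((k : L) + 1) *
        c (k + 1) ((X i * monomial e 1) * pderiv i fL)) =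
        ((k : L) + 1) * c (k + 1) (monomial e 1 * (w i • (X i * pderiv i fL))) := by
      intro i
      have h8 : monomial e (1 : L) * (w i • (X i * pderiv i fL)) =
          ((w i : ℕ) : L) • ((X i * monomial e 1) * pderiv i fL) := by
        rw [Nat.cast_smul_eq_nsmul, mul_smul_comm]
        congr 1
        ring
      rw [h8, LinearMap.map_smul, smul_eq_mul]
      ring
    rw [Finset.sum_congr rfl fun i _ => h7 i, ← Finset.mul_sum, ← map_sum, ← Finset.mul_sum, h5,
      mul_smul_comm, ← Nat.cast_smul_eq_nsmul L, LinearMap.map_smul, smul_eq_mul, hmul]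
  have h8 : (((∑ i, w i * (e i + 1) : ℕ) : L) - (((k + 1) * d : ℕ) : L)) *
      c k (monomial e 1) = 0 := by
    have h9 : ((∑ i, w i * (e i + 1) : ℕ) : L) * c k (monomial e 1) =
        ∑ i, ((w i : ℕ) : L) * (((e i + 1 : ℕ) : L) * c k (monomial e 1)) := by
      rw [Nat.cast_sum, Finset.sum_mul]
      apply Finset.sum_congr rfl
      intro i _
      push_cast
      ring
    rw [sub_mul, h9, Finset.sum_congr rfl fun i _ => by rw [h1 i], h4]
    push_cast
    ring
  have h9 := (mul_eq_zero.1 h8).resolve_right hne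
  exact Nat.cast_injective (sub_eq_zero.1 h9)

/-- A period of the class of `v` vanishes if it vanishes on the forms `q(x₀, x₁) y ^ v`. -/
theorem period_zero {r n n' wx d : ℕ} (w : Fin (r + 2) → ℕ) (N : Fin r → ℕ) (hwx : 0 < wx)
    (h0 : w 0 = wx) (h1 : w 1 = wx) (hn : n * wx = d) (hN0 : ∀ j, 0 < N j)
    (hN : ∀ j : Fin r, w j.succ.succ * N j = d) (hw : ∀ i, 0 < w i)
    (fL Y : MvPolynomial (Fin (r + 2)) L) (hf : fL.IsWeightedHomogeneous w d)
    (hY : ∀ j : Fin r, pderiv j.succ.succ fL = (N j : L) • X j.succ.succ ^ (N j - 1))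
    (c : ℕ → MvPolynomial (Fin (r + 2)) L →ₗ[L] L)
    (hmul : ∀ k P, c (k + 1) (P * fL) = c k P)
    (hex : ∀ k i Q, c (k + 1) (fL * pderiv i Q - ((k : L) + 1) • (Q * pderiv i fL)) = 0)
    (v : Fin (r + 2) →₀ ℕ) (hv : ∑ i, w i * (v i + 1) = d) (hv' : v 0 + v 1 = n')
    (hgr : ∀ k e, c k (monomial e 1) ≠ 0 → ∀ j : Fin r, v j.succ.succ ≡ e j.succ.succ [MOD N j])
    (hC : ∀ k (q : Polynomial L), q.natDegree ≤ n' + k * n →
      c k (hom2 r q (n' + k * n) * monomial ((v.erase 0).erase 1) 1) = 0) :
    ∀ k e, c k (monomial e 1) = 0 := by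
  have hsum : ∀ e : Fin (r + 2) →₀ ℕ, ∑ i, w i * (e i + 1) =
      wx * (e 0 + e 1 + 2) + ∑ j : Fin r, w j.succ.succ * (e j.succ.succ + 1) := by
    intro e
    rw [Fin.sum_univ_succ, Fin.sum_univ_succ, h0]
    have : w (Fin.succ 0) = wx := h1
    rw [this]
    have h2 : (Fin.succ 0 : Fin (r + 2)) = 1 := rfl
    rw [h2]
    ring
  have hvN : ∀ j : Fin r, v j.succ.succ + 1 < N j := by
    intro j
    have h2 : w j.succ.succ * (v j.succ.succ + 1) < w j.succ.succ * N j := by
      rw [hN j, ← hv, hsum]
      have h3 : w j.succ.succ * (v j.succ.succ + 1) ≤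
          ∑ j : Fin r, w j.succ.succ * (v j.succ.succ + 1) :=
        Finset.single_le_sum (f := fun j : Fin r => w j.succ.succ * (v j.succ.succ + 1))
          (fun _ _ => Nat.zero_le _) (Finset.mem_univ j)
      have h4 : 0 < wx * (v 0 + v 1 + 2) := by positivity
      omega
    exact lt_of_mul_lt_mul_left h2 (Nat.zero_le _)
  have key : ∀ k e, (∀ j : Fin r, e j.succ.succ < N j) → c k (monomial e 1) = 0 := by
    intro k e hlt
    by_contra hne
    have hwt := period_weight w d fL hf c hmul hex k e hne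
    have hcl := hgr k e hne
    have heN : ∀ j : Fin r, e j.succ.succ = v j.succ.succ := by
      intro j
      exact (Nat.ModEq.eq_of_lt_of_lt (hcl j) (by have := hvN j; omega) (hlt j)).symm
    have hdeg : e 0 + e 1 = n' + k * n := by
      have h2 := hsum e
      have h3 := hsum v
      rw [hwt] at h2
      rw [hv] at h3
      have h4 : ∑ j : Fin r, w j.succ.succ * (e j.succ.succ + 1) =
          ∑ j : Fin r, w j.succ.succ * (v j.succ.succ + 1) :=
        Finset.sum_congr rfl fun j _ => by rw [heN j]
      rw [h4] at h2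
      have h5 : wx * (e 0 + e 1 + 2) = wx * (v 0 + v 1 + 2 + k * n) := by
        have h7 : (k + 1) * d = d + k * d := by ring
        have h8 : wx * (v 0 + v 1 + 2 + k * n) = wx * (v 0 + v 1 + 2) + k * d := by
          rw [← hn]
          ring
        omega
      have h6 := Nat.eq_of_mul_eq_mul_left hwx h5
      omega
    apply hne
    have h2 := hC k (Polynomial.X ^ (e 0)) (by rw [Polynomial.natDegree_X_pow]; omega)
    rw [hom2_X_pow _ _ _ (by omega)] at h2
    rw [← h2]
    have hE : Finsupp.single 0 (e 0) + Finsupp.single 1 (n' + k * n - e 0) +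
        (v.erase 0).erase 1 = e := by
      ext i
      refine Fin.cases ?_ (fun i => Fin.cases ?_ (fun j => ?_) i) i
      · simp only [Finsupp.coe_add, Pi.add_apply]
        rw [Finsupp.single_eq_same, Finsupp.single_eq_of_ne (by simp),
          Finsupp.erase_ne (by simp), Finsupp.erase_same]
        rfl
      · have h9 : (Fin.succ 0 : Fin (r + 2)) = 1 := rfl
        rw [h9]
        simp only [Finsupp.coe_add, Pi.add_apply]
        rw [Finsupp.single_eq_of_ne (by simp), Finsupp.single_eq_same, Finsupp.erase_same]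
        omega
      · simp only [Finsupp.coe_add, Pi.add_apply]
        have h9 : (Fin.succ 0 : Fin (r + 2)) = 1 := rfl
        have h10 : (j.succ.succ : Fin (r + 2)) ≠ 0 := Fin.succ_ne_zero _
        have h11 : (j.succ.succ : Fin (r + 2)) ≠ 1 := by
          rw [← h9]
          intro h
          exact Fin.succ_ne_zero j (Fin.succ_injective _ h)
        rw [Finsupp.single_eq_of_ne h10, Finsupp.single_eq_of_ne h11, Finsupp.erase_ne h11,
          Finsupp.erase_ne h10, heN j]
        ring
    rw [X_pow_eq_monomial, X_pow_eq_monomial, monomial_mul, monomial_mul, one_mul, one_mul, hE]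
  intro k
  induction k with
  | zero =>
    intro e
    by_contra hne
    have hwt := period_weight w d fL hf c hmul hex 0 e hne
    apply hne
    apply key
    intro j
    have h2 : w j.succ.succ * (e j.succ.succ + 1) < w j.succ.succ * N j := by
      rw [hN j]
      have h5 : d = ∑ i, w i * (e i + 1) := by
        rw [hwt]
        ring
      conv_rhs => rw [h5, hsum]
      have h3 : w j.succ.succ * (e j.succ.succ + 1) ≤
          ∑ j : Fin r, w j.succ.succ * (e j.succ.succ + 1) :=
        Finset.single_le_sum (f := fun j : Fin r => w j.succ.succ * (e j.succ.succ + 1))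
          (fun _ _ => Nat.zero_le _) (Finset.mem_univ j)
      have h4 : 0 < wx * (e 0 + e 1 + 2) := by positivity
      omega
    have h3 := lt_of_mul_lt_mul_left h2 (Nat.zero_le _)
    omega
  | succ k ih =>
    intro e
    by_cases hall : ∀ j : Fin r, e j.succ.succ < N j
    · exact key _ e hall
    push Not at hall
    obtain ⟨j, hj⟩ := hall
    have hNj := hN0 j
    set e' : Fin (r + 2) →₀ ℕ := e - Finsupp.single j.succ.succ (N j - 1) with he'
    have he'j : e' j.succ.succ = e j.succ.succ - (N j - 1) := by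
      rw [he', Finsupp.coe_tsub, Pi.sub_apply, Finsupp.single_eq_same]
    have hee : e' + Finsupp.single j.succ.succ (N j - 1) = e := by
      rw [he']
      apply tsub_add_cancel_of_le
      rw [Finsupp.single_le_iff]
      omega
    have h2 := hex k j.succ.succ (monomial e' 1)
    rw [hY, pderiv_monomial, one_mul, map_sub, LinearMap.map_smul, smul_eq_mul, sub_eq_zero,
      mul_comm fL, hmul, mul_smul_comm, LinearMap.map_smul, smul_eq_mul, X_pow_eq_monomial,
      monomial_mul, hee, one_mul] at h2
    have h3 : c k (monomial (e' - Finsupp.single j.succ.succ 1) ((e' j.succ.succ : ℕ) : L)) = 0 := by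
      have h4 : monomial (e' - Finsupp.single j.succ.succ 1) ((e' j.succ.succ : ℕ) : L) =
          ((e' j.succ.succ : ℕ) : L) • monomial (e' - Finsupp.single j.succ.succ 1) (1 : L) := by
        rw [smul_monomial, smul_eq_mul, mul_one]
      rw [h4, LinearMap.map_smul, ih, smul_zero]
    rw [h3] at h2
    have hk0 : (k : L) + 1 ≠ 0 := by exact_mod_cast Nat.succ_ne_zero k
    have hNj0 : (N j : L) ≠ 0 := Nat.cast_ne_zero.2 (by omega)
    exact ((mul_eq_zero.1 h2.symm).resolve_left hk0 |> mul_eq_zero.1).resolve_left hNj0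

end MPadcGM
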