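import Pool.Agent.Lib.MP_adc574_ag_GM.JCo
import Pool.Agent.Lib.MP_adc574_ag_GM.JTrans
import Pool.Agent.Lib.MP_adc574_ag_GM.JZero
import Pool.Agent.Lib.MP_adc574_ag_GM.JWron

/-!
# The period condition for `∏ (x₀ - a_i x₁) + ∑ y_j ^ N_j` with one moving point
-/

set_option autoImplicit false

universe u

namespace MPadcGM

open MvPolynomial

/-- The grading of the variables by `∏ ℤ / N_j`: `x₀`, `x₁` have degree `0`, `y_j` has degree
`1` in the factor number `j`. -/
def joinGrading {r : ℕ} (N : Fin r → ℕ) : Fin (r + 2) → (∀ j : Fin r, ZMod (N j)) :=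
  Fin.cons 0 (Fin.cons 0 fun j => Pi.single j 1)

theorem joinGrading_sum {r : ℕ} (N : Fin r → ℕ) (e : Fin (r + 2) →₀ ℕ) (j : Fin r) :
    (∑ i, (e i + 1) • joinGrading N i) j = ((e j.succ.succ + 1 : ℕ) : ZMod (N j)) := by
  classical
  rw [Fin.sum_univ_succ, Fin.sum_univ_succ]
  have h0 : joinGrading N 0 = 0 := rfl
  have h1 : joinGrading N (Fin.succ 0) = 0 := rfl
  have h2 : ∀ i : Fin r, joinGrading N i.succ.succ = Pi.single i 1 := fun i => rfl
  rw [h0, h1, smul_zero, smul_zero, zero_add, zero_add, Finset.sum_apply,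
    Finset.sum_eq_single j]
  · rw [h2, Pi.smul_apply, Pi.single_eq_same, nsmul_eq_mul, mul_one]
  · intro i _ hi
    rw [h2, Pi.smul_apply, Pi.single_eq_of_ne hi.symm, smul_zero]
  · intro h
    exact absurd (Finset.mem_univ j) h

section one

variable {A : Type u} [CommRing A] {L : Type u} [Field L]

/-- The data of one period, for one derivation. -/
structure OnePer {m : ℕ} (fL Df : MvPolynomial (Fin m) L) (δ : Derivation ℤ L L)
    (c : ℕ → MvPolynomial (Fin m) L →ₗ[L] L) : Prop where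
  mul : ∀ k P, c (k + 1) (P * fL) = c k P
  ex : ∀ k i Q, c (k + 1) (fL * pderiv i Q - ((k : L) + 1) • (Q * pderiv i fL)) = 0
  der : ∀ k e, δ (c k (monomial e 1)) = ((k : L) + 1) * c (k + 1) (monomial e 1 * Df)

theorem IsPeriod.onePer {m : ℕ} {f : MvPolynomial (Fin m) A} {φ : A →+* L}
    {δ : Derivation ℤ A A → Derivation ℤ L L} {c : ℕ → MvPolynomial (Fin m) L →ₗ[L] L}
    (h : IsPeriod f φ δ c) (D : Derivation ℤ A A) (u : L) (Df : MvPolynomial (Fin m) L)
    (hu : u ≠ 0) (hDf : (coeffD D f).map φ = -(C u * Df)) :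
    OnePer (f.map φ) Df (u⁻¹ • δ D) c := by
  refine ⟨h.mul, h.exact, ?_⟩
  intro k e
  rw [Derivation.smul_apply, h.deriv, hDf, smul_eq_mul, mul_neg, map_neg]
  have h1 : monomial e 1 * (C u * Df) = u • (monomial e 1 * Df) := by
    rw [smul_eq_C_mul]
    ring
  rw [h1, LinearMap.map_smul, smul_eq_mul]
  field_simp

theorem OnePer.comb {m : ℕ} {fL Df : MvPolynomial (Fin m) L} {δ : Derivation ℤ L L}
    {ι : Type*} [Fintype ι] (c : ι → ℕ → MvPolynomial (Fin m) L →ₗ[L] L)
    (h : ∀ i, OnePer fL Df δ (c i)) (b : ι → L) (hb : ∀ i, δ (b i) = 0) :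
    OnePer fL Df δ (fun k => ∑ i, b i • c i k) := by
  refine ⟨?_, ?_, ?_⟩
  · intro k P
    simp only [LinearMap.sum_apply, LinearMap.smul_apply]
    exact Finset.sum_congr rfl fun i _ => by rw [(h i).mul]
  · intro k i Q
    simp only [LinearMap.sum_apply, LinearMap.smul_apply]
    exact Finset.sum_eq_zero fun j _ => by rw [(h j).ex, smul_zero]
  · intro k e
    simp only [LinearMap.sum_apply, LinearMap.smul_apply, smul_eq_mul]
    rw [map_sum, Finset.mul_sum]
    apply Finset.sum_congr rfl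
    intro i _
    rw [Derivation.leibniz, (h i).der, hb, smul_zero, add_zero, smul_eq_mul]
    ring

theorem OnePer.uni {r n n' : ℕ} (hn : 0 < n) {δ : Derivation ℤ L L} {b : Fin n → L}
    {N : Fin r → ℕ} {i₀ : Fin n} (eM : Fin (r + 2) →₀ ℕ) (h0 : eM 0 = 0) (h1 : eM 1 = 0)
    {c : ℕ → MvPolynomial (Fin (r + 2)) L →ₗ[L] L}
    (h : OnePer (joinPoly b N) (X 1 * hom2 r (∏ i ∈ Finset.univ.erase i₀,
      (Polynomial.X - Polynomial.C (b i))) (n - 1)) δ c) :
    UniPer δ n n' (b i₀) (∏ i ∈ Finset.univ.erase i₀, (Polynomial.X - Polynomial.C (b i)))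
      fun k => (c k).comp ((LinearMap.mulRight L (monomial eM (1 : L))).comp
        (hom2L L r (n' + k * n))) := by
  classical
  refine uniPer_of_period hn δ (b i₀) _ ?_ (joinPoly b N) _ (joinPoly_eq b N i₀)
    (pderiv_sumY N 0 (Or.inl rfl)) (pderiv_sumY N 1 (Or.inr rfl)) eM h0 h1 c h.mul h.ex h.der
  rw [Polynomial.natDegree_prod_of_monic _ _ fun i _ => Polynomial.monic_X_sub_C _]
  simp only [Polynomial.natDegree_X_sub_C, Finset.sum_const, smul_eq_mul, mul_one]
  rw [Finset.card_erase_of_mem (Finset.mem_univ i₀), Finset.card_univ, Fintype.card_fin]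
  omega

theorem dcoL_prod {ι : Type*} (s : Finset ι) (b : ι → L) (δ : Derivation ℤ L L)
    (h : ∀ i ∈ s, δ (b i) = 0) :
    dcoL δ (∏ i ∈ s, (Polynomial.X - Polynomial.C (b i))) = 0 := by
  classical
  induction s using Finset.induction_on with
  | empty =>
    rw [Finset.prod_empty]
    exact Derivation.map_one_eq_zero _
  | insert j s hj ih =>
    rw [Finset.prod_insert hj, Derivation.leibniz, ih fun i hi => h i (Finset.mem_insert_of_mem hi),
      smul_zero, zero_add, map_sub, dcoL_X, dcoL_C, h j (Finset.mem_insert_self _ _), map_zero,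
      sub_zero, smul_zero]

end one

theorem weight_sum {r wx : ℕ} (w : Fin (r + 2) → ℕ) (h0 : w 0 = wx) (h1 : w 1 = wx)
    (e : Fin (r + 2) →₀ ℕ) : ∑ i, w i * (e i + 1) =
      wx * (e 0 + e 1 + 2) + ∑ j : Fin r, w j.succ.succ * (e j.succ.succ + 1) := by
  rw [Fin.sum_univ_succ, Fin.sum_univ_succ, h0]
  have : w (Fin.succ 0) = wx := h1
  rw [this]
  have h2 : (Fin.succ 0 : Fin (r + 2)) = 1 := rfl
  rw [h2]
  ring

/-- The exponent with the given values at `0` and `1`. -/
noncomputable def expAt {r : ℕ} (v : Fin (r + 2) →₀ ℕ) (n' i : ℕ) : Fin (r + 2) →₀ ℕ :=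
  Finsupp.single 0 i + Finsupp.single 1 (n' - i) + (v.erase 0).erase 1

theorem expAt_zero {r : ℕ} (v : Fin (r + 2) →₀ ℕ) (n' i : ℕ) : expAt v n' i 0 = i := by
  unfold expAt
  simp only [Finsupp.coe_add, Pi.add_apply]
  rw [Finsupp.single_eq_same, Finsupp.single_eq_of_ne (by simp),
    Finsupp.erase_ne (by simp), Finsupp.erase_same]
  rfl

theorem expAt_one {r : ℕ} (v : Fin (r + 2) →₀ ℕ) (n' i : ℕ) : expAt v n' i 1 = n' - i := by
  unfold expAt
  simp only [Finsupp.coe_add, Pi.add_apply]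
  rw [Finsupp.single_eq_of_ne (by simp), Finsupp.single_eq_same, Finsupp.erase_same]
  omega

theorem succ_succ_ne {r : ℕ} (j : Fin r) : (j.succ.succ : Fin (r + 2)) ≠ 1 := by
  have h9 : (Fin.succ 0 : Fin (r + 2)) = 1 := rfl
  rw [← h9]
  intro h
  exact Fin.succ_ne_zero j (Fin.succ_injective _ h)

theorem expAt_succ {r : ℕ} (v : Fin (r + 2) →₀ ℕ) (n' i : ℕ) (j : Fin r) :
    expAt v n' i j.succ.succ = v j.succ.succ := by
  unfold expAt
  simp only [Finsupp.coe_add, Pi.add_apply]
  have h10 : (j.succ.succ : Fin (r + 2)) ≠ 0 := Fin.succ_ne_zero _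
  rw [Finsupp.single_eq_of_ne h10, Finsupp.single_eq_of_ne (succ_succ_ne j),
    Finsupp.erase_ne (succ_succ_ne j), Finsupp.erase_ne h10]
  ring

theorem expAt_self {r : ℕ} (v u : Fin (r + 2) →₀ ℕ) (n' : ℕ) (hu : u 0 + u 1 = n')
    (h : ∀ j : Fin r, u j.succ.succ = v j.succ.succ) : expAt v n' (u 0) = u := by
  ext i
  refine Fin.cases ?_ (fun i => Fin.cases ?_ (fun j => ?_) i) i
  · exact expAt_zero _ _ _
  · have h9 : (Fin.succ 0 : Fin (r + 2)) = 1 := rfl
    rw [h9, expAt_one]
    omega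
  · rw [expAt_succ, h]

section weights

variable {r wx d : ℕ} {w : Fin (r + 2) → ℕ} {N : Fin r → ℕ}

theorem succ_lt_N (hwx : 0 < wx) (h0 : w 0 = wx) (h1 : w 1 = wx)
    (hN : ∀ j : Fin r, w j.succ.succ * N j = d) (e : Fin (r + 2) →₀ ℕ)
    (he : ∑ i, w i * (e i + 1) = d) (j : Fin r) : e j.succ.succ + 1 < N j := by
  have h2 : w j.succ.succ * (e j.succ.succ + 1) < w j.succ.succ * N j := by
    rw [hN j, ← he, weight_sum w h0 h1]
    have h3 : w j.succ.succ * (e j.succ.succ + 1) ≤
        ∑ j : Fin r, w j.succ.succ * (e j.succ.succ + 1) :=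
      Finset.single_le_sum (f := fun j : Fin r => w j.succ.succ * (e j.succ.succ + 1))
        (fun _ _ => Nat.zero_le _) (Finset.mem_univ j)
    have h4 : 0 < wx * (e 0 + e 1 + 2) := by positivity
    omega
  exact lt_of_mul_lt_mul_left h2 (Nat.zero_le _)

theorem add_two_lt {n : ℕ} (hr : 0 < r) (h0 : w 0 = wx) (h1 : w 1 = wx)
    (hwj : ∀ j : Fin r, 0 < w j.succ.succ) (hn : n * wx = d) (e : Fin (r + 2) →₀ ℕ)
    (he : ∑ i, w i * (e i + 1) = d) : e 0 + e 1 + 2 < n := by
  have h2 : wx * (e 0 + e 1 + 2) < wx * n := by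
    have h3 := weight_sum w h0 h1 e
    rw [he] at h3
    have h4 : 0 < ∑ j : Fin r, w j.succ.succ * (e j.succ.succ + 1) := by
      apply Finset.sum_pos
      · intro j _
        exact Nat.mul_pos (hwj j) (Nat.succ_pos _)
      · exact ⟨⟨0, hr⟩, Finset.mem_univ _⟩
    rw [mul_comm n wx] at hn
    omega
  exact lt_of_mul_lt_mul_left h2 (Nat.zero_le _)

theorem expAt_weight (h0 : w 0 = wx) (h1 : w 1 = wx) (v : Fin (r + 2) →₀ ℕ) (n' i : ℕ)
    (hn' : v 0 + v 1 = n') (hi : i ≤ n') :
    ∑ k, w k * (expAt v n' i k + 1) = ∑ k, w k * (v k + 1) := by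
  rw [weight_sum w h0 h1, weight_sum w h0 h1, expAt_zero, expAt_one]
  have h2 : i + (n' - i) + 2 = v 0 + v 1 + 2 := by omega
  rw [h2]
  congr 1
  exact Finset.sum_congr rfl fun j _ => by rw [expAt_succ]

theorem sum_eq_of_class (hwx : 0 < wx) (h0 : w 0 = wx) (h1 : w 1 = wx)
    (u v : Fin (r + 2) →₀ ℕ) (hu : ∑ i, w i * (u i + 1) = d) (hv : ∑ i, w i * (v i + 1) = d)
    (h : ∀ j : Fin r, u j.succ.succ = v j.succ.succ) : u 0 + u 1 = v 0 + v 1 := by
  have h3 := weight_sum w h0 h1 u
  have h4 := weight_sum w h0 h1 v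
  rw [hu] at h3
  rw [hv] at h4
  have h5 : ∑ j : Fin r, w j.succ.succ * (u j.succ.succ + 1) =
      ∑ j : Fin r, w j.succ.succ * (v j.succ.succ + 1) :=
    Finset.sum_congr rfl fun j _ => by rw [h j]
  rw [h5] at h3
  have h6 : wx * (u 0 + u 1 + 2) = wx * (v 0 + v 1 + 2) := by omega
  have h7 := Nat.eq_of_mul_eq_mul_left hwx h6
  omega

end weights

theorem periodCondition_join {A : Type u} [CommRing A] [CharZero A] {n r : ℕ} (hr : 0 < r)
    (a : Fin n → A) (ha : Function.Injective a) (D : Derivation ℤ A A) (i₀ : Fin n)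
    (hD : ∀ i, i ≠ i₀ → D (a i) = 0) (hD0 : D (a i₀) ≠ 0) (N : Fin r → ℕ)
    (w : Fin (r + 2) → ℕ) (wx d : ℕ) (hwx : 0 < wx) (h0 : w 0 = wx) (h1 : w 1 = wx)
    (hn : n * wx = d) (hd : 0 < d) (hN : ∀ j : Fin r, w j.succ.succ * N j = d) :
    PeriodCondition w d (joinPoly a N) (joinGrading N) 0 := by
  classical
  intro L _ φ δ c hφ hcomp hper hgr hLI hdet
  have hchar : CharZero L := charZero_of_injective_ringHom hφ
  have hn0 : 0 < n := by
    rcases Nat.eq_zero_or_pos n with h | h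
    · rw [h, zero_mul] at hn
      omega
    · exact h
  have hN0 : ∀ j, 0 < N j := by
    intro j
    rcases Nat.eq_zero_or_pos (N j) with h | h
    · have := hN j
      rw [h, mul_zero] at this
      omega
    · exact h
  have hwj : ∀ j : Fin r, 0 < w j.succ.succ := by
    intro j
    rcases Nat.eq_zero_or_pos (w j.succ.succ) with h | h
    · have := hN j
      rw [h, zero_mul] at this
      omega
    · exact h
  have hw : ∀ i, 0 < w i := by
    intro i
    refine Fin.cases ?_ (fun i => Fin.cases ?_ (fun j => ?_) i) i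
    · rw [h0]; exact hwx
    · have h9 : (Fin.succ 0 : Fin (r + 2)) = 1 := rfl
      rw [h9, h1]; exact hwx
    · exact hwj j
  have hlt : ∀ u : expo w d, ∀ j : Fin r, u.1 j.succ.succ + 1 < N j := fun u j =>
    succ_lt_N hwx h0 h1 hN u.1 ((mem_expo hw).1 u.2) j
  obtain ⟨b, hb, hb0⟩ := Matrix.exists_mulVec_eq_zero_iff.2 hdet
  obtain ⟨v₀, hv₀⟩ := Function.ne_iff.1 hb
  have hv₀w := (mem_expo hw).1 v₀.2
  obtain ⟨n', hn'⟩ : ∃ n', v₀.1 0 + v₀.1 1 = n' := ⟨_, rfl⟩
  have hnn : n' + 2 < n := by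
    rw [← hn']
    exact add_two_lt hr h0 h1 hwj hn v₀.1 hv₀w
  have hmemV : ∀ i : Fin (n' + 1), expAt v₀.1 n' i ∈ expo w d := by
    intro i
    rw [mem_expo hw]
    exact (expAt_weight h0 h1 v₀.1 n' i hn' (by have := i.2; omega)).trans hv₀w
  let V : Fin (n' + 1) → expo w d := fun i => ⟨expAt v₀.1 n' i, hmemV i⟩
  have hVinj : Function.Injective V := by
    intro i j hij
    have h2 := congrArg (fun u : expo w d => u.1 0) hij
    simp only [V, expAt_zero] at h2
    exact Fin.ext h2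
  have hVsurj : ∀ u : expo w d, (∀ j : Fin r, u.1 j.succ.succ = v₀.1 j.succ.succ) →
      ∃ i, V i = u := by
    intro u hu
    have h2 : u.1 0 + u.1 1 = n' := by
      rw [← hn']
      exact sum_eq_of_class hwx h0 h1 u.1 v₀.1 ((mem_expo hw).1 u.2) hv₀w hu
    refine ⟨⟨u.1 0, by omega⟩, Subtype.ext ?_⟩
    exact expAt_self v₀.1 u.1 n' h2 hu
  have hgr' : ∀ (v : expo w d) (k : ℕ) (e : Fin (r + 2) →₀ ℕ), c v k (monomial e 1) ≠ 0 →
      ∀ j : Fin r, v.1 j.succ.succ ≡ e j.succ.succ [MOD N j] := by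
    intro v k e hne j
    have h2 := congrFun (hgr v k e hne) j
    rw [smul_zero, zero_add, joinGrading_sum, joinGrading_sum, ZMod.natCast_eq_natCast_iff] at h2
    exact (Nat.ModEq.add_right_cancel' 1 h2).symm
  -- the relation on the class
  set bV : Fin (n' + 1) → L := fun i => b (V i) with hbV
  have hbV0 : bV ≠ 0 := by
    obtain ⟨i, hi⟩ := hVsurj v₀ fun _ => rfl
    intro h
    apply hv₀
    have := congrFun h i
    rw [hbV] at this
    simp only [hi] at this
    exact this
  have hrel : ∀ i' : Fin (n' + 1), ∑ i, bV i * c (V i) 0 (monomial (V i').1 1) = 0 := by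
    intro i'
    have h2 := congrFun hb0 (V i')
    rw [Matrix.mulVec, dotProduct, Pi.zero_apply] at h2
    simp only [Matrix.of_apply] at h2
    rw [← h2, ← Finset.sum_subset (Finset.subset_univ (Finset.univ.image V)),
      Finset.sum_image fun x _ y _ h => hVinj h]
    · apply Finset.sum_congr rfl
      intro i _
      rw [hbV, mul_comm]
    · intro v _ hv
      by_cases hc : c v 0 (monomial (V i').1 1) = 0
      · rw [hc, zero_mul]
      · exfalso
        apply hv
        have h3 := hgr' v 0 (V i').1 hc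
        obtain ⟨i, hi⟩ := hVsurj v (fun j => by
          have h4 := h3 j
          have h5 : (V i').1 j.succ.succ = v₀.1 j.succ.succ := expAt_succ _ _ _ _
          rw [h5] at h4
          exact Nat.ModEq.eq_of_lt_of_lt h4 (by have := hlt v j; omega)
            (by have := hlt v₀ j; omega))
        rw [Finset.mem_image]
        exact ⟨i, Finset.mem_univ _, hi⟩
  -- one derivation
  have hu : φ (D (a i₀)) ≠ 0 := fun h => hD0 (hφ (by rw [h, map_zero]))
  obtain ⟨aL, haL⟩ : ∃ aL : Fin n → L, aL = fun i => φ (a i) := ⟨_, rfl⟩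
  have haLi : ∀ i, aL i = φ (a i) := fun i => congrFun haL i
  obtain ⟨F, hF⟩ : ∃ F : Polynomial L,
      F = ∏ i ∈ Finset.univ.erase i₀, (Polynomial.X - Polynomial.C (aL i)) := ⟨_, rfl⟩
  obtain ⟨δ', hδ'⟩ : ∃ δ' : Derivation ℤ L L, δ' = (φ (D (a i₀)))⁻¹ • δ D := ⟨_, rfl⟩
  have hδ0 : δ' (aL i₀) = 1 := by
    rw [hδ', Derivation.smul_apply, haLi, hcomp, smul_eq_mul, inv_mul_cancel₀ hu]
  have hδi : ∀ i ∈ Finset.univ.erase i₀, δ' (aL i) = 0 := by
    intro i hi
    rw [hδ', Derivation.smul_apply, haLi, hcomp, hD i (Finset.ne_of_mem_erase hi), map_zero,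
      smul_zero]
  have hδF : dcoL δ' F = 0 := by
    rw [hF]
    exact dcoL_prod _ _ _ hδi
  have hDf : (coeffD D (joinPoly a N)).map φ =
      -(C (φ (D (a i₀))) * (X 1 * hom2 r F (n - 1))) := by
    rw [coeffD_joinPoly D a N i₀ hD]
    have hcard : (Finset.univ.erase i₀).card = n - 1 := by
      rw [Finset.card_erase_of_mem (Finset.mem_univ i₀), Finset.card_univ, Fintype.card_fin]
    have h2 := hom2_prod r (Finset.univ.erase i₀) aL
    rw [hcard] at h2
    rw [hF, h2, haL]
    simp only [map_neg, map_mul, map_prod, map_sub, map_X, map_C]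
  have hone : ∀ i, OnePer (joinPoly aL N) (X 1 * hom2 r F (n - 1)) δ' (c (V i)) := by
    intro i
    have h2 := (hper (V i)).onePer D (φ (D (a i₀))) (X 1 * hom2 r F (n - 1)) hu hDf
    rw [joinPoly_map, ← haL, ← hδ'] at h2
    exact h2
  obtain ⟨eM, heM⟩ : ∃ eM : Fin (r + 2) →₀ ℕ, eM = (v₀.1.erase 0).erase 1 := ⟨_, rfl⟩
  have heM0 : eM 0 = 0 := by rw [heM, Finsupp.erase_ne (by simp), Finsupp.erase_same]
  have heM1 : eM 1 = 0 := by rw [heM, Finsupp.erase_same]
  have huni : ∀ c' : ℕ → MvPolynomial (Fin (r + 2)) L →ₗ[L] L,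
      OnePer (joinPoly aL N) (X 1 * hom2 r F (n - 1)) δ' c' →
      UniPer δ' n n' (aL i₀) F fun k => (c' k).comp
        ((LinearMap.mulRight L (monomial eM (1 : L))).comp (hom2L L r (n' + k * n))) := by
    intro c' hc'
    rw [hF] at hc' ⊢
    exact hc'.uni hn0 eM heM0 heM1
  have hFdeg : F.natDegree + 1 = n := by
    rw [hF, Polynomial.natDegree_prod_of_monic _ _ fun i _ => Polynomial.monic_X_sub_C _]
    simp only [Polynomial.natDegree_X_sub_C, Finset.sum_const, smul_eq_mul, mul_one]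
    rw [Finset.card_erase_of_mem (Finset.mem_univ i₀), Finset.card_univ, Fintype.card_fin]
    omega
  -- the periods on the class
  let CC : Fin (n' + 1) → Polynomial L →ₗ[L] L := fun i => (c (V i) 0).comp
    ((LinearMap.mulRight L (monomial eM (1 : L))).comp (hom2L L r (n' + 0 * n)))
  have hCCx : ∀ (i : Fin (n' + 1)) (j : ℕ), j ≤ n' →
      CC i (Polynomial.X ^ j) = c (V i) 0 (monomial (expAt v₀.1 n' j) 1) := by
    intro i j hj
    change c (V i) 0 (hom2 r (Polynomial.X ^ j) (n' + 0 * n) * monomial eM 1) = _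
    rw [hom2_X_pow _ _ _ (by omega), X_pow_eq_monomial, X_pow_eq_monomial, monomial_mul,
      monomial_mul, one_mul, one_mul]
    have h2 : n' + 0 * n - j = n' - j := by omega
    rw [h2, heM]
    rfl
  have claim1 : ∀ q : Polynomial L, q.natDegree ≤ n' → ∑ i, bV i * CC i q = 0 := by
    intro q hq
    have h2 := lin_ext (∑ i, bV i • CC i) 0 n' (by
      intro j hj
      rw [LinearMap.sum_apply, LinearMap.zero_apply]
      simp only [LinearMap.smul_apply, smul_eq_mul]
      rw [Finset.sum_congr rfl fun i _ => by rw [hCCx i j hj]]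
      exact hrel ⟨j, by omega⟩) q hq
    rw [LinearMap.sum_apply, LinearMap.zero_apply] at h2
    simp only [LinearMap.smul_apply, smul_eq_mul] at h2
    exact h2
  have claim2 : ∀ j : ℕ, j ≤ n' → ∃ κ : ℤ, ∀ i : Fin (n' + 1),
      (n : L) ^ j * (δ'^[j]) (CC i ((Polynomial.X - Polynomial.C (aL i₀)) ^ n')) =
        (κ : L) * CC i ((Polynomial.X - Polynomial.C (aL i₀)) ^ (n' - j)) := by
    intro j
    induction j with
    | zero =>
      intro _
      refine ⟨1, fun i => ?_⟩
      rw [pow_zero, one_mul, Int.cast_one, one_mul]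
      rfl
    | succ j ih =>
      intro hj
      obtain ⟨κ, hκ⟩ := ih (by omega)
      refine ⟨κ * ((n' : ℤ) + 2 - ((n' - (j + 1) : ℕ) + 1) * n), fun i => ?_⟩
      have h2 := (huni (c (V i)) (hone i)).chain hδ0 (n' - (j + 1)) (by omega)
      have h3 : n' - (j + 1) + 1 = n' - j := by omega
      rw [h3] at h2
      have h4 := congrArg δ' (hκ i)
      have h5 : ∀ (m : ℤ) (x : L), δ' ((m : L) * x) = (m : L) * δ' x := by
        intro m x
        rw [← zsmul_eq_mul, map_zsmul, zsmul_eq_mul]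
      have h6 : ∀ (m : ℕ) (x : L), δ' ((n : L) ^ m * x) = (n : L) ^ m * δ' x := by
        intro m x
        have h7 := h5 ((n : ℤ) ^ m) x
        push_cast at h7
        exact h7
      rw [h5, h6] at h4
      rw [Function.iterate_succ_apply', pow_succ]
      have h8 : (n : L) * δ' (CC i ((Polynomial.X - Polynomial.C (aL i₀)) ^ (n' - j))) =
          (((n' : L) + 2) - ((((n' - (j + 1) : ℕ) : L) + 1)) * n) *
            CC i ((Polynomial.X - Polynomial.C (aL i₀)) ^ (n' - (j + 1))) := h2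
      push_cast
      linear_combination (n : L) * h4 + (κ : L) * h8
  have hn0L : (n : L) ≠ 0 := Nat.cast_ne_zero.2 (by omega)
  have hdegpow : ∀ j, ((Polynomial.X - Polynomial.C (aL i₀)) ^ j : Polynomial L).natDegree ≤ j := by
    intro j
    refine Polynomial.natDegree_pow_le.trans ?_
    rw [Polynomial.natDegree_X_sub_C, mul_one]
  have claim3 : ∀ j < n' + 1, ∑ i, bV i * (δ'^[j])
      (CC i ((Polynomial.X - Polynomial.C (aL i₀)) ^ n')) = 0 := by
    intro j hj
    obtain ⟨κ, hκ⟩ := claim2 j (by omega)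
    have h2 := claim1 ((Polynomial.X - Polynomial.C (aL i₀)) ^ (n' - j))
      ((hdegpow _).trans (Nat.sub_le _ _))
    have h3 : (n : L) ^ j * ∑ i, bV i * (δ'^[j])
        (CC i ((Polynomial.X - Polynomial.C (aL i₀)) ^ n')) = 0 := by
      rw [Finset.mul_sum]
      calc ∑ i, (n : L) ^ j * (bV i * (δ'^[j])
            (CC i ((Polynomial.X - Polynomial.C (aL i₀)) ^ n'))) =
          ∑ i, (κ : L) * (bV i * CC i ((Polynomial.X - Polynomial.C (aL i₀)) ^ (n' - j))) := by
            apply Finset.sum_congr rfl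
            intro i _
            have := hκ i
            linear_combination bV i * this
        _ = 0 := by rw [← Finset.mul_sum, h2, mul_zero]
    exact (mul_eq_zero.1 h3).resolve_left (pow_ne_zero _ hn0L)
  obtain ⟨b', hb', hbc, hbs⟩ := exists_const_of_wronskian δ' (n' + 1) _ bV hbV0 claim3
  -- the combination of the periods vanishes
  have hcomb := OnePer.comb (fun i => c (V i)) hone b' hbc
  have hU := huni _ hcomb
  have hinjL : Function.Injective aL := by
    intro i j hij
    rw [haLi, haLi] at hij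
    exact ha (hφ hij)
  have hsep : ((Polynomial.X - Polynomial.C (aL i₀)) * F).Separable := by
    rw [hF, Finset.mul_prod_erase Finset.univ (fun i => Polynomial.X - Polynomial.C (aL i))
      (Finset.mem_univ i₀)]
    exact Polynomial.separable_prod_X_sub_C_iff.2 hinjL
  have hvan := hU.vanish hFdeg hδF hδ0 hnn (by
    change (∑ i, b' i • c (V i) 0) (hom2 r _ (n' + 0 * n) * monomial eM 1) = 0
    rw [LinearMap.sum_apply]
    simp only [LinearMap.smul_apply, smul_eq_mul]
    exact hbs) hsep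
  have hzero := period_zero w N hwx h0 h1 hn hN0 hN hw (joinPoly aL N) 0
    (joinPoly_homogeneous aL N w wx d h0 h1 (by rw [smul_eq_mul]; exact hn)
      (fun j => by rw [smul_eq_mul, mul_comm]; exact hN j))
    (pderiv_joinPoly aL N) (fun k => ∑ i, b' i • c (V i) k) hcomb.mul hcomb.ex v₀.1 hv₀w hn'
    (by
      intro k e hne j
      rw [LinearMap.sum_apply] at hne
      obtain ⟨i, _, hi⟩ := Finset.exists_ne_zero_of_sum_ne_zero hne
      rw [LinearMap.smul_apply] at hi
      have h2 := hgr' (V i) k e (fun h => hi (by rw [h, smul_zero])) j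
      have h3 : (V i).1 j.succ.succ = v₀.1 j.succ.succ := expAt_succ _ _ _ _
      rw [h3] at h2
      exact h2)
    (by
      intro k q hq
      have h2 := hvan k q hq
      rw [heM] at h2
      exact h2)
  have hLIV : LinearIndependent L (fun i => c (V i)) := hLI.comp V hVinj
  apply hb'
  funext i
  refine Fintype.linearIndependent_iff.1 hLIV b' ?_ i
  funext k
  rw [Finset.sum_apply]
  simp only [Pi.smul_apply, Pi.zero_apply]
  apply MvPolynomial.linearMap_ext
  intro e
  apply LinearMap.ext_ring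
  exact hzero k e

end MPadcGM
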