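import Pool.Agent.Lib.MP_adc574_ag_GM.JCo
import Pool.Agent.Lib.MP_adc574_ag_GM.JVan

/-!
# Quasi-smoothness of `∏ (x₀ - b_i x₁) + ∑ y_j ^ N_j`
-/

set_option autoImplicit false

namespace MPadcGM

open MvPolynomial

variable {L : Type*} [Field L] [CharZero L]

theorem joinPoly_quasiSmooth {n r : ℕ} (hn : 0 < n) (b : Fin n → L) (hb : Function.Injective b)
    (N : Fin r → ℕ) (hN : ∀ j, 0 < N j) (i : Fin (r + 2)) :
    (X i : MvPolynomial (Fin (r + 2)) L) ∈
      (Ideal.span (Set.range fun j => pderiv j (joinPoly b N))).radical := by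
  classical
  obtain ⟨J, hJ⟩ : ∃ J, J = Ideal.span (Set.range fun j => pderiv j (joinPoly b N)) := ⟨_, rfl⟩
  rw [← hJ]
  have hmem : ∀ j, pderiv j (joinPoly b N) ∈ J := by
    intro j
    rw [hJ]
    exact Ideal.subset_span ⟨j, rfl⟩
  -- the first two variables
  obtain ⟨G, hG⟩ : ∃ G : Polynomial L, G = ∏ i, (Polynomial.X - Polynomial.C (b i)) := ⟨_, rfl⟩
  have hjoin : joinPoly b N = hom2 r G n + ∑ j : Fin r, X j.succ.succ ^ N j := by
    have h1 := hom2_prod r (Finset.univ : Finset (Fin n)) b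
    rw [Finset.card_univ, Fintype.card_fin] at h1
    rw [hG, h1]
    rfl
  have hGd : G.natDegree = n := by
    rw [hG, Polynomial.natDegree_prod_of_monic _ _ fun i _ => Polynomial.monic_X_sub_C _]
    simp
  have hsep : G.Separable := by
    rw [hG]
    exact Polynomial.separable_prod_X_sub_C_iff.2 hb
  obtain ⟨e, rfl⟩ : ∃ e, n = e + 1 := ⟨n - 1, by omega⟩
  have hp0 : pderiv 0 (joinPoly b N) = hom2 r (Polynomial.derivative G) e := by
    rw [hjoin, map_add, pderiv_sumY N 0 (Or.inl rfl), add_zero, pderiv0_hom2 _ _ _ hGd.le]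
  have hp1 : pderiv 1 (joinPoly b N) = hom2 r (((e + 1 : ℕ) : Polynomial L) * G -
      Polynomial.X * Polynomial.derivative G) e := by
    rw [hjoin, map_add, pderiv_sumY N 1 (Or.inr rfl), add_zero, pderiv1_hom2 _ _ _ hGd.le]
  have hco : IsCoprime (Polynomial.derivative G) (((e + 1 : ℕ) : Polynomial L) * G -
      Polynomial.X * Polynomial.derivative G) :=
    coprime_euler (Nat.cast_ne_zero.2 (Nat.succ_ne_zero e)) hsep
  have hd : (Polynomial.derivative G).natDegree = e := by
    rw [Polynomial.natDegree_derivative, hGd, Nat.add_sub_cancel]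
  have hd0 : Polynomial.derivative G ≠ 0 := by
    intro h1
    have h2 := Polynomial.derivative_eq_zero.1 h1
    omega
  have hh : (((e + 1 : ℕ) : Polynomial L) * G - Polynomial.X * Polynomial.derivative G).natDegree ≤
      e := natDegree_euler_le G e hGd.le
  have key : ∀ R : Polynomial L, R.natDegree ≤ 2 * e → hom2 r R (2 * e) ∈ J := by
    intro R hR
    obtain ⟨Q₁, Q₂, h1, h2, h3⟩ := poly_rep hd hd0 hh hco hR (by omega)
    have h4 : hom2 r R (2 * e) = hom2 r (Q₁ * Polynomial.derivative G) ((2 * e - e) + e) +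
        hom2 r (Q₂ * (((e + 1 : ℕ) : Polynomial L) * G -
          Polynomial.X * Polynomial.derivative G)) ((2 * e - e) + e) := by
      have h5 : 2 * e - e + e = 2 * e := by omega
      rw [h5, ← hom2L_apply, ← hom2L_apply, ← hom2L_apply, ← map_add, ← h1]
    rw [h4, hom2_mul r _ _ h2 hd.le, hom2_mul r _ _ h3 hh, ← hp0, ← hp1]
    exact J.add_mem (J.mul_mem_left _ (hmem 0)) (J.mul_mem_left _ (hmem 1))
  refine Fin.cases ?_ (fun i => Fin.cases ?_ (fun j => ?_) i) i
  · refine ⟨2 * e, ?_⟩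
    have h1 := key (Polynomial.X ^ (2 * e)) (by rw [Polynomial.natDegree_X_pow])
    rw [hom2_X_pow _ _ _ le_rfl, Nat.sub_self, pow_zero, mul_one] at h1
    exact h1
  · refine ⟨2 * e, ?_⟩
    have h1 := key (Polynomial.X ^ 0) (by rw [pow_zero, Polynomial.natDegree_one]; omega)
    rw [hom2_X_pow _ _ _ (Nat.zero_le _), pow_zero, one_mul, Nat.sub_zero] at h1
    exact h1
  · refine ⟨N j, ?_⟩
    have h1 := hmem j.succ.succ
    rw [pderiv_joinPoly] at h1
    have hNj : (N j : L) ≠ 0 := Nat.cast_ne_zero.2 (hN j).ne'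
    have h2 : (X j.succ.succ : MvPolynomial (Fin (r + 2)) L) ^ N j =
        (C ((N j : L)⁻¹) * X j.succ.succ) * ((N j : L) • X j.succ.succ ^ (N j - 1)) := by
      rw [smul_eq_C_mul]
      have h3 : N j = N j - 1 + 1 := by have := hN j; omega
      have h4 : (C ((N j : L)⁻¹) : MvPolynomial (Fin (r + 2)) L) * C (N j : L) = 1 := by
        rw [← C_mul, inv_mul_cancel₀ hNj, C_1]
      calc (X j.succ.succ : MvPolynomial (Fin (r + 2)) L) ^ N j = X j.succ.succ ^ (N j - 1 + 1) := by
            rw [← h3]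
        _ = (C ((N j : L)⁻¹) * C (N j : L)) * (X j.succ.succ * X j.succ.succ ^ (N j - 1)) := by
            rw [h4, one_mul, pow_succ, mul_comm]
        _ = _ := by ring
    rw [h2]
    exact J.mul_mem_left _ h1

end MPadcGM
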