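import Mathlib

/-!
# Periods of `q(x) dx` in one variable, with one moving point

`C k q` stands for the period of `q F ^ (-k) (x - a) ^ (-k)` times a fixed multivalued function with
branch points at `a` and at the roots of `F`; the point `a` moves (`δ a = 1`), the others do not.
-/

set_option autoImplicit false

namespace MPadcGM

open Polynomial

/-- The derivation of `L[X]` given by a derivation of the coefficients. -/
noncomputable def dcoL {L : Type*} [CommRing L] (δ : Derivation ℤ L L) :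
    Derivation ℤ L[X] L[X] :=
  @Differential.mapCoeffs L _ ⟨δ⟩

theorem coeff_dcoL {L : Type*} [CommRing L] (δ : Derivation ℤ L L) (q : L[X]) (i : ℕ) :
    (dcoL δ q).coeff i = δ (q.coeff i) :=
  @Differential.coeff_mapCoeffs L _ ⟨δ⟩ q i

theorem dcoL_X {L : Type*} [CommRing L] (δ : Derivation ℤ L L) : dcoL δ (X : L[X]) = 0 := by
  ext i
  rw [coeff_dcoL, coeff_X, coeff_zero]
  split_ifs
  · exact Derivation.map_one_eq_zero δ
  · exact map_zero δ

theorem dcoL_C {L : Type*} [CommRing L] (δ : Derivation ℤ L L) (a : L) :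
    dcoL δ (C a : L[X]) = C (δ a) := by
  ext i
  rw [coeff_dcoL, coeff_C, coeff_C]
  split_ifs
  · rfl
  · exact map_zero δ

theorem natDegree_dcoL_le {L : Type*} [CommRing L] (δ : Derivation ℤ L L) (q : L[X]) :
    (dcoL δ q).natDegree ≤ q.natDegree := by
  rw [natDegree_le_iff_coeff_eq_zero]
  intro i hi
  rw [coeff_dcoL, coeff_eq_zero_of_natDegree_lt hi, map_zero]

/-- Division with remainder: representation by two coprime polynomials with degree bounds. -/
theorem poly_rep {L : Type*} [Field L] {g h : L[X]} {n : ℕ} (hg : g.natDegree = n) (hg0 : g ≠ 0)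
    (hh : h.natDegree ≤ n) (hco : IsCoprime g h) {R : L[X]} {M : ℕ} (hR : R.natDegree ≤ M)
    (hM : 2 * n ≤ M + 1) :
    ∃ Q₁ Q₂ : L[X], R = Q₁ * g + Q₂ * h ∧ Q₁.natDegree ≤ M - n ∧ Q₂.natDegree ≤ M - n := by
  obtain ⟨u, v, huv⟩ := hco
  set Q₂ := (R * v) % g with hQ₂
  set Q₁ := R * u + (R * v / g) * h with hQ₁
  have h1 : R = Q₁ * g + Q₂ * h := by
    have h2 : g * (R * v / g) + (R * v) % g = R * v := EuclideanDomain.div_add_mod _ _
    rw [hQ₁, hQ₂]
    linear_combination (-R) * huv - h * h2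
  have hd2 : Q₂.degree < g.degree := EuclideanDomain.mod_lt _ hg0
  have hn2 : Q₂ = 0 ∨ Q₂.natDegree < n := by
    by_cases h0 : Q₂ = 0
    · exact Or.inl h0
    · right
      rw [← hg]
      exact natDegree_lt_natDegree h0 hd2
  have hb2 : Q₂.natDegree ≤ M - n := by
    rcases hn2 with h0 | h0
    · rw [h0, natDegree_zero]
      exact Nat.zero_le _
    · omega
  refine ⟨Q₁, Q₂, h1, ?_, hb2⟩
  by_cases hQ₁0 : Q₁ = 0
  · rw [hQ₁0, natDegree_zero]
    exact Nat.zero_le _
  have h3 : (Q₁ * g).natDegree = Q₁.natDegree + n := by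
    rw [natDegree_mul hQ₁0 hg0, hg]
  have h4 : Q₁ * g = R - Q₂ * h := by
    rw [h1]
    ring
  have h5 : (Q₂ * h).natDegree ≤ M := by
    rcases hn2 with h0 | h0
    · rw [h0, zero_mul, natDegree_zero]
      exact Nat.zero_le _
    · refine natDegree_mul_le.trans ?_
      omega
  have h6 : (R - Q₂ * h).natDegree ≤ M := (natDegree_sub_le _ _).trans (max_le hR h5)
  rw [← h4, h3] at h6
  omega

/-- The axioms. -/
structure UniPer {L : Type*} [Field L] (δ : Derivation ℤ L L) (n n' : ℕ) (a : L) (F : L[X])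
    (C' : ℕ → L[X] →ₗ[L] L) : Prop where
  ex0 : ∀ k Q, Q.natDegree ≤ n' + k * n + 1 →
    ((k : L) + 1) * C' (k + 1) (Q * derivative ((X - C a) * F)) = C' k (derivative Q)
  ex1 : ∀ k Q, Q.natDegree ≤ n' + k * n + 1 →
    ((k : L) + 1) * C' (k + 1) (Q * ((n : L[X]) * ((X - C a) * F) -
      X * derivative ((X - C a) * F))) =
    C' k (((n' + k * n + 1 : ℕ) : L[X]) * Q - X * derivative Q)
  der : ∀ k q, q.natDegree ≤ n' + k * n →
    δ (C' k q) = C' k (dcoL δ q) + ((k : L) + 1) * C' (k + 1) (q * F)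

namespace UniPer

variable {L : Type*} [Field L] [CharZero L] {δ : Derivation ℤ L L} {n n' : ℕ} {a : L} {F : L[X]}
  {C' : ℕ → L[X] →ₗ[L] L}

theorem map_natCast_mul (T : L[X] →ₗ[L] L) (m : ℕ) (q : L[X]) :
    T ((m : L[X]) * q) = (m : L) * T q := by
  rw [← map_natCast (C : L →+* L[X]), ← smul_eq_C_mul, map_smul, smul_eq_mul]

omit [CharZero L] in
theorem map_C_mul (T : L[X] →ₗ[L] L) (m : L) (q : L[X]) :
    T (C m * q) = m * T q := by
  rw [← smul_eq_C_mul, map_smul, smul_eq_mul]

omit [CharZero L] in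
theorem mul (h : UniPer δ n n' a F C') (k : ℕ) (q : L[X]) (hq : q.natDegree ≤ n' + k * n) :
    (n : L) * (((k : L) + 1) * C' (k + 1) (q * ((X - C a) * F))) =
      ((n' + k * n + 2 : ℕ) : L) * C' k q := by
  have h0 := h.ex0 k (X * q) (by
    refine natDegree_mul_le.trans ?_
    have := natDegree_X_le (R := L)
    omega)
  have h1 := h.ex1 k q (by omega)
  have h2 : (n : L[X]) * (q * ((X - C a) * F)) =
      (X * q) * derivative ((X - C a) * F) + q * ((n : L[X]) * ((X - C a) * F) -
        X * derivative ((X - C a) * F)) := by ring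
  have h3 : (n : L) * C' (k + 1) (q * ((X - C a) * F)) =
      C' (k + 1) ((X * q) * derivative ((X - C a) * F)) +
        C' (k + 1) (q * ((n : L[X]) * ((X - C a) * F) - X * derivative ((X - C a) * F))) := by
    rw [← map_add, ← h2]
    rw [← map_natCast (C : L →+* L[X]), ← smul_eq_C_mul, map_smul, smul_eq_mul]
  have h4 : derivative (X * q) + (((n' + k * n + 1 : ℕ) : L[X]) * q - X * derivative q) =
      ((n' + k * n + 2 : ℕ) : L[X]) * q := by
    rw [derivative_mul, derivative_X]
    push_cast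
    ring
  have h5 : C' k (derivative (X * q)) +
      C' k (((n' + k * n + 1 : ℕ) : L[X]) * q - X * derivative q) =
      ((n' + k * n + 2 : ℕ) : L) * C' k q := by
    rw [← map_add, h4]
    rw [← map_natCast (C : L →+* L[X]), ← smul_eq_C_mul, map_smul, smul_eq_mul]
  linear_combination h0 + h1 + h5 + ((k : L) + 1) * h3

/-- The chain at the moving point. -/
theorem chain (h : UniPer δ n n' a F C') (ha : δ a = 1) (i : ℕ) (hi : i < n') :
    (n : L) * δ (C' 0 ((X - C a) ^ (i + 1))) =
      (((n' : L) + 2) - ((i : L) + 1) * n) * C' 0 ((X - C a) ^ i) := by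
  have hd : ∀ j : ℕ, ((X - C a : L[X]) ^ j).natDegree ≤ j := by
    intro j
    refine natDegree_pow_le.trans ?_
    rw [natDegree_X_sub_C, mul_one]
  have h1 := h.der 0 ((X - C a) ^ (i + 1)) ((hd _).trans (by omega))
  have h2 := h.mul 0 ((X - C a) ^ i) ((hd _).trans (by omega))
  have h3 : dcoL δ ((X - C a : L[X]) ^ (i + 1)) = -((i + 1 : ℕ) : L[X]) * (X - C a) ^ i := by
    rw [Derivation.leibniz_pow, map_sub, dcoL_X, dcoL_C, ha]
    simp only [Nat.add_sub_cancel, nsmul_eq_mul, smul_eq_mul, map_one]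
    ring
  have h4 : C' 0 (-((i + 1 : ℕ) : L[X]) * (X - C a) ^ i) =
      -(((i : L) + 1) * C' 0 ((X - C a) ^ i)) := by
    rw [neg_mul, map_neg, map_natCast_mul]
    push_cast
    ring
  have h5 : (X - C a : L[X]) ^ (i + 1) * F = (X - C a) ^ i * ((X - C a) * F) := by ring
  rw [h3, h4, h5] at h1
  push_cast at h1 h2
  rw [h1]
  linear_combination h2

end UniPer

end MPadcGM
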