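import Pool.Agent.Lib.MP_adc574_ag_GM.Defs

/-!
# JOB JACA: descent of the ideal membership from `k` to `A`

Choose `M` and `Q j` over `k` with `X i ^ M = ∑ j, Q j * pderiv j f_k`. Let `K` be
the fraction field `FractionRing A`, with `K → k` (`IsFractionRing.lift` of the injection
`algebraMap A k`), and `π : k →ₗ[K] K` a linear retraction (`LinearMap.exists_leftInverse_of_injective`
for `Algebra.linearMap K k`). Applying `π` to all coefficients gives polynomials `Q' j` over `K` with
`X i ^ M = ∑ j, Q' j * pderiv j f_K` (compare coefficients: `coeff_mul`, `π (a * x) = a π x`). Clear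
denominators (`IsLocalization.exist_integer_multiples_of_finset` or
`IsLocalization.integerNormalization`-like): `a * X i ^ M = ∑ j, Q'' j * pderiv j f` over `A`, `a ≠ 0`
(`MvPolynomial.map_injective`).
-/

set_option autoImplicit false

namespace MPadcGM

open MvPolynomial

private noncomputable def JacA_retr {K k : Type*} [Field K] [Field k] [Algebra K k] (π : k →ₗ[K] K)
    {m : ℕ} (q : MvPolynomial (Fin m) k) : MvPolynomial (Fin m) K :=
  ∑ d ∈ q.support, monomial d (π (q.coeff d))

private theorem JacA_coeff {K k : Type*} [Field K] [Field k] [Algebra K k] (π : k →ₗ[K] K)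
    {m : ℕ} (q : MvPolynomial (Fin m) k) (d : Fin m →₀ ℕ) :
    (JacA_retr π q).coeff d = π (q.coeff d) := by
  classical
  unfold JacA_retr
  rw [MvPolynomial.coeff_sum]
  simp only [MvPolynomial.coeff_monomial]
  rw [Finset.sum_ite_eq']
  split_ifs with h
  · rfl
  · rw [MvPolynomial.notMem_support_iff.1 h, map_zero]

/-- membership in an ideal generated over the smaller field descends -/
private theorem JacA_field {K k : Type*} [Field K] [Field k] [Algebra K k] {m : ℕ} {ι : Type*}
    [Fintype ι] (v : ι → MvPolynomial (Fin m) K) (P : MvPolynomial (Fin m) K)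
    (h : map (algebraMap K k) P ∈
      Ideal.span (Set.range fun j => map (algebraMap K k) (v j))) :
    P ∈ Ideal.span (Set.range v) := by
  classical
  obtain ⟨π, hπ⟩ := LinearMap.exists_leftInverse_of_injective (Algebra.linearMap K k)
    (LinearMap.ker_eq_bot.2 (algebraMap K k).injective)
  have hπ' : ∀ a : K, π (algebraMap K k a) = a := fun a => by
    have := LinearMap.congr_fun hπ a
    simpa using this
  rw [Ideal.mem_span_range_iff_exists_fun] at h ⊢
  obtain ⟨c, hc⟩ := h
  refine ⟨fun j => JacA_retr π (c j), ?_⟩
  apply MvPolynomial.ext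
  intro d
  have h1 := congrArg (fun q => π (q.coeff d)) hc
  simp only [MvPolynomial.coeff_map, hπ'] at h1
  rw [← h1, MvPolynomial.coeff_sum, MvPolynomial.coeff_sum, map_sum]
  apply Finset.sum_congr rfl
  intro j _
  rw [MvPolynomial.coeff_mul, MvPolynomial.coeff_mul, map_sum]
  apply Finset.sum_congr rfl
  intro x _
  rw [JacA_coeff, MvPolynomial.coeff_map, mul_comm (coeff x.1 (c j)), ← Algebra.smul_def,
    map_smul, smul_eq_mul, mul_comm]

/-- clearing denominators -/
private theorem JacA_clear {A K : Type*} [CommRing A] [IsDomain A] [Field K] [Algebra A K]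
    [IsFractionRing A K] {m : ℕ} (I : Ideal (MvPolynomial (Fin m) A)) (P : MvPolynomial (Fin m) A)
    (h : map (algebraMap A K) P ∈ Ideal.map (map (algebraMap A K)) I) :
    ∃ a : A, a ≠ 0 ∧ C a * P ∈ I := by
  let : Algebra (MvPolynomial (Fin m) A) (MvPolynomial (Fin m) K) := algebraMvPolynomial
  have hloc : IsLocalization ((nonZeroDivisors A).map (C : A →+* MvPolynomial (Fin m) A))
      (MvPolynomial (Fin m) K) := MvPolynomial.isLocalization _ _
  have h' : algebraMap (MvPolynomial (Fin m) A) (MvPolynomial (Fin m) K) P ∈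
      Ideal.map (algebraMap (MvPolynomial (Fin m) A) (MvPolynomial (Fin m) K)) I := h
  rw [IsLocalization.mem_map_algebraMap_iff
    ((nonZeroDivisors A).map (C : A →+* MvPolynomial (Fin m) A))] at h'
  obtain ⟨⟨x, s⟩, hx⟩ := h'
  obtain ⟨a, ha, has⟩ := s.2
  refine ⟨a, nonZeroDivisors.ne_zero ha, ?_⟩
  rw [← map_mul] at hx
  have hinj : Function.Injective
      (algebraMap (MvPolynomial (Fin m) A) (MvPolynomial (Fin m) K)) :=
    MvPolynomial.map_injective _ (IsFractionRing.injective A K)
  have h2 := hinj hx
  have h3 : C a * P = (x : MvPolynomial (Fin m) A) := by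
    rw [mul_comm, ← h2]
    exact congrArg (P * ·) has
  rw [h3]
  exact x.2

theorem jac_descend {k : Type*} [Field k] {A : Type*} [CommRing A] [IsDomain A] [Algebra A k]
    (hinj : Function.Injective (algebraMap A k)) {m : ℕ} (f : MvPolynomial (Fin m) A) (i : Fin m)
    (hs : (X i : MvPolynomial (Fin m) k) ∈
      (Ideal.span (Set.range fun j => pderiv j (f.map (algebraMap A k)))).radical) :
    ∃ (a : A) (M : ℕ), a ≠ 0 ∧
      C a * (X i) ^ M ∈ Ideal.span (Set.range fun j : Fin m => pderiv j f) := by
  obtain ⟨M, hM⟩ := hs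
  let ψ : FractionRing A →+* k := IsFractionRing.lift hinj
  let : Algebra (FractionRing A) k := ψ.toAlgebra
  have hψ : (algebraMap (FractionRing A) k).comp (algebraMap A (FractionRing A)) =
      algebraMap A k := by
    apply RingHom.ext
    intro x
    exact IsFractionRing.lift_algebraMap hinj x
  have h1 : map (algebraMap (FractionRing A) k) ((X i : MvPolynomial (Fin m) (FractionRing A)) ^ M) ∈
      Ideal.span (Set.range fun j => map (algebraMap (FractionRing A) k)
        (map (algebraMap A (FractionRing A)) (pderiv j f))) := by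
    rw [map_pow, map_X]
    have h2 : (fun j => map (algebraMap (FractionRing A) k)
        (map (algebraMap A (FractionRing A)) (pderiv j f))) =
        fun j => pderiv j (f.map (algebraMap A k)) := by
      funext j
      rw [map_map, hψ, pderiv_map]
    rw [h2]
    exact hM
  have h3 := JacA_field _ _ h1
  have h4 : map (algebraMap A (FractionRing A)) ((X i : MvPolynomial (Fin m) A) ^ M) ∈
      Ideal.map (map (algebraMap A (FractionRing A)))
        (Ideal.span (Set.range fun j : Fin m => pderiv j f)) := by
    rw [Ideal.map_span, ← Set.range_comp, map_pow, map_X]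
    exact h3
  obtain ⟨a, ha, ha'⟩ := JacA_clear _ _ h4
  exact ⟨a, M, ha, ha'⟩

end MPadcGM
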